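import Pool.Agent.Helper50.CF.Basic
import Mathlib.Analysis.SpecialFunctions.SmoothTransition

/-! # CF-4: radial cutoff functions with a bound for the gradient

PROOF. `exists_step`: `Real.smoothTransition` is smooth and locally constant off `[0,1]`, so its
derivative is continuous and vanishes off `[0,1]`; a continuous function on the compact `[0,1]` is
bounded.
`exists_cutoff`: `φ p = smoothTransition ((R'² - |p|²)/(R'² - r²))`, `R' = (r+R)/2`,
`|p|² = Σ pᵢ²`. `φ = 1` for `|p| ≤ r`, `φ = 0` for `|p| ≥ R'`, so `tsupport φ ⊆ Bc n R' ⊆ B n R`;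
`gr φ p ≤ c₀ · 2 R'/(R'² - r²) ≤ 2 c₀/(R' - r) = 4 c₀/(R - r)` (for `|p| ≥ R'` the gradient is
zero). -/

namespace Pool.Agent.Helper50.CF

open scoped ContDiff Topology
open Pool.Agent.Helper49.Ric Pool.Agent.Helper73.HB MeasureTheory Filter

noncomputable section

variable {n : ℕ} {S lam : ℝ} {Ω : Set (Fin n → ℝ)} {u : (Fin n → ℝ) → ℝ} {p : Fin n → ℝ}

private theorem deriv_step_neg {t : ℝ} (ht : t < 0) : deriv Real.smoothTransition t = 0 := by
  have h : Real.smoothTransition =ᶠ[𝓝 t] fun _ => (0 : ℝ) := by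
    filter_upwards [Iio_mem_nhds ht] with x hx
    exact Real.smoothTransition.zero_of_nonpos (le_of_lt hx)
  rw [h.deriv_eq, deriv_const]

private theorem deriv_step_gt {t : ℝ} (ht : 1 < t) : deriv Real.smoothTransition t = 0 := by
  have h : Real.smoothTransition =ᶠ[𝓝 t] fun _ => (1 : ℝ) := by
    filter_upwards [Ioi_mem_nhds ht] with x hx
    exact Real.smoothTransition.one_of_one_le (le_of_lt hx)
  rw [h.deriv_eq, deriv_const]

theorem exists_step : ∃ c : ℝ, 1 ≤ c ∧ ∀ t : ℝ, |deriv Real.smoothTransition t| ≤ c := by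
  have hc : Continuous (deriv Real.smoothTransition) :=
    (Real.smoothTransition.contDiff (n := 1)).continuous_deriv le_rfl
  obtain ⟨C, hC⟩ := (isCompact_Icc (a := (0 : ℝ)) (b := 1)).exists_bound_of_continuousOn
    hc.continuousOn
  refine ⟨max 1 C, le_max_left _ _, fun t => ?_⟩
  rcases lt_or_ge t 0 with h0 | h0
  · rw [deriv_step_neg h0, abs_zero]
    exact le_trans zero_le_one (le_max_left _ _)
  rcases lt_or_ge 1 t with h1 | h1
  · rw [deriv_step_gt h1, abs_zero]
    exact le_trans zero_le_one (le_max_left _ _)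
  · have := hC t ⟨h0, h1⟩
    rw [Real.norm_eq_abs] at this
    exact this.trans (le_max_right _ _)

theorem exists_cutoff : ∃ c : ℝ, 1 ≤ c ∧ ∀ (n : ℕ) (r R : ℝ), 0 < r → r < R →
    ∃ φ : (Fin n → ℝ) → ℝ, ContDiff ℝ ∞ φ ∧ HasCompactSupport φ ∧ tsupport φ ⊆ B n R ∧
      (∀ p, 0 ≤ φ p) ∧ (∀ p, φ p ≤ 1) ∧ (∀ p ∈ Bc n r, φ p = 1) ∧
      ∀ p, gr φ p ≤ c / (R - r) := by
  obtain ⟨c, hc1, hc⟩ := exists_step
  refine ⟨4 * c, by linarith, fun n r R hr hrR => ?_⟩
  obtain ⟨R', hR'⟩ : ∃ R' : ℝ, R' = (r + R) / 2 := ⟨_, rfl⟩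
  have h1 : r < R' := by rw [hR']; linarith
  have h2 : R' < R := by rw [hR']; linarith
  have h0' : 0 < R' := hr.trans h1
  have hd : 0 < R' ^ 2 - r ^ 2 := by nlinarith
  obtain ⟨g, hg⟩ : ∃ g : (Fin n → ℝ) → ℝ, g = fun p => (R' ^ 2 - ∑ i, p i ^ 2) / (R' ^ 2 - r ^ 2) :=
    ⟨_, rfl⟩
  have hgs : ContDiff ℝ ∞ g := by
    rw [hg]
    exact (contDiff_const.sub (ContDiff.sum fun i _ => (contDiff_apply ℝ ℝ i).pow 2)).div_const _
  obtain ⟨φ, hφ⟩ : ∃ φ : (Fin n → ℝ) → ℝ, φ = fun p => Real.smoothTransition (g p) := ⟨_, rfl⟩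
  have hφs : ContDiff ℝ ∞ φ := by
    rw [hφ]; exact (Real.smoothTransition.contDiff).comp hgs
  have hsup : tsupport φ ⊆ Bc n R' := by
    refine closure_minimal (fun p hp => ?_) (isClosed_Bc R')
    rw [Function.mem_support] at hp
    by_contra hcon
    apply hp
    have hlt : R' ^ 2 < ∑ i, p i ^ 2 := by
      by_contra hh
      exact hcon (not_lt.mp hh)
    rw [hφ]
    refine Real.smoothTransition.zero_of_nonpos ?_
    rw [hg]
    exact div_nonpos_of_nonpos_of_nonneg (by linarith) hd.le
  refine ⟨φ, hφs, ?_, ?_, ?_, ?_, ?_, ?_⟩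
  · exact HasCompactSupport.of_support_subset_isCompact (isCompact_Bc R')
      ((subset_tsupport φ).trans hsup)
  · exact hsup.trans (Bc_subset_B h0'.le h2)
  · intro p; rw [hφ]; exact Real.smoothTransition.nonneg _
  · intro p; rw [hφ]; exact Real.smoothTransition.le_one _
  · intro p hp
    have hp' : ∑ i, p i ^ 2 ≤ r ^ 2 := hp
    rw [hφ]
    refine Real.smoothTransition.one_of_one_le ?_
    rw [hg]
    rw [le_div_iff₀ hd]
    linarith
  · intro p
    have hpd : ∀ i, pd i φ p = deriv Real.smoothTransition (g p) *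
        (-(2 * p i) / (R' ^ 2 - r ^ 2)) := by
      intro i
      have hdg : HasDerivAt (fun t : ℝ => g (p + t • Pi.single i 1))
          (-(2 * p i) / (R' ^ 2 - r ^ 2)) 0 := by
        have hj : ∀ j : Fin n, HasDerivAt
            (fun t : ℝ => ((p + t • (Pi.single i 1 : Fin n → ℝ)) j) ^ 2)
            (2 * p j * (Pi.single i 1 : Fin n → ℝ) j) 0 := by
          intro j
          have hl : HasDerivAt (fun t : ℝ => p j + t * (Pi.single i 1 : Fin n → ℝ) j)
              ((Pi.single i 1 : Fin n → ℝ) j) 0 := by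
            simpa using ((hasDerivAt_id (0 : ℝ)).mul_const
              ((Pi.single i 1 : Fin n → ℝ) j)).const_add (p j)
          have hl2 := hl.pow 2
          have e : (fun t : ℝ => ((p + t • (Pi.single i 1 : Fin n → ℝ)) j) ^ 2) =
              (fun t : ℝ => p j + t * (Pi.single i 1 : Fin n → ℝ) j) ^ 2 := by
            funext t
            simp [Pi.add_apply, Pi.smul_apply, smul_eq_mul]
          rw [e]
          refine hl2.congr_deriv ?_
          rw [zero_mul, add_zero]
          norm_num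
        have hs : HasDerivAt (fun t : ℝ => ∑ j, ((p + t • (Pi.single i 1 : Fin n → ℝ)) j) ^ 2)
            (∑ j, 2 * p j * (Pi.single i 1 : Fin n → ℝ) j) 0 := by
          have := HasDerivAt.fun_sum (u := Finset.univ) (fun j _ => hj j)
          exact this
        have hs' : ∑ j, 2 * p j * (Pi.single i 1 : Fin n → ℝ) j = 2 * p i := by
          rw [Finset.sum_eq_single i]
          · simp
          · intro b _ hb
            simp [Pi.single_eq_of_ne hb]
          · intro h; exact absurd (Finset.mem_univ i) h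
        rw [hs'] at hs
        have := ((hs.const_sub (R' ^ 2)).div_const (R' ^ 2 - r ^ 2))
        rw [hg]
        exact this
      have hst : HasDerivAt Real.smoothTransition (deriv Real.smoothTransition (g p))
          (g (p + (0 : ℝ) • (Pi.single i 1 : Fin n → ℝ))) := by
        rw [zero_smul, add_zero]
        exact ((Real.smoothTransition.contDiff (n := 1)).differentiable
          (by norm_num)).differentiableAt.hasDerivAt
      have hcomp := hst.comp (0 : ℝ) hdg
      rw [pd, lineDeriv]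
      have e : (fun t : ℝ => φ (p + t • (Pi.single i 1 : Fin n → ℝ))) =
          Real.smoothTransition ∘ (fun t : ℝ => g (p + t • (Pi.single i 1 : Fin n → ℝ))) := by
        funext t; rw [hφ]; rfl
      rw [e]
      exact hcomp.deriv
    have hgs' : gs φ p = (deriv Real.smoothTransition (g p) * (2 / (R' ^ 2 - r ^ 2))) ^ 2 *
        ∑ i, p i ^ 2 := by
      unfold gs
      rw [Finset.mul_sum]
      refine Finset.sum_congr rfl fun i _ => ?_
      rw [hpd i]
      ring
    have hRr : 0 < R - r := by linarith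
    rcases lt_or_ge (R' ^ 2) (∑ i, p i ^ 2) with hlt | hle
    · have hneg : g p < 0 := by
        rw [hg]
        exact div_neg_of_neg_of_pos (by linarith) hd
      unfold gr
      rw [hgs', deriv_step_neg hneg]
      simp only [zero_mul, ne_eq, OfNat.ofNat_ne_zero, not_false_eq_true, zero_pow, Real.sqrt_zero]
      positivity
    · unfold gr
      rw [hgs']
      refine Real.sqrt_le_iff.mpr ⟨by positivity, ?_⟩
      have hD := hc (g p)
      have hD2 : deriv Real.smoothTransition (g p) ^ 2 ≤ c ^ 2 := by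
        rw [← sq_abs]
        exact pow_le_pow_left₀ (abs_nonneg _) hD 2
      have hq : 0 ≤ (2 / (R' ^ 2 - r ^ 2)) ^ 2 := sq_nonneg _
      have hle0 : 0 ≤ ∑ i, p i ^ 2 := Finset.sum_nonneg fun i _ => sq_nonneg _
      calc (deriv Real.smoothTransition (g p) * (2 / (R' ^ 2 - r ^ 2))) ^ 2 * ∑ i, p i ^ 2
          ≤ (c ^ 2 * (2 / (R' ^ 2 - r ^ 2)) ^ 2) * R' ^ 2 := by
            rw [mul_pow]
            exact mul_le_mul (mul_le_mul_of_nonneg_right hD2 hq) hle hle0 (by positivity)
        _ = (c * (2 * R' / (R' ^ 2 - r ^ 2))) ^ 2 := by ring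
        _ ≤ (4 * c / (R - r)) ^ 2 := by
            refine pow_le_pow_left₀ (by positivity) ?_ 2
            have hk : 2 * R' / (R' ^ 2 - r ^ 2) ≤ 4 / (R - r) := by
              rw [div_le_div_iff₀ hd hRr]
              have hRR : R = 2 * R' - r := by rw [hR']; ring
              rw [hRR]
              nlinarith
            calc c * (2 * R' / (R' ^ 2 - r ^ 2)) ≤ c * (4 / (R - r)) :=
                  mul_le_mul_of_nonneg_left hk (by linarith)
              _ = 4 * c / (R - r) := by ring

end

end Pool.Agent.Helper50.CF
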