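import Pool.Agent.Helper50.CF.Basic

/-! # CF-7: Hölder's inequality on a measurable subset

PROOF. `MeasureTheory.integral_mul_le_Lp_mul_Lq_of_nonneg` for the measure `volume.restrict A`,
exponents `n/(n-a)` and `n/a`, functions `gr^(n-a)` and `e^{au}`, both continuous on the compact
`Bc n 2`, hence bounded on `A` and in every `L^p` (finite measure). `(gr^(n-a))^(n/(n-a)) = gr^n`,
`(e^{au})^(n/a) = e^{nu}`. Then monotonicity of `x ↦ x^e` (`e ≥ 0`, integrals `≥ 0`). -/

namespace Pool.Agent.Helper50.CF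

open scoped ContDiff Topology
open Pool.Agent.Helper49.Ric Pool.Agent.Helper73.HB MeasureTheory Filter

noncomputable section

variable {n : ℕ} {S lam : ℝ} {Ω : Set (Fin n → ℝ)} {u : (Fin n → ℝ) → ℝ} {p : Fin n → ℝ}

theorem holder (hu : ContinuousOn u (Bc n 2)) (hg : ContinuousOn (gr u) (Bc n 2))
    {A : Set (Fin n → ℝ)} (hA : A ⊆ B n 2) (hm : MeasurableSet A) {a : ℕ} (ha : 1 ≤ a) (han : a < n)
    {x y : ℝ} (hx : ∫ p in A, gr u p ^ n ≤ x) (hy : ∫ p in A, Real.exp (n * u p) ≤ y) :
    ∫ p in A, Real.exp (a * u p) * gr u p ^ (n - a) ≤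
      x ^ (((n : ℝ) - a) / n) * y ^ ((a : ℝ) / n) := by
  have hn0 : (0 : ℝ) < n := by
    have : 0 < n := by omega
    exact_mod_cast this
  have hapos : (0 : ℝ) < a := by exact_mod_cast (by omega : 0 < a)
  have han' : (a : ℝ) < n := by exact_mod_cast han
  set α : ℝ := ((n : ℝ) - a) / n with hα
  set β : ℝ := (a : ℝ) / n with hβ
  have hα0 : 0 < α := div_pos (by linarith) hn0
  have hβ0 : 0 < β := div_pos hapos hn0
  have hab : α + β = 1 := by rw [hα, hβ]; field_simp; ring
  have e : Real.HolderConjugate (1 / α) (1 / β) := Real.holderConjugate_one_div hα0 hβ0 hab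
  haveI : IsFiniteMeasure (volume.restrict A) := by
    refine ⟨?_⟩
    rw [Measure.restrict_apply_univ]
    exact lt_of_le_of_lt (measure_mono hA) (volume_B_lt_top 2)
  have mem : ∀ {f : (Fin n → ℝ) → ℝ} (c : ENNReal), ContinuousOn f (Bc n 2) →
      MemLp f c (volume.restrict A) := by
    intro f c hf
    obtain ⟨C, hC⟩ := (isCompact_Bc 2).exists_bound_of_continuousOn hf
    refine MemLp.of_bound ((hf.mono (hA.trans (B_subset_Bc 2))).aestronglyMeasurable hm) C ?_
    exact (ae_restrict_iff' hm).mpr (Eventually.of_forall fun p hp => hC p (B_subset_Bc 2 (hA hp)))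
  have cf : ContinuousOn (fun p => gr u p ^ (n - a)) (Bc n 2) := hg.pow _
  have cg : ContinuousOn (fun p => Real.exp (a * u p)) (Bc n 2) :=
    Real.continuous_exp.comp_continuousOn (continuousOn_const.mul hu)
  have H := integral_mul_le_Lp_mul_Lq_of_nonneg (μ := volume.restrict A) e
    (f := fun p => gr u p ^ (n - a)) (g := fun p => Real.exp (a * u p))
    (Eventually.of_forall fun p => pow_nonneg (gr_nonneg u p) _)
    (Eventually.of_forall fun p => (Real.exp_pos _).le) (mem _ cf) (mem _ cg)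
  have e1 : ∀ p, (gr u p ^ (n - a)) ^ (1 / α) = gr u p ^ n := by
    intro p
    rw [← Real.rpow_natCast, ← Real.rpow_mul (gr_nonneg u p), ← Real.rpow_natCast]
    congr 1
    rw [Nat.cast_sub han.le, hα]
    have : (n : ℝ) - a ≠ 0 := by linarith
    field_simp
  have e2 : ∀ p, Real.exp (a * u p) ^ (1 / β) = Real.exp (n * u p) := by
    intro p
    rw [← Real.exp_mul]
    congr 1
    rw [hβ]
    field_simp
  simp only [e1, e2, one_div_one_div] at H
  have h1 : ∫ p in A, Real.exp (a * u p) * gr u p ^ (n - a) =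
      ∫ p in A, gr u p ^ (n - a) * Real.exp (a * u p) := by
    congr 1; ext p; ring
  rw [h1]
  refine H.trans ?_
  have i1 : 0 ≤ ∫ p in A, gr u p ^ n := integral_nonneg fun p => pow_nonneg (gr_nonneg u p) _
  have i2 : 0 ≤ ∫ p in A, Real.exp (n * u p) := integral_nonneg fun p => (Real.exp_pos _).le
  exact mul_le_mul (Real.rpow_le_rpow i1 hx hα0.le) (Real.rpow_le_rpow i2 hy hβ0.le)
    (Real.rpow_nonneg i2 _) (Real.rpow_nonneg (i1.trans hx) _)

end

end Pool.Agent.Helper50.CF
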