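import Pool.Agent.Helper50.CF.Cut
import Pool.Agent.Helper50.CF.Holder

/-! # CF-8: decay of the volume of `{u ≥ k_j}` by the Sobolev inequality

PROOF. Let `c` be the constant of `exists_cutoff`, `c'` of `exists_step`, `d = R - r ∈ (0, 1/2]`.
Choose `K ≥ 1` with `8 S c'² K^(-2/n) ≤ 1` and `K² ≥ 32 S c²` (times a safe factor). Let
`k_j = log (K/d) + j h`, `ρ_j = r + d/2^j`, `V_j = ∫_{B ρ_j ∩ {k_j ≤ u}} e^{nu}`, `α = (n-2)/n`.
Claim `V_j ^ α ≤ (1/2)^j`, by induction; `j = 0`: `h.vol`. Step: apply `h.sob` to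
`f = η τ(u)`, `η` the cutoff for `ρ_(j+1) < ρ_j` (`gr η ≤ c 2^(j+1)/d`),
`τ(t) = smoothTransition ((t - k_j)/h)`, `0 ≤ τ' ≤ c'/h`, `τ = 0` for `t ≤ k_j`, `τ = 1` for
`t ≥ k_(j+1)`. Left side `≥ V_(j+1)^α` (the integrand is `e^{nu}` on `B ρ_(j+1) ∩ {k_(j+1) ≤ u}`).
`Σ (∂ᵢf)² ≤ 2 η² τ'(u)² gs + 2 τ(u)² gs η`, so the right side is at most
`2 S (c'/h)² ∫_{B ρ_j ∩ {k_j ≤ u ≤ k_(j+1)}} e^{(n-2)u} gr²
  + 2 S c² 4^(j+1)/d² ∫_{B ρ_j ∩ {k_j ≤ u}} e^{(n-2)u}`.
First integral (`holder`, `a = n - 2`): `≤ (h^n/K)^(2/n) V_j^α = h² K^(-2/n) V_j^α`.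
Second: `e^{(n-2)u} ≤ e^{-2k_j} e^{nu}`, `e^{-2k_j} = (d/K)² e^{-2jh} ≤ (d/K)² 4^(-j)` (`h ≥ 1`,
`e^{-2} ≤ 1/4`), `V_j ≤ V_j^α` as `V_j ≤ 1`: `≤ 8 S c² K^(-2) V_j^α`. Total `≤ (1/2) V_j^α`.
Finally `V_j ≤ V_j^α ≤ (1/2)^j`; and `B n r ⊆ B n ρ_j`. -/

namespace Pool.Agent.Helper50.CF

open scoped ContDiff Topology
open Pool.Agent.Helper49.Ric Pool.Agent.Helper73.HB MeasureTheory Filter

noncomputable section

variable {n : ℕ} {S lam : ℝ} {Ω : Set (Fin n → ℝ)} {u : (Fin n → ℝ) → ℝ} {p : Fin n → ℝ}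

namespace Decay

theorem isOpen_lt_k (hu : ContinuousOn u (Bc n 2)) {ρ : ℝ} (h0 : 0 ≤ ρ) (h2 : ρ ≤ 2) (k : ℝ) :
    IsOpen (B n ρ ∩ {p | u p < k}) := by
  have h1 : ContinuousOn u (B n ρ) := hu.mono ((B_mono h0 h2).trans (B_subset_Bc 2))
  exact h1.isOpen_inter_preimage (isOpen_B ρ) isOpen_Iio

theorem isOpen_gt_k (hu : ContinuousOn u (Bc n 2)) {ρ : ℝ} (h0 : 0 ≤ ρ) (h2 : ρ ≤ 2) (k : ℝ) :
    IsOpen (B n ρ ∩ {p | k < u p}) := by
  have h1 : ContinuousOn u (B n ρ) := hu.mono ((B_mono h0 h2).trans (B_subset_Bc 2))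
  exact h1.isOpen_inter_preimage (isOpen_B ρ) isOpen_Ioi

theorem meas_ge (hu : ContinuousOn u (Bc n 2)) {ρ : ℝ} (h0 : 0 ≤ ρ) (h2 : ρ ≤ 2) (k : ℝ) :
    MeasurableSet (B n ρ ∩ {p | k ≤ u p}) := by
  have h1 : B n ρ ∩ {p | k ≤ u p} = B n ρ \ (B n ρ ∩ {p | u p < k}) := by
    ext p
    simp only [Set.mem_inter_iff, Set.mem_ofPred_eq, Set.mem_sdiff, not_and, not_lt]
    constructor
    · rintro ⟨a, b⟩
      exact ⟨a, fun _ => b⟩
    · rintro ⟨a, b⟩
      exact ⟨a, b a⟩
  rw [h1]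
  exact (measurableSet_B ρ).diff (isOpen_lt_k hu h0 h2 k).measurableSet

theorem meas_le (hu : ContinuousOn u (Bc n 2)) {ρ : ℝ} (h0 : 0 ≤ ρ) (h2 : ρ ≤ 2) (k : ℝ) :
    MeasurableSet (B n ρ ∩ {p | u p ≤ k}) := by
  have h1 : B n ρ ∩ {p | u p ≤ k} = B n ρ \ (B n ρ ∩ {p | k < u p}) := by
    ext p
    simp only [Set.mem_inter_iff, Set.mem_ofPred_eq, Set.mem_sdiff, not_and, not_lt]
    constructor
    · rintro ⟨a, b⟩
      exact ⟨a, fun _ => b⟩
    · rintro ⟨a, b⟩
      exact ⟨a, b a⟩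
  rw [h1]
  exact (measurableSet_B ρ).diff (isOpen_gt_k hu h0 h2 k).measurableSet

theorem meas_band (hu : ContinuousOn u (Bc n 2)) {ρ : ℝ} (h0 : 0 ≤ ρ) (h2 : ρ ≤ 2) (k l : ℝ) :
    MeasurableSet (B n ρ ∩ {p | k ≤ u p ∧ u p ≤ l}) := by
  have h1 : B n ρ ∩ {p | k ≤ u p ∧ u p ≤ l} =
      (B n ρ ∩ {p | k ≤ u p}) ∩ (B n ρ ∩ {p | u p ≤ l}) := by
    ext p
    simp only [Set.mem_inter_iff, Set.mem_ofPred_eq]
    tauto
  rw [h1]
  exact (meas_ge hu h0 h2 k).inter (meas_le hu h0 h2 l)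

/-- the step function -/
def ta (k h t : ℝ) : ℝ := Real.smoothTransition ((t - k) / h)

theorem ta_smooth (k h : ℝ) : ContDiff ℝ ∞ (ta k h) := by
  unfold ta
  exact Real.smoothTransition.contDiff.comp ((contDiff_id.sub contDiff_const).div_const h)

theorem ta_deriv (k h t : ℝ) :
    HasDerivAt (ta k h) (deriv Real.smoothTransition ((t - k) / h) * (1 / h)) t := by
  have h1 : HasDerivAt (fun t : ℝ => (t - k) / h) (1 / h) t :=
    ((hasDerivAt_id t).sub_const k).div_const h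
  have h2 : DifferentiableAt ℝ Real.smoothTransition ((t - k) / h) :=
    (Real.smoothTransition.contDiff (n := 1)).differentiable (by norm_num) _
  exact h2.hasDerivAt.comp t h1

theorem deriv_step_zero {x : ℝ} (hx : 1 < x) : deriv Real.smoothTransition x = 0 := by
  have h1 : Real.smoothTransition =ᶠ[𝓝 x] fun _ => (1 : ℝ) := by
    filter_upwards [lt_mem_nhds hx] with y hy
    exact Real.smoothTransition.one_of_one_le hy.le
  rw [h1.deriv_eq]
  simp

theorem pd_comp {τ : ℝ → ℝ} {t' : ℝ} (hτ : HasDerivAt τ t' (u p)) (hu : DifferentiableAt ℝ u p)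
    (i : Fin n) : pd i (fun q => τ (u q)) p = t' * pd i u p := by
  have H : HasFDerivAt (fun q => τ (u q)) (t' • fderiv ℝ u p) p :=
    hτ.comp_hasFDerivAt p hu.hasFDerivAt
  rw [pd_eq H.differentiableAt, pd_eq hu, H.fderiv]
  rfl

/-- The Sobolev step. -/
theorem step {c1 c2 : ℝ} (hc1 : ∀ t : ℝ, |deriv Real.smoothTransition t| ≤ c1)
    (hD : Data n S lam Ω u) {ρ' ρ k h : ℝ} (h0 : 0 < ρ') (h1 : ρ' < ρ) (h2 : ρ ≤ 2) (hh : 0 < h)
    (hcut : ∃ φ : (Fin n → ℝ) → ℝ, ContDiff ℝ ∞ φ ∧ HasCompactSupport φ ∧ tsupport φ ⊆ B n ρ ∧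
      (∀ p, 0 ≤ φ p) ∧ (∀ p, φ p ≤ 1) ∧ (∀ p ∈ Bc n ρ', φ p = 1) ∧
      ∀ p, gr φ p ≤ c2 / (ρ - ρ')) :
    (∫ p in B n ρ' ∩ {p | k + h ≤ u p}, Real.exp (n * u p)) ^ (((n : ℝ) - 2) / n) ≤
      S * (2 * (c1 / h) ^ 2 * (∫ p in B n ρ ∩ {p | k ≤ u p ∧ u p ≤ k + h},
          Real.exp (((n : ℝ) - 2) * u p) * gr u p ^ 2) +
        2 * (c2 / (ρ - ρ')) ^ 2 * ∫ p in B n ρ ∩ {p | k ≤ u p},
          Real.exp (((n : ℝ) - 2) * u p)) := by
  obtain ⟨φ, hφ, hφc, hφs, hφ0, hφ1, hφe, hφg⟩ := hcut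
  have hn : (3 : ℝ) ≤ n := by exact_mod_cast hD.hn
  have hρ0 : 0 ≤ ρ := by linarith
  have hρ'0 : 0 ≤ ρ' := h0.le
  have hB2 : B n ρ ⊆ B n 2 := B_mono hρ0 h2
  have hBΩ : B n ρ ⊆ Ω := hB2.trans hD.sub2
  have hsm : ∀ p ∈ B n ρ, ContDiffAt ℝ ∞ u p := fun p hp => hD.smooth p (hBΩ hp)
  have hsτ : ∀ p ∈ B n ρ, ContDiffAt ℝ ∞ (fun q => ta k h (u q)) p := fun p hp =>
    (ta_smooth k h).contDiffAt.comp p (hsm p hp)
  set f : (Fin n → ℝ) → ℝ := fun p => φ p * ta k h (u p) with hf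
  have hfs : ContDiff ℝ ∞ f := smooth_mul_of hφ hφs hsτ
  have hfc : HasCompactSupport f := hφc.mul_right
  have hft : tsupport f ⊆ tsupport φ := closure_mono fun p hp => by
    intro h3
    apply hp
    simp only [hf, h3, zero_mul]
  have key := hD.sob f hfs hfc (hft.trans (hφs.trans hB2))
  -- facts on ta
  have ta0 : ∀ t, 0 ≤ ta k h t := fun t => Real.smoothTransition.nonneg _
  have ta1 : ∀ t, ta k h t ≤ 1 := fun t => Real.smoothTransition.le_one _
  have taz : ∀ t, t ≤ k → ta k h t = 0 := fun t ht =>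
    Real.smoothTransition.zero_of_nonpos (div_nonpos_of_nonpos_of_nonneg (by linarith) hh.le)
  have tao : ∀ t, k + h ≤ t → ta k h t = 1 := fun t ht =>
    Real.smoothTransition.one_of_one_le (by rw [le_div_iff₀ hh]; linarith)
  -- left side
  have hL : (∫ p in B n ρ' ∩ {p | k + h ≤ u p}, Real.exp (n * u p)) ≤
      ∫ p, |f p| ^ (2 * n / (n - 2) : ℝ) * Real.exp (n * u p) := by
    have hq : (0 : ℝ) < 2 * n / (n - 2) := div_pos (by linarith) (by linarith)
    have hint : Integrable (fun p => |f p| ^ (2 * n / (n - 2) : ℝ) * Real.exp (n * u p)) := by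
      have hcq : Continuous fun p => |f p| ^ (2 * n / (n - 2) : ℝ) :=
        (hfs.continuous.abs).rpow_const fun p => Or.inr hq.le
      have hsq : tsupport (fun p => |f p| ^ (2 * n / (n - 2) : ℝ)) ⊆ tsupport f :=
        closure_mono fun p hp => by
          intro h3
          apply hp
          simp only [h3, abs_zero, Real.zero_rpow hq.ne']
      have hcc : HasCompactSupport (fun p => |f p| ^ (2 * n / (n - 2) : ℝ)) :=
        IsCompact.of_isClosed_subset hfc (isClosed_tsupport _) hsq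
      refine integrable_mul_of hcq hcc fun p hp => ?_
      have h3 : p ∈ B n ρ := hφs (hft (hsq hp))
      exact (Real.continuous_exp.continuousAt.comp
        (continuousAt_const.mul (hsm p h3).continuousAt))
    have hm : MeasurableSet (B n ρ' ∩ {p | k + h ≤ u p}) :=
      meas_ge hD.cu hρ'0 (h1.le.trans h2) _
    have e1 : ∫ p in B n ρ' ∩ {p | k + h ≤ u p}, Real.exp (n * u p) =
        ∫ p in B n ρ' ∩ {p | k + h ≤ u p},
          |f p| ^ (2 * n / (n - 2) : ℝ) * Real.exp (n * u p) := by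
      refine setIntegral_congr_fun hm fun p hp => ?_
      have h3 : f p = 1 := by
        simp only [hf]
        rw [hφe p (B_subset_Bc _ hp.1), tao _ hp.2, one_mul]
      simp only [h3, abs_one, Real.one_rpow, one_mul]
    rw [e1]
    exact setIntegral_le_integral hint (Eventually.of_forall fun p =>
      mul_nonneg (Real.rpow_nonneg (abs_nonneg _) _) (Real.exp_pos _).le)
  have hL0 : 0 ≤ ∫ p in B n ρ' ∩ {p | k + h ≤ u p}, Real.exp (n * u p) :=
    integral_nonneg fun p => (Real.exp_pos _).le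
  refine (Real.rpow_le_rpow hL0 hL (div_nonneg (by linarith) (by linarith))).trans
    (key.trans ?_)
  refine mul_le_mul_of_nonneg_left ?_ (by linarith [hD.hS])
  -- the derivatives of f off A vanish
  have hoff : ∀ p, p ∉ B n ρ ∩ {p | k ≤ u p} → ∀ i, pd i f p = 0 := by
    intro p hp i
    by_cases hpB : p ∈ B n ρ
    · have h3 : u p < k := by
        by_contra h4
        exact hp ⟨hpB, not_lt.mp h4⟩
      have h5 : f =ᶠ[𝓝 p] fun _ => (0 : ℝ) := by
        filter_upwards [(isOpen_lt_k hD.cu hρ0 h2 k).mem_nhds ⟨hpB, h3⟩] with q hq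
        simp only [hf]
        rw [taz _ (le_of_lt hq.2), mul_zero]
      rw [pd_congr h5, pd_const]
    · exact pd_zero_off (fun h3 => hpB (hφs (hft h3))) i
  have hmA : MeasurableSet (B n ρ ∩ {p | k ≤ u p}) := meas_ge hD.cu hρ0 h2 _
  have hmA' : MeasurableSet (B n ρ ∩ {p | k ≤ u p ∧ u p ≤ k + h}) := meas_band hD.cu hρ0 h2 _ _
  have e2 : ∫ p, (∑ i, pd i f p ^ 2) * Real.exp ((n - 2) * u p) =
      ∫ p in B n ρ ∩ {p | k ≤ u p}, (∑ i, pd i f p ^ 2) * Real.exp ((n - 2) * u p) := by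
    refine (setIntegral_eq_integral_of_forall_compl_eq_zero fun p hp => ?_).symm
    have h3 : ∑ i, pd i f p ^ 2 = 0 :=
      Finset.sum_eq_zero fun i _ => by rw [hoff p hp i]; ring
    rw [h3, zero_mul]
  rw [e2]
  -- pointwise bound
  set A : Set (Fin n → ℝ) := B n ρ ∩ {p | k ≤ u p} with hA
  set A' : Set (Fin n → ℝ) := B n ρ ∩ {p | k ≤ u p ∧ u p ≤ k + h} with hA'
  have hA'A : A' ⊆ A := fun p hp => ⟨hp.1, hp.2.1⟩
  have hAB : A ⊆ B n 2 := fun p hp => hB2 hp.1
  have cexp : ContinuousOn (fun p => Real.exp (((n : ℝ) - 2) * u p)) (Bc n 2) :=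
    Real.continuous_exp.comp_continuousOn (continuousOn_const.mul hD.cu)
  have c1' : ContinuousOn (fun p => Real.exp (((n : ℝ) - 2) * u p) * gr u p ^ 2) (Bc n 2) :=
    cexp.mul (hD.cgr.pow 2)
  have hpt : ∀ p ∈ A, (∑ i, pd i f p ^ 2) * Real.exp ((n - 2) * u p) ≤
      2 * (c1 / h) ^ 2 * (A'.indicator (fun p => Real.exp (((n : ℝ) - 2) * u p) * gr u p ^ 2) p) +
        2 * (c2 / (ρ - ρ')) ^ 2 * Real.exp (((n : ℝ) - 2) * u p) := by
    intro p hp
    have hE : 0 < Real.exp (((n : ℝ) - 2) * u p) := Real.exp_pos _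
    set t' : ℝ := deriv Real.smoothTransition ((u p - k) / h) * (1 / h) with ht'
    have hdu : DifferentiableAt ℝ u p := diff_of_smooth (hsm p hp.1)
    have e3 : ∀ i, pd i f p = pd i φ p * ta k h (u p) + φ p * (t' * pd i u p) := by
      intro i
      have h4 := pd_comp (ta_deriv k h (u p)) hdu i
      have h5 := pd_mul (f := φ) (h := fun q => ta k h (u q)) (p := p)
        (diff_of_smooth hφ.contDiffAt) (diff_of_smooth (hsτ p hp.1)) i
      rw [h4] at h5
      exact h5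
    have e4 : ∀ i, pd i f p ^ 2 ≤ 2 * pd i φ p ^ 2 + 2 * (t' ^ 2 * pd i u p ^ 2) := by
      intro i
      rw [e3 i]
      have a0 := ta0 (u p)
      have a1 := ta1 (u p)
      have b0 := hφ0 p
      have b1 := hφ1 p
      have s1 : (pd i φ p * ta k h (u p)) ^ 2 ≤ pd i φ p ^ 2 := by
        rw [mul_pow]
        have : ta k h (u p) ^ 2 ≤ 1 := by nlinarith
        nlinarith [sq_nonneg (pd i φ p)]
      have s2 : (φ p * (t' * pd i u p)) ^ 2 ≤ t' ^ 2 * pd i u p ^ 2 := by
        rw [mul_pow, mul_pow]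
        have : φ p ^ 2 ≤ 1 := by nlinarith
        nlinarith [mul_nonneg (sq_nonneg t') (sq_nonneg (pd i u p))]
      nlinarith [sq_nonneg (pd i φ p * ta k h (u p) - φ p * (t' * pd i u p))]
    have e5 : ∑ i, pd i f p ^ 2 ≤ 2 * gr φ p ^ 2 + 2 * (t' ^ 2 * gr u p ^ 2) := by
      rw [gr_sq, gr_sq]
      unfold gs
      rw [Finset.mul_sum, Finset.mul_sum, Finset.mul_sum, ← Finset.sum_add_distrib]
      exact Finset.sum_le_sum fun i _ => e4 i
    have e6 : gr φ p ^ 2 ≤ (c2 / (ρ - ρ')) ^ 2 :=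
      pow_le_pow_left₀ (gr_nonneg _ _) (hφg p) 2
    have e7 : t' ^ 2 * gr u p ^ 2 * Real.exp (((n : ℝ) - 2) * u p) ≤
        (c1 / h) ^ 2 *
          (A'.indicator (fun p => Real.exp (((n : ℝ) - 2) * u p) * gr u p ^ 2) p) := by
      by_cases hp' : p ∈ A'
      · rw [Set.indicator_of_mem hp']
        have s3 : t' ^ 2 ≤ (c1 / h) ^ 2 := by
          rw [ht', mul_one_div, div_pow, div_pow]
          refine div_le_div_of_nonneg_right ?_ (sq_nonneg h)
          have s4 := hc1 ((u p - k) / h)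
          calc _ = |deriv Real.smoothTransition ((u p - k) / h)| ^ 2 := (sq_abs _).symm
            _ ≤ c1 ^ 2 := pow_le_pow_left₀ (abs_nonneg _) s4 2
        have s5 : 0 ≤ Real.exp (((n : ℝ) - 2) * u p) * gr u p ^ 2 :=
          mul_nonneg hE.le (sq_nonneg _)
        nlinarith [mul_le_mul_of_nonneg_right s3 s5]
      · rw [Set.indicator_of_notMem hp', mul_zero]
        have s6 : k + h < u p := by
          by_contra s7
          exact hp' ⟨hp.1, hp.2, not_lt.mp s7⟩
        have s8 : t' = 0 := by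
          rw [ht', deriv_step_zero, zero_mul]
          rw [lt_div_iff₀ hh]
          linarith
        rw [s8]
        simp
    calc (∑ i, pd i f p ^ 2) * Real.exp ((n - 2) * u p)
        ≤ (2 * gr φ p ^ 2 + 2 * (t' ^ 2 * gr u p ^ 2)) * Real.exp (((n : ℝ) - 2) * u p) :=
          mul_le_mul_of_nonneg_right e5 hE.le
      _ = 2 * gr φ p ^ 2 * Real.exp (((n : ℝ) - 2) * u p) +
          2 * (t' ^ 2 * gr u p ^ 2 * Real.exp (((n : ℝ) - 2) * u p)) := by ring
      _ ≤ 2 * (c2 / (ρ - ρ')) ^ 2 * Real.exp (((n : ℝ) - 2) * u p) +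
          2 * ((c1 / h) ^ 2 *
          (A'.indicator (fun p => Real.exp (((n : ℝ) - 2) * u p) * gr u p ^ 2) p)) := by
          refine add_le_add ?_ ?_
          · refine mul_le_mul_of_nonneg_right ?_ hE.le
            linarith
          · linarith
      _ = _ := by ring
  have i1 : IntegrableOn (fun p => (∑ i, pd i f p ^ 2) * Real.exp ((n - 2) * u p)) A := by
    refine integrableOn_of ?_ hAB
    refine ContinuousOn.mul ?_ cexp
    refine Continuous.continuousOn ?_
    refine continuous_finsetSum _ fun i _ => ?_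
    refine Continuous.pow ?_ 2
    rw [continuous_iff_continuousAt]
    intro p
    exact (smooth_pd hfs.contDiffAt i).continuousAt
  have i2 : IntegrableOn (fun p => Real.exp (((n : ℝ) - 2) * u p) * gr u p ^ 2) A :=
    integrableOn_of c1' hAB
  have i3 : IntegrableOn (fun p => Real.exp (((n : ℝ) - 2) * u p)) A := integrableOn_of cexp hAB
  have i4 : IntegrableOn
      (A'.indicator (fun p => Real.exp (((n : ℝ) - 2) * u p) * gr u p ^ 2)) A :=
    Integrable.indicator i2 hmA'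
  have i5 : IntegrableOn (fun p => 2 * (c1 / h) ^ 2 *
          (A'.indicator (fun p => Real.exp (((n : ℝ) - 2) * u p) * gr u p ^ 2) p) +
        2 * (c2 / (ρ - ρ')) ^ 2 * Real.exp (((n : ℝ) - 2) * u p)) A := by
    have i6 := (Integrable.const_mul i4 (2 * (c1 / h) ^ 2)).add
      (Integrable.const_mul i3 (2 * (c2 / (ρ - ρ')) ^ 2))
    exact i6
  calc ∫ p in A, (∑ i, pd i f p ^ 2) * Real.exp ((n - 2) * u p)
      ≤ ∫ p in A, (2 * (c1 / h) ^ 2 *
          (A'.indicator (fun p => Real.exp (((n : ℝ) - 2) * u p) * gr u p ^ 2) p) +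
        2 * (c2 / (ρ - ρ')) ^ 2 * Real.exp (((n : ℝ) - 2) * u p)) :=
        setIntegral_mono_on i1 i5 hmA hpt
    _ = 2 * (c1 / h) ^ 2 * (∫ p in A,
          (A'.indicator (fun p => Real.exp (((n : ℝ) - 2) * u p) * gr u p ^ 2) p)) +
        2 * (c2 / (ρ - ρ')) ^ 2 * ∫ p in A, Real.exp (((n : ℝ) - 2) * u p) := by
        rw [integral_add (i4.const_mul _) (i3.const_mul _), integral_const_mul,
          integral_const_mul]
    _ = _ := by
        rw [setIntegral_indicator hmA', Set.inter_eq_self_of_subset_right hA'A]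

end Decay

theorem exists_decay (n : ℕ) (S : ℝ) : ∃ K : ℝ, 1 ≤ K ∧
    ∀ {lam : ℝ} {Ω : Set (Fin n → ℝ)} {u : (Fin n → ℝ) → ℝ}, Data n S lam Ω u →
      ∀ r R : ℝ, 1 ≤ r → r < R → R ≤ 3 / 2 → ∀ h : ℝ, 1 ≤ h →
        (∀ k : ℝ, ∫ p in B n R ∩ {p | k ≤ u p ∧ u p ≤ k + h}, gr u p ^ n ≤ h ^ n / K) →
        ∀ j : ℕ, ∫ p in B n r ∩ {p | Real.log (K / (R - r)) + j * h ≤ u p},
          Real.exp (n * u p) ≤ (1 / 2) ^ j := by
  obtain ⟨c1, hc1', hc1⟩ := exists_step
  obtain ⟨c2, hc2', hc2⟩ := exists_cutoff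
  set T : ℝ := 8 * (|S| + 1) * c1 ^ 2 with hT
  have hS0 : 0 ≤ |S| := abs_nonneg S
  have hc1s : 1 ≤ c1 ^ 2 := one_le_pow₀ hc1'
  have hc2s : 1 ≤ c2 ^ 2 := one_le_pow₀ hc2'
  have hT1 : 1 ≤ T := by
    rw [hT]
    nlinarith
  have hTn : 1 ≤ T ^ n := one_le_pow₀ hT1
  set K : ℝ := T ^ n + 32 * (|S| + 1) * c2 ^ 2 with hK
  have hK2 : 32 * (|S| + 1) * c2 ^ 2 ≤ K := by rw [hK]; linarith
  have hK1 : 1 ≤ K := by
    rw [hK]
    nlinarith
  have hKT : T ^ n ≤ K := by
    rw [hK]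
    nlinarith
  refine ⟨K, hK1, ?_⟩
  intro lam Ω u hD r R hr hrR hR h hh hyp
  have hK0 : 0 < K := by linarith
  have hS : S ≤ |S| + 1 := by linarith [le_abs_self S]
  have hS1 : 1 ≤ S := hD.hS
  have hn : (3 : ℝ) ≤ n := by exact_mod_cast hD.hn
  have hn0 : (0 : ℝ) < n := by linarith
  set d : ℝ := R - r with hd
  have hd0 : 0 < d := by rw [hd]; linarith
  set α : ℝ := ((n : ℝ) - 2) / n with hα
  have hα0 : 0 ≤ α := div_nonneg (by linarith) hn0.le
  have hα1 : α ≤ 1 := by rw [hα, div_le_one hn0]; linarith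
  set k : ℕ → ℝ := fun j => Real.log (K / d) + j * h with hk
  set ρ : ℕ → ℝ := fun j => r + d / 2 ^ j with hρ
  have hρr : ∀ j, r < ρ j := fun j => by
    simp only [hρ]
    have : 0 < d / 2 ^ j := div_pos hd0 (by positivity)
    linarith
  have hρR : ∀ j, ρ j ≤ R := fun j => by
    simp only [hρ]
    have : d / 2 ^ j ≤ d := div_le_self hd0.le (one_le_pow₀ (by norm_num))
    linarith
  have hρ2 : ∀ j, ρ j ≤ 2 := fun j => (hρR j).trans (by linarith)
  have hρs : ∀ j, ρ j - ρ (j + 1) = d / 2 ^ (j + 1) := fun j => by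
    simp only [hρ]
    rw [pow_succ]
    field_simp
    ring
  have hρlt : ∀ j, ρ (j + 1) < ρ j := fun j => by
    have h1 := hρs j
    have : 0 < d / 2 ^ (j + 1) := div_pos hd0 (by positivity)
    linarith
  have cexpn : ContinuousOn (fun p => Real.exp (n * u p)) (Bc n 2) :=
    Real.continuous_exp.comp_continuousOn (continuousOn_const.mul hD.cu)
  set V : ℕ → ℝ := fun j => ∫ p in B n (ρ j) ∩ {p | k j ≤ u p}, Real.exp (n * u p) with hV
  have hV0 : ∀ j, 0 ≤ V j := fun j => integral_nonneg fun p => (Real.exp_pos _).le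
  have hB2 : ∀ j, B n (ρ j) ⊆ B n 2 := fun j => B_mono (by linarith [hρr j]) (hρ2 j)
  have hV1 : ∀ j, V j ≤ 1 := fun j => by
    refine le_trans ?_ hD.vol
    exact integral_mono_set cexpn subset_rfl (Set.inter_subset_left.trans (hB2 j))
      (measurableSet_B 2) fun p _ => (Real.exp_pos _).le
  have hVα : ∀ j, V j ≤ V j ^ α := fun j => by
    have h1 := Real.rpow_le_rpow_of_exponent_ge' (hV0 j) (hV1 j) hα0 hα1
    rwa [Real.rpow_one] at h1
  have claim : ∀ j, V j ^ α ≤ (1 / 2) ^ j := by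
    intro j
    induction j with
    | zero =>
      rw [pow_zero]
      exact Real.rpow_le_one (hV0 0) (hV1 0) hα0
    | succ j ih =>
      have hcut := hc2 n (ρ (j + 1)) (ρ j) (by linarith [hρr (j + 1)]) (hρlt j)
      have st := Decay.step (k := k j) hc1 hD (by linarith [hρr (j + 1)]) (hρlt j) (hρ2 j)
        (by linarith : 0 < h) hcut
      have hkj : k j + h = k (j + 1) := by
        simp only [hk]
        push_cast
        ring
      have hLHS : (∫ p in B n (ρ (j + 1)) ∩ {p | k j + h ≤ u p}, Real.exp (n * u p)) =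
          V (j + 1) := by
        simp only [hV, hkj]
      rw [hLHS] at st
      -- first integral
      set A' : Set (Fin n → ℝ) := B n (ρ j) ∩ {p | k j ≤ u p ∧ u p ≤ k j + h} with hA'
      have hA'2 : A' ⊆ B n 2 := Set.inter_subset_left.trans (hB2 j)
      have hρj0 : 0 ≤ ρ j := by linarith [hρr j]
      have hmA' : MeasurableSet A' := Decay.meas_band hD.cu hρj0 (hρ2 j) _ _
      have hmA : MeasurableSet (B n (ρ j) ∩ {p | k j ≤ u p}) :=
        Decay.meas_ge hD.cu hρj0 (hρ2 j) _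
      have hx : ∫ p in A', gr u p ^ n ≤ h ^ n / K := by
        refine le_trans ?_ (hyp (k j))
        refine integral_mono_set (hD.cgr.pow n) ?_ ?_ (Decay.meas_band hD.cu (by linarith)
          (by linarith) _ _) fun p _ => pow_nonneg (gr_nonneg u p) n
        · exact Set.inter_subset_left.trans (B_mono (by linarith) (by linarith))
        · exact Set.inter_subset_inter_left _ (B_mono hρj0 (hρR j))
      have hy : ∫ p in A', Real.exp (n * u p) ≤ V j := by
        refine integral_mono_set cexpn (Set.inter_subset_left.trans (hB2 j)) ?_ hmA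
          fun p _ => (Real.exp_pos _).le
        exact fun p hp => ⟨hp.1, hp.2.1⟩
      have ho := holder hD.cu hD.cgr hA'2 hmA' (a := n - 2) (by have := hD.hn; omega)
        (by have := hD.hn; omega) hx hy
      have hcast : ((n - 2 : ℕ) : ℝ) = (n : ℝ) - 2 := by
        have := hD.hn
        rw [Nat.cast_sub (by omega)]
        norm_num
      have hnn : n - (n - 2) = 2 := by have := hD.hn; omega
      rw [hcast, hnn] at ho
      have hexp : ((n : ℝ) - ((n : ℝ) - 2)) / n = 2 / n := by congr 1; ring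
      rw [hexp] at ho
      have hxK : (h ^ n / K) ^ ((2 : ℝ) / n) ≤ h ^ 2 / T := by
        have h1 : h ^ n / K ≤ (h / T) ^ n := by
          rw [div_pow]
          exact div_le_div_of_nonneg_left (by positivity) (by positivity) hKT
        have h2 : (h ^ n / K) ^ ((2 : ℝ) / n) ≤ ((h / T) ^ n) ^ ((2 : ℝ) / n) :=
          Real.rpow_le_rpow (by positivity) h1 (by positivity)
        have h3 : ((h / T) ^ n) ^ ((2 : ℝ) / n) = (h / T) ^ 2 := by
          rw [← Real.rpow_natCast, ← Real.rpow_mul (by positivity)]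
          have : (n : ℝ) * (2 / n) = (2 : ℕ) := by
            push_cast
            field_simp
          rw [this, Real.rpow_natCast]
        rw [h3] at h2
        refine h2.trans ?_
        rw [div_pow]
        refine div_le_div_of_nonneg_left (by positivity) (by linarith) ?_
        nlinarith
      have hVj : 0 ≤ V j ^ α := Real.rpow_nonneg (hV0 j) _
      have hI1 : (∫ p in A', Real.exp (((n : ℝ) - 2) * u p) * gr u p ^ 2) ≤
          h ^ 2 / T * V j ^ α :=
        ho.trans (mul_le_mul_of_nonneg_right hxK hVj)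
      -- second integral
      have hI2 : (∫ p in B n (ρ j) ∩ {p | k j ≤ u p}, Real.exp (((n : ℝ) - 2) * u p)) ≤
          (d / K) ^ 2 * (1 / 4) ^ j * V j ^ α := by
        have h1 : (∫ p in B n (ρ j) ∩ {p | k j ≤ u p}, Real.exp (((n : ℝ) - 2) * u p)) ≤
            ∫ p in B n (ρ j) ∩ {p | k j ≤ u p},
              Real.exp (-(2 * k j)) * Real.exp (n * u p) := by
          refine setIntegral_mono_on ?_ ?_ hmA ?_
          · exact integrableOn_of (Real.continuous_exp.comp_continuousOn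
              (continuousOn_const.mul hD.cu)) (Set.inter_subset_left.trans (hB2 j))
          · exact (integrableOn_of cexpn (Set.inter_subset_left.trans (hB2 j))).const_mul _
          · intro p hp
            rw [← Real.exp_add]
            apply Real.exp_le_exp.mpr
            have : k j ≤ u p := hp.2
            linarith
        rw [integral_const_mul] at h1
        have h2 : Real.exp (-(2 * k j)) ≤ (d / K) ^ 2 * (1 / 4) ^ j := by
          have h3 : -(2 * k j) = -(Real.log (K / d)) + -(Real.log (K / d)) + -(2 * (j * h)) := by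
            simp only [hk]
            ring
          rw [h3, Real.exp_add, Real.exp_add, Real.exp_neg (Real.log (K / d)),
            Real.exp_log (div_pos hK0 hd0), inv_div, ← sq]
          refine mul_le_mul_of_nonneg_left ?_ (sq_nonneg _)
          have h4 : Real.exp (-(2 * (j * h))) ≤ Real.exp (-(2 : ℝ)) ^ j := by
            rw [← Real.exp_nat_mul]
            apply Real.exp_le_exp.mpr
            have : (0 : ℝ) ≤ j := Nat.cast_nonneg j
            nlinarith
          refine h4.trans (pow_le_pow_left₀ (Real.exp_pos _).le ?_ j)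
          have h5 : Real.exp (-(2 : ℝ)) = (Real.exp 1)⁻¹ ^ 2 := by
            rw [← Real.exp_neg, ← Real.exp_nat_mul]
            norm_num
          rw [h5]
          have h6 : (2 : ℝ) ≤ Real.exp 1 := by
            have := Real.add_one_le_exp (1 : ℝ)
            linarith
          have h7 : (Real.exp 1)⁻¹ ≤ 1 / 2 := by
            rw [← one_div]
            exact one_div_le_one_div_of_le (by norm_num) h6
          calc (Real.exp 1)⁻¹ ^ 2 ≤ (1 / 2 : ℝ) ^ 2 :=
                pow_le_pow_left₀ (inv_nonneg.mpr (Real.exp_pos _).le) h7 2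
            _ = 1 / 4 := by norm_num
        calc _ ≤ _ := h1
          _ ≤ (d / K) ^ 2 * (1 / 4) ^ j * V j := mul_le_mul_of_nonneg_right h2 (hV0 j)
          _ ≤ _ := mul_le_mul_of_nonneg_left (hVα j) (by positivity)
      have hfin : S * (2 * (c1 / h) ^ 2 * (∫ p in A',
            Real.exp (((n : ℝ) - 2) * u p) * gr u p ^ 2) +
          2 * (c2 / (ρ j - ρ (j + 1))) ^ 2 * ∫ p in B n (ρ j) ∩ {p | k j ≤ u p},
            Real.exp (((n : ℝ) - 2) * u p)) ≤ 1 / 2 * V j ^ α := by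
        have hh0 : 0 < h := by linarith
        have t1 : 2 * (c1 / h) ^ 2 * (∫ p in A',
            Real.exp (((n : ℝ) - 2) * u p) * gr u p ^ 2) ≤ 2 * c1 ^ 2 / T * V j ^ α := by
          calc _ ≤ 2 * (c1 / h) ^ 2 * (h ^ 2 / T * V j ^ α) :=
                mul_le_mul_of_nonneg_left hI1 (by positivity)
            _ = 2 * c1 ^ 2 / T * V j ^ α := by
                have : T ≠ 0 := by positivity
                field_simp
        have t2 : 2 * (c2 / (ρ j - ρ (j + 1))) ^ 2 * (∫ p in B n (ρ j) ∩ {p | k j ≤ u p},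
            Real.exp (((n : ℝ) - 2) * u p)) ≤ 8 * c2 ^ 2 / K ^ 2 * V j ^ α := by
          rw [hρs j]
          calc _ ≤ 2 * (c2 / (d / 2 ^ (j + 1))) ^ 2 * ((d / K) ^ 2 * (1 / 4) ^ j * V j ^ α) :=
                mul_le_mul_of_nonneg_left hI2 (by positivity)
            _ = 8 * c2 ^ 2 / K ^ 2 * V j ^ α := by
                have h4 : (4 : ℝ) ^ j = 2 ^ j * 2 ^ j := by
                  rw [← mul_pow]
                  norm_num
                rw [one_div, inv_pow, h4, pow_succ]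
                field_simp
                ring
        have t3 : S * (2 * c1 ^ 2 / T) ≤ 1 / 4 := by
          rw [hT, mul_div_assoc', div_le_iff₀ (by positivity)]
          nlinarith
        have t4 : S * (8 * c2 ^ 2 / K ^ 2) ≤ 1 / 4 := by
          rw [mul_div_assoc', div_le_iff₀ (by positivity)]
          have : K ≤ K ^ 2 := by nlinarith
          nlinarith
        calc _ ≤ S * (2 * c1 ^ 2 / T * V j ^ α + 8 * c2 ^ 2 / K ^ 2 * V j ^ α) :=
              mul_le_mul_of_nonneg_left (add_le_add t1 t2) (by linarith)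
          _ = (S * (2 * c1 ^ 2 / T)) * V j ^ α + (S * (8 * c2 ^ 2 / K ^ 2)) * V j ^ α := by ring
          _ ≤ 1 / 4 * V j ^ α + 1 / 4 * V j ^ α :=
              add_le_add (mul_le_mul_of_nonneg_right t3 hVj) (mul_le_mul_of_nonneg_right t4 hVj)
          _ = 1 / 2 * V j ^ α := by ring
      calc V (j + 1) ^ α ≤ _ := st
        _ ≤ 1 / 2 * V j ^ α := hfin
        _ ≤ 1 / 2 * (1 / 2) ^ j := mul_le_mul_of_nonneg_left ih (by norm_num)
        _ = (1 / 2) ^ (j + 1) := by rw [pow_succ]; ring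
  intro j
  calc ∫ p in B n r ∩ {p | Real.log (K / d) + j * h ≤ u p}, Real.exp (n * u p)
      ≤ V j := by
        refine integral_mono_set cexpn (Set.inter_subset_left.trans (hB2 j)) ?_
          (Decay.meas_ge hD.cu (by linarith [hρr j]) (hρ2 j) _) fun p _ => (Real.exp_pos _).le
        exact Set.inter_subset_inter_left _ (B_mono (by linarith) (hρr j).le)
    _ ≤ V j ^ α := hVα j
    _ ≤ (1 / 2) ^ j := claim j

end

end Pool.Agent.Helper50.CF
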