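import Pool.Agent.Helper50.CF.Div

/-! # CF-3: the weak form of `-Δ_p u ≥ ((n-p)/2)|∇u|^p - lam e^{2u}|∇u|^{p-2}`, `p = s + 2`

PROOF. For `ε > 0` let `w = sqrt (gs u + ε)`, `Xᵢ = w^s ∂ᵢu`, smooth on `Ω` (`smooth_x`). `ibp` (HB,
with `U = Ω`, `ψ` Lipschitz by `lip_of`) for every `i` and summation: `∫ ψ div X = -∫ Σ ∂ᵢψ Xᵢ`.
By `div_x`, `div_le`, `h.P1`, `h.P2` (on `tsupport ψ ⊆ B n 2`; off it `ψ = 0`):
`ψ div X ≤ ψ w^s (-((n-2-s)/2) gs + lam e^{2u})`. Hence
`((n-2-s)/2) ∫ ψ w^s gs ≤ ∫ w^s Σ ∂ᵢψ ∂ᵢu + lam ∫ ψ w^s e^{2u}`.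
Let `ε = 1/(k+1) → 0` in the three integrals (dominated convergence,
`tendsto_integral_of_dominated_convergence`, `w ≤ sqrt (gs + 1)`), `le_of_tendsto_of_tendsto'`.
`w^s gs → gr^s gr² = gr^(s+2)`. -/

namespace Pool.Agent.Helper50.CF

open scoped ContDiff Topology
open Pool.Agent.Helper49.Ric Pool.Agent.Helper73.HB MeasureTheory Filter

noncomputable section

variable {n : ℕ} {S lam : ℝ} {Ω : Set (Fin n → ℝ)} {u : (Fin n → ℝ) → ℝ} {p : Fin n → ℝ}

private theorem cont_w (hu : ContDiffAt ℝ ∞ u p) (ε : ℝ) (s : ℕ) :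
    ContinuousAt (fun q => Real.sqrt (gs u q + ε) ^ s) p :=
  (((continuousAt_gs hu).add continuousAt_const).sqrt).pow s

/-- the limit `ε → 0` in one of the three integrals -/
private theorem tendsto_test {U : Set (Fin n → ℝ)} (hu : ∀ p ∈ U, ContDiffAt ℝ ∞ u p)
    {φ F : (Fin n → ℝ) → ℝ} (hφ : Continuous φ) (hc : HasCompactSupport φ)
    (ht : tsupport φ ⊆ U) (hF : ∀ p ∈ U, ContinuousAt F p) (s : ℕ) :
    Tendsto (fun k : ℕ => ∫ p, φ p * (Real.sqrt (gs u p + 1 / ((k : ℝ) + 1)) ^ s * F p)) atTop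
      (𝓝 (∫ p, φ p * (gr u p ^ s * F p))) := by
  have hint : ∀ ε : ℝ, Integrable (fun p => φ p * (Real.sqrt (gs u p + ε) ^ s * F p)) := fun ε =>
    integrable_mul_of hφ hc fun p hp => (cont_w (hu p (ht hp)) ε s).mul (hF p (ht hp))
  refine tendsto_integral_of_dominated_convergence
    (fun p => ‖φ p * (Real.sqrt (gs u p + 1) ^ s * F p)‖)
    (fun k => (hint _).aestronglyMeasurable) (hint 1).norm ?_ ?_
  · intro k
    refine Eventually.of_forall fun p => ?_
    rw [norm_mul, norm_mul, norm_mul, norm_mul]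
    refine mul_le_mul_of_nonneg_left ?_ (norm_nonneg _)
    refine mul_le_mul_of_nonneg_right ?_ (norm_nonneg _)
    rw [Real.norm_of_nonneg (pow_nonneg (Real.sqrt_nonneg _) s),
      Real.norm_of_nonneg (pow_nonneg (Real.sqrt_nonneg _) s)]
    refine pow_le_pow_left₀ (Real.sqrt_nonneg _) (Real.sqrt_le_sqrt ?_) s
    have h1 : 1 / ((k : ℝ) + 1) ≤ 1 := by
      rw [div_le_one (by positivity)]
      linarith [(Nat.cast_nonneg k : (0 : ℝ) ≤ k)]
    linarith
  · refine Eventually.of_forall fun p => ?_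
    have h1 : Tendsto (fun k : ℕ => gs u p + 1 / ((k : ℝ) + 1)) atTop (𝓝 (gs u p)) := by
      simpa using (tendsto_const_nhds (x := gs u p)).add
        (tendsto_one_div_add_atTop_nhds_zero_nat (𝕜 := ℝ))
    have h2 : Tendsto (fun k : ℕ => Real.sqrt (gs u p + 1 / ((k : ℝ) + 1))) atTop
        (𝓝 (gr u p)) := (Real.continuous_sqrt.tendsto _).comp h1
    exact ((h2.pow s).mul_const (F p)).const_mul (φ p)

private theorem cont_pd {ψ : (Fin n → ℝ) → ℝ} (hψ : ContDiff ℝ ∞ ψ) (i : Fin n) :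
    Continuous (pd i ψ) :=
  continuous_iff_continuousAt.mpr fun _ => (smooth_pd hψ.contDiffAt i).continuousAt

private theorem tsupport_pd (ψ : (Fin n → ℝ) → ℝ) (i : Fin n) :
    tsupport (pd i ψ) ⊆ tsupport ψ := by
  refine closure_minimal ?_ (isClosed_tsupport ψ)
  intro p hp
  by_contra h1
  exact hp (pd_zero_off h1 i)

/-- the inequality before the limit -/
private theorem test_eps (h : Data n S lam Ω u) {s : ℕ} (hs : s + 2 ≤ n)
    {ψ : (Fin n → ℝ) → ℝ} (hψ : ContDiff ℝ ∞ ψ) (hc : HasCompactSupport ψ)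
    (ht : tsupport ψ ⊆ B n 2) (h0 : ∀ p, 0 ≤ ψ p) {ε : ℝ} (hε : 0 < ε) :
    (((n : ℝ) - 2 - s) / 2) * ∫ p, ψ p * (Real.sqrt (gs u p + ε) ^ s * gs u p) ≤
      (∑ i, ∫ p, pd i ψ p * (Real.sqrt (gs u p + ε) ^ s * pd i u p))
        + lam * ∫ p, ψ p * (Real.sqrt (gs u p + ε) ^ s * Real.exp (2 * u p)) := by
  obtain ⟨D, hD⟩ := lip_of hψ hc
  have hsub : tsupport ψ ⊆ Ω := ht.trans h.sub2
  have hX : ∀ p ∈ Ω, ∀ i, ContDiffAt ℝ ∞ (fun q => Real.sqrt (gs u q + ε) ^ s * pd i u q) p :=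
    fun p hp i => smooth_x (h.smooth p hp) hε s i
  have h1 : ∀ i, ∫ p, ψ p * pd i (fun q => Real.sqrt (gs u q + ε) ^ s * pd i u q) p =
      - ∫ p, pd i ψ p * (Real.sqrt (gs u p + ε) ^ s * pd i u p) := fun i =>
    ibp h.opn hD hc hsub (fun p hp => (hX p hp i).of_le (by exact_mod_cast le_top)) i
  have i1 : ∀ i, Integrable
      (fun p => ψ p * pd i (fun q => Real.sqrt (gs u q + ε) ^ s * pd i u q) p) := fun i =>
    integrable_mul hD hc hsub fun p hp => (smooth_pd (hX p hp i) i).continuousAt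
  have i2 : Integrable (fun p => ψ p * (Real.sqrt (gs u p + ε) ^ s * gs u p)) :=
    integrable_mul_of hψ.continuous hc fun p hp =>
      (cont_w (h.smooth p (hsub hp)) ε s).mul (continuousAt_gs (h.smooth p (hsub hp)))
  have i3 : Integrable (fun p => ψ p * (Real.sqrt (gs u p + ε) ^ s * Real.exp (2 * u p))) :=
    integrable_mul_of hψ.continuous hc fun p hp =>
      (cont_w (h.smooth p (hsub hp)) ε s).mul
        (Real.continuous_exp.continuousAt.comp
          (continuousAt_const.mul (h.smooth p (hsub hp)).continuousAt))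
  have h2 : ∫ p, ∑ i, ψ p * pd i (fun q => Real.sqrt (gs u q + ε) ^ s * pd i u q) p =
      - ∑ i, ∫ p, pd i ψ p * (Real.sqrt (gs u p + ε) ^ s * pd i u p) := by
    rw [integral_finsetSum _ fun i _ => i1 i, ← Finset.sum_neg_distrib]
    exact Finset.sum_congr rfl fun i _ => h1 i
  have h3 : ∫ p, ∑ i, ψ p * pd i (fun q => Real.sqrt (gs u q + ε) ^ s * pd i u q) p ≤
      ∫ p, (-(((n : ℝ) - 2 - s) / 2) * (ψ p * (Real.sqrt (gs u p + ε) ^ s * gs u p))
        + lam * (ψ p * (Real.sqrt (gs u p + ε) ^ s * Real.exp (2 * u p)))) := by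
    refine integral_mono (integrable_finsetSum _ fun i _ => i1 i)
      ((i2.const_mul _).add (i3.const_mul _)) ?_
    intro p
    dsimp only
    rw [← Finset.mul_sum]
    by_cases hp : p ∈ tsupport ψ
    · have hB : p ∈ B n 2 := ht hp
      rw [div_x (h.smooth p (hsub hp)) hε s]
      have e1 := div_le h.hn hs hε (gs_nonneg u p)
        (mul_nonneg h.lam0 (Real.exp_nonneg (2 * u p))) (h.P1 p hB) (h.P2 p hB)
      have e2 : 0 ≤ ψ p * Real.sqrt (gs u p + ε) ^ s :=
        mul_nonneg (h0 p) (pow_nonneg (Real.sqrt_nonneg _) s)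
      have e3 := mul_le_mul_of_nonneg_left e1 e2
      calc ψ p * (Real.sqrt (gs u p + ε) ^ s * (lp u p + s * hq u p / (gs u p + ε)))
          = ψ p * Real.sqrt (gs u p + ε) ^ s * (lp u p + s * hq u p / (gs u p + ε)) := by ring
        _ ≤ ψ p * Real.sqrt (gs u p + ε) ^ s *
            (-(((n : ℝ) - 2 - s) / 2) * gs u p + lam * Real.exp (2 * u p)) := e3
        _ = _ := by ring
    · rw [image_eq_zero_of_notMem_tsupport hp]
      simp
  have h4 : ∫ p, (-(((n : ℝ) - 2 - s) / 2) * (ψ p * (Real.sqrt (gs u p + ε) ^ s * gs u p))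
        + lam * (ψ p * (Real.sqrt (gs u p + ε) ^ s * Real.exp (2 * u p)))) =
      -(((n : ℝ) - 2 - s) / 2) * (∫ p, ψ p * (Real.sqrt (gs u p + ε) ^ s * gs u p))
        + lam * ∫ p, ψ p * (Real.sqrt (gs u p + ε) ^ s * Real.exp (2 * u p)) := by
    rw [integral_add (i2.const_mul _) (i3.const_mul _), integral_const_mul, integral_const_mul]
  rw [h2, h4] at h3
  linarith

theorem test0 (h : Data n S lam Ω u) {s : ℕ} (hs : s + 2 ≤ n) {ψ : (Fin n → ℝ) → ℝ}
    (hψ : ContDiff ℝ ∞ ψ) (hc : HasCompactSupport ψ) (ht : tsupport ψ ⊆ B n 2)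
    (h0 : ∀ p, 0 ≤ ψ p) :
    (((n : ℝ) - 2 - s) / 2) * ∫ p, ψ p * gr u p ^ (s + 2) ≤
      (∫ p, gr u p ^ s * ∑ i, pd i ψ p * pd i u p)
        + lam * ∫ p, ψ p * (gr u p ^ s * Real.exp (2 * u p)) := by
  have hsub : tsupport ψ ⊆ Ω := ht.trans h.sub2
  have hsubi : ∀ i, tsupport (pd i ψ) ⊆ Ω := fun i => (tsupport_pd ψ i).trans hsub
  have hci : ∀ i, HasCompactSupport (pd i ψ) := fun i =>
    IsCompact.of_isClosed_subset hc (isClosed_tsupport _) (tsupport_pd ψ i)
  have t1 := tendsto_test h.smooth hψ.continuous hc hsub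
    (fun p hp => continuousAt_gs (h.smooth p hp)) s
  have t2 : ∀ i, _ := fun i => tendsto_test h.smooth (cont_pd hψ i) (hci i) (hsubi i)
    (fun p hp => (smooth_pd (h.smooth p hp) i).continuousAt) s
  have t3 := tendsto_test h.smooth hψ.continuous hc hsub
    (F := fun p => Real.exp (2 * u p)) (fun p hp => Real.continuous_exp.continuousAt.comp
      (continuousAt_const.mul (h.smooth p hp).continuousAt)) s
  have t4 := le_of_tendsto_of_tendsto' (t1.const_mul (((n : ℝ) - 2 - s) / 2))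
    ((tendsto_finsetSum Finset.univ fun i _ => t2 i).add (t3.const_mul lam))
    (fun k => test_eps h hs hψ hc ht h0 (by positivity : (0 : ℝ) < 1 / ((k : ℝ) + 1)))
  have e1 : ∀ p, ψ p * (gr u p ^ s * gs u p) = ψ p * gr u p ^ (s + 2) := by
    intro p
    rw [pow_add, gr_sq]
  have e2 : ∑ i, ∫ p, pd i ψ p * (gr u p ^ s * pd i u p) =
      ∫ p, gr u p ^ s * ∑ i, pd i ψ p * pd i u p := by
    rw [← integral_finsetSum]
    · congr 1
      funext p
      rw [Finset.mul_sum]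
      exact Finset.sum_congr rfl fun i _ => by ring
    · intro i _
      exact integrable_mul_of (cont_pd hψ i) (hci i) fun p hp =>
        ((continuousAt_gr (h.smooth p (hsubi i hp))).pow s).mul
          (smooth_pd (h.smooth p (hsubi i hp)) i).continuousAt
  simp only [e1, e2] at t4
  exact t4

end

end Pool.Agent.Helper50.CF
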