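import Pool.Agent.Helper50.CF.Defs

/-! Basic facts on balls, continuity and integrability. -/

namespace Pool.Agent.Helper50.CF

open scoped ContDiff Topology
open Pool.Agent.Helper49.Ric Pool.Agent.Helper73.HB MeasureTheory Filter

noncomputable section

variable {n : ℕ} {S lam : ℝ} {Ω : Set (Fin n → ℝ)} {u : (Fin n → ℝ) → ℝ}

theorem isOpen_B (r : ℝ) : IsOpen (B n r) := by
  unfold B
  exact isOpen_lt (by fun_prop) continuous_const

theorem isClosed_Bc (r : ℝ) : IsClosed (Bc n r) := by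
  unfold Bc
  exact isClosed_le (by fun_prop) continuous_const

theorem isCompact_Bc (r : ℝ) : IsCompact (Bc n r) := by
  refine Metric.isCompact_of_isClosed_isBounded (isClosed_Bc r) ?_
  refine (Metric.isBounded_closedBall (x := (0 : Fin n → ℝ)) (r := |r|)).subset ?_
  intro p hp
  rw [mem_closedBall_zero_iff, pi_norm_le_iff_of_nonneg (abs_nonneg r)]
  intro i
  have h1 : p i ^ 2 ≤ ∑ j, p j ^ 2 :=
    Finset.single_le_sum (f := fun j => p j ^ 2) (fun j _ => sq_nonneg _) (Finset.mem_univ i)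
  have h2 : p i ^ 2 ≤ r ^ 2 := h1.trans hp
  rw [Real.norm_eq_abs]
  exact sq_le_sq.mp h2

theorem B_subset_Bc (r : ℝ) : B n r ⊆ Bc n r := fun p hp => by
  have h1 : ∑ i, p i ^ 2 < r ^ 2 := hp
  exact h1.le

theorem B_mono {r R : ℝ} (h0 : 0 ≤ r) (h : r ≤ R) : B n r ⊆ B n R := fun p hp => by
  have h1 : ∑ i, p i ^ 2 < r ^ 2 := hp
  exact lt_of_lt_of_le h1 (pow_le_pow_left₀ h0 h 2)

theorem Bc_mono {r R : ℝ} (h0 : 0 ≤ r) (h : r ≤ R) : Bc n r ⊆ Bc n R := fun p hp => by
  have h1 : ∑ i, p i ^ 2 ≤ r ^ 2 := hp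
  exact h1.trans (pow_le_pow_left₀ h0 h 2)

theorem Bc_subset_B {r R : ℝ} (h0 : 0 ≤ r) (h : r < R) : Bc n r ⊆ B n R := fun p hp => by
  have h1 : ∑ i, p i ^ 2 ≤ r ^ 2 := hp
  exact lt_of_le_of_lt h1 (pow_lt_pow_left₀ h h0 (by norm_num))

theorem measurableSet_B (r : ℝ) : MeasurableSet (B n r) := (isOpen_B r).measurableSet

theorem volume_B_lt_top (r : ℝ) : volume (B n r) < ⊤ :=
  lt_of_le_of_lt (measure_mono (B_subset_Bc r)) (isCompact_Bc r).measure_lt_top

theorem gs_nonneg (u : (Fin n → ℝ) → ℝ) (p : Fin n → ℝ) : 0 ≤ gs u p :=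
  Finset.sum_nonneg fun i _ => sq_nonneg _

theorem gr_nonneg (u : (Fin n → ℝ) → ℝ) (p : Fin n → ℝ) : 0 ≤ gr u p := Real.sqrt_nonneg _

theorem gr_sq (u : (Fin n → ℝ) → ℝ) (p : Fin n → ℝ) : gr u p ^ 2 = gs u p :=
  Real.sq_sqrt (gs_nonneg u p)

/-- Cauchy–Schwarz -/
theorem abs_inner_le (f u : (Fin n → ℝ) → ℝ) (p : Fin n → ℝ) :
    |∑ i, pd i f p * pd i u p| ≤ gr f p * gr u p := by
  unfold gr
  rw [← Real.sqrt_mul (gs_nonneg f p)]
  refine Real.abs_le_sqrt ?_
  exact Finset.sum_mul_sq_le_sq_mul_sq _ _ _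

theorem Data.sub2 (h : Data n S lam Ω u) : B n 2 ⊆ Ω := (B_subset_Bc 2).trans h.sub

theorem continuousAt_gs {p : Fin n → ℝ} (hu : ContDiffAt ℝ ∞ u p) : ContinuousAt (gs u) p := by
  unfold gs
  refine tendsto_finsetSum _ fun i _ => ?_
  exact (smooth_pd hu i).continuousAt.pow 2

theorem continuousAt_gr {p : Fin n → ℝ} (hu : ContDiffAt ℝ ∞ u p) : ContinuousAt (gr u) p := by
  unfold gr
  exact (continuousAt_gs hu).sqrt

theorem Data.cu (h : Data n S lam Ω u) : ContinuousOn u (Bc n 2) :=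
  fun p hp => (h.smooth p (h.sub hp)).continuousAt.continuousWithinAt

theorem Data.cgr (h : Data n S lam Ω u) : ContinuousOn (gr u) (Bc n 2) :=
  fun p hp => (continuousAt_gr (h.smooth p (h.sub hp))).continuousWithinAt

/-- a function continuous on the closed ball of radius two is integrable on every subset of the
open ball -/
theorem integrableOn_of {f : (Fin n → ℝ) → ℝ} (hf : ContinuousOn f (Bc n 2))
    {A : Set (Fin n → ℝ)} (hA : A ⊆ B n 2) : IntegrableOn f A :=
  (hf.integrableOn_compact (isCompact_Bc 2)).mono_set (hA.trans (B_subset_Bc 2))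

theorem integral_mono_set {f : (Fin n → ℝ) → ℝ} (hf : ContinuousOn f (Bc n 2))
    {A A' : Set (Fin n → ℝ)} (hA' : A' ⊆ B n 2) (h : A ⊆ A') (hm : MeasurableSet A')
    (h0 : ∀ p ∈ A', 0 ≤ f p) : ∫ p in A, f p ≤ ∫ p in A', f p :=
  setIntegral_mono_set (integrableOn_of hf hA')
    ((ae_restrict_iff' hm).mpr (Eventually.of_forall h0)) (Eventually.of_forall h)

/-- a smooth function with compact support in `B n 2` times a function smooth on `Ω` -/
theorem smooth_mul_of {U : Set (Fin n → ℝ)} {φ F : (Fin n → ℝ) → ℝ} (hφ : ContDiff ℝ ∞ φ)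
    (ht : tsupport φ ⊆ U) (hF : ∀ p ∈ U, ContDiffAt ℝ ∞ F p) :
    ContDiff ℝ ∞ (fun p => φ p * F p) := by
  rw [contDiff_iff_contDiffAt]
  intro p
  by_cases hp : p ∈ tsupport φ
  · exact hφ.contDiffAt.mul (hF p (ht hp))
  · have h1 : φ =ᶠ[𝓝 p] fun _ => (0 : ℝ) := notMem_tsupport_iff_eventuallyEq.mp hp
    have h2 : (fun q => φ q * F q) =ᶠ[𝓝 p] fun _ => (0 : ℝ) := by
      filter_upwards [h1] with q hq
      rw [hq, zero_mul]
    exact contDiffAt_const.congr_of_eventuallyEq h2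

/-- integrability of `φ F`, `φ` continuous with compact support, `F` continuous on the support -/
theorem integrable_mul_of {φ F : (Fin n → ℝ) → ℝ} (hφ : Continuous φ) (hc : HasCompactSupport φ)
    (hF : ∀ p ∈ tsupport φ, ContinuousAt F p) : Integrable (fun p => φ p * F p) :=
  (continuous_mul_of hφ hF).integrable_of_hasCompactSupport hc.mul_right

/-- a globally smooth function with compact support is Lipschitz -/
theorem lip_of {φ : (Fin n → ℝ) → ℝ} (hφ : ContDiff ℝ ∞ φ) (hc : HasCompactSupport φ) :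
    ∃ D : NNReal, LipschitzWith D φ :=
  ContDiff.lipschitzWith_of_hasCompactSupport hc hφ (by simp)

end

end Pool.Agent.Helper50.CF
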