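import Pool.Agent.Helper50.CF.Basic

/-! # CF-1: the metric `e^{2u}|dx|²`: density, Ricci and scalar curvature

PROOF. `(conf u q)ᵢⱼ = e^{2u(q)} δᵢⱼ`, so `∂ₖ gᵢⱼ = 2 ∂ₖu e^{2u} δᵢⱼ` near `p` and
`Γᵐᵢⱼ = δₘᵢ ∂ⱼu + δₘⱼ ∂ᵢu - δᵢⱼ ∂ₘu` (near `p`, hence `∂Γ` by `pd_congr`).
`Σₘ ∂ₘΓᵐᵢⱼ = 2uᵢⱼ - δᵢⱼ Δu`, `Σₘ Γᵐᵢₘ = n uᵢ`, `Σₘₗ Γᵐⱼₗ Γˡᵢₘ = (n+2) uᵢuⱼ - 2 δᵢⱼ |∇u|²`.
Sum: `Ricᵢⱼ = -(n-2)(uᵢⱼ - uᵢuⱼ) - δᵢⱼ(Δu + (n-2)|∇u|²)`.
`ric_P1`: sum the hypothesis over `v = eᵢ` and use `n ≤ 2(n-1)`; `ric_P2`: `v = ∇u`. -/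

namespace Pool.Agent.Helper50.CF

open scoped ContDiff Topology
open Pool.Agent.Helper49.Ric Pool.Agent.Helper73.HB MeasureTheory Filter

noncomputable section

variable {n : ℕ} {S lam : ℝ} {Ω : Set (Fin n → ℝ)} {u : (Fin n → ℝ) → ℝ} {p : Fin n → ℝ}

private theorem conf_apply (u : (Fin n → ℝ) → ℝ) (p : Fin n → ℝ) (i j : Fin n) :
    conf u p i j = if i = j then Real.exp (2 * u p) else 0 := by
  simp [conf, Matrix.smul_apply, Matrix.one_apply]

theorem inv_conf (u : (Fin n → ℝ) → ℝ) (p : Fin n → ℝ) :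
    (conf u p)⁻¹ = Real.exp (-(2 * u p)) • (1 : Matrix (Fin n) (Fin n) ℝ) := by
  refine Matrix.inv_eq_left_inv ?_
  unfold conf
  rw [smul_mul_smul_comm, Matrix.mul_one, ← Real.exp_add]
  simp

private theorem inv_apply (u : (Fin n → ℝ) → ℝ) (p : Fin n → ℝ) (i j : Fin n) :
    (conf u p)⁻¹ i j = if i = j then Real.exp (-(2 * u p)) else 0 := by
  rw [inv_conf]
  simp [Matrix.smul_apply, Matrix.one_apply]

theorem dens_conf (u : (Fin n → ℝ) → ℝ) (p : Fin n → ℝ) :
    Real.sqrt (conf u p).det = Real.exp (n * u p) := by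
  unfold conf
  rw [Matrix.det_smul, Matrix.det_one, mul_one, Fintype.card_fin, ← Real.exp_nat_mul,
    Real.sqrt_eq_iff_mul_self_eq (Real.exp_pos _).le (Real.exp_pos _).le, ← Real.exp_add]
  congr 1
  ring

private theorem pd_ite (c : Prop) [Decidable c] (f : (Fin n → ℝ) → ℝ) (i : Fin n) :
    pd i (fun q => if c then f q else 0) p = if c then pd i f p else 0 := by
  split_ifs
  · rfl
  · exact pd_const 0 i

private theorem pd_exp (hu : DifferentiableAt ℝ u p) (i : Fin n) :
    pd i (fun q => Real.exp (2 * u q)) p = 2 * pd i u p * Real.exp (2 * u p) := by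
  rw [pd_eq (hu.const_mul 2).exp, pd_eq hu, fderiv_exp (hu.const_mul 2), fderiv_const_mul hu]
  simp
  ring

private theorem pd_conf (hu : DifferentiableAt ℝ u p) (k i j : Fin n) :
    pd k (fun q => conf u q i j) p =
      (if i = j then pd k u p else 0) * (2 * Real.exp (2 * u p)) := by
  have h : (fun q => conf u q i j) = fun q => if i = j then Real.exp (2 * u q) else 0 := by
    funext q
    exact conf_apply u q i j
  rw [h, pd_ite, pd_exp hu]
  split_ifs <;> ring

theorem christoffel_conf (hu : DifferentiableAt ℝ u p) (m i j : Fin n) :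
    christoffel (conf u) m i j p =
      (if m = i then pd j u p else 0) + (if m = j then pd i u p else 0)
        - (if i = j then pd m u p else 0) := by
  unfold christoffel
  have h : ∀ l : Fin n, (conf u p)⁻¹ m l *
      (pd i (fun q => conf u q j l) p + pd j (fun q => conf u q i l) p
        - pd l (fun q => conf u q i j) p) =
      if m = l then 2 * ((if m = i then pd j u p else 0) + (if m = j then pd i u p else 0)
        - (if i = j then pd m u p else 0)) else 0 := by
    intro l
    rw [inv_apply, pd_conf hu, pd_conf hu, pd_conf hu]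
    by_cases hl : m = l
    · subst hl
      have he : Real.exp (-(2 * u p)) * Real.exp (2 * u p) = 1 := by
        rw [← Real.exp_add]
        simp
      simp only [if_true, eq_comm (a := m) (b := i), eq_comm (a := m) (b := j)]
      generalize (if j = m then pd i u p else 0) = A
      generalize (if i = m then pd j u p else 0) = B
      generalize (if i = j then pd m u p else 0) = C
      linear_combination (2 * (A + B - C)) * he
    · simp [hl]
  rw [Finset.sum_congr rfl fun l _ => h l]
  simp

/-- derivative of the Christoffel symbols -/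
private theorem pd_christoffel (hu : ContDiffAt ℝ ∞ u p) (k m i j : Fin n) :
    pd k (christoffel (conf u) m i j) p =
      (if m = i then pd k (pd j u) p else 0) + (if m = j then pd k (pd i u) p else 0)
        - (if i = j then pd k (pd m u) p else 0) := by
  have hev : ∀ᶠ q in 𝓝 p, DifferentiableAt ℝ u q := by
    have h1 : ContDiffAt ℝ 1 u p := hu.of_le (by simp)
    filter_upwards [h1.eventually (by simp)] with q hq
    exact hq.differentiableAt (by simp)
  have h : christoffel (conf u) m i j =ᶠ[𝓝 p] fun q =>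
      (if m = i then pd j u q else 0) + (if m = j then pd i u q else 0)
        - (if i = j then pd m u q else 0) := by
    filter_upwards [hev] with q hq
    exact christoffel_conf hq m i j
  have hd : ∀ (c : Prop) [Decidable c] (l : Fin n),
      DifferentiableAt ℝ (fun q => if c then pd l u q else 0) p := by
    intro c _ l
    by_cases hc : c
    · simp only [hc, if_true]
      exact diff_of_smooth (smooth_pd hu l)
    · simp only [hc, if_false]
      exact differentiableAt_const 0
  rw [pd_congr h, pd_sub ((hd _ j).fun_add (hd _ i)) (hd _ m), pd_add (hd _ j) (hd _ i),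
    pd_ite, pd_ite, pd_ite]

private theorem alg_quad (a : Fin n → ℝ) (i j : Fin n) :
    (∑ m : Fin n, ∑ l : Fin n,
      (((if m = m then a l else 0) + (if m = l then a m else 0) - (if m = l then a m else 0)) *
        ((if l = i then a j else 0) + (if l = j then a i else 0) - (if i = j then a l else 0))
      - ((if m = j then a l else 0) + (if m = l then a j else 0) - (if j = l then a m else 0)) *
        ((if l = i then a m else 0) + (if l = m then a i else 0)
          - (if i = m then a l else 0)))) =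
      ((n : ℝ) - 2) * (a i * a j) - (if i = j then ((n : ℝ) - 2) * ∑ m, a m ^ 2 else 0) := by
  simp only [if_true, add_sub_cancel_right, Finset.sum_sub_distrib]
  by_cases hij : i = j
  · subst hij
    simp only [mul_add, mul_sub, add_mul, sub_mul, ite_mul, mul_ite, zero_mul, mul_zero,
      Finset.sum_add_distrib, Finset.sum_sub_distrib, Finset.sum_ite_eq, Finset.sum_ite_eq',
      Finset.mem_univ, if_true, Finset.sum_const, Finset.card_univ, Fintype.card_fin,
      nsmul_eq_mul, Finset.sum_ite_irrel, ← pow_two]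
    ring
  · simp only [hij, Ne.symm hij, if_false, mul_add, mul_sub, add_mul, sub_mul, ite_mul, mul_ite,
      zero_mul, mul_zero, Finset.sum_add_distrib, Finset.sum_sub_distrib, Finset.sum_ite_eq,
      Finset.sum_ite_eq', Finset.mem_univ, if_true, Finset.sum_const, Finset.card_univ,
      Fintype.card_fin, nsmul_eq_mul, Finset.sum_ite_irrel, ← pow_two, sub_zero]
    ring

private theorem alg_lin (H : Fin n → Fin n → ℝ) (hH : ∀ i j, H i j = H j i) (i j : Fin n) :
    (∑ m : Fin n,
      (((if m = i then H m j else 0) + (if m = j then H m i else 0)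
          - (if i = j then H m m else 0))
      - ((if m = i then H j m else 0) + (if m = m then H j i else 0)
          - (if i = m then H j m else 0)))) =
      -((n : ℝ) - 2) * H i j - (if i = j then ∑ m, H m m else 0) := by
  by_cases hij : i = j
  · subst hij
    simp only [Finset.sum_add_distrib, Finset.sum_sub_distrib, Finset.sum_ite_eq,
      Finset.sum_ite_eq', Finset.mem_univ, if_true, Finset.sum_const, Finset.card_univ,
      Fintype.card_fin, nsmul_eq_mul]
    ring
  · simp only [hij, if_false, Finset.sum_add_distrib, Finset.sum_sub_distrib, Finset.sum_ite_eq,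
      Finset.sum_ite_eq', Finset.mem_univ, if_true, Finset.sum_const, Finset.card_univ,
      Fintype.card_fin, nsmul_eq_mul, smul_zero]
    rw [hH j i]
    ring

theorem ricci_conf (hu : ContDiffAt ℝ ∞ u p) (i j : Fin n) :
    ricci (conf u) i j p = -((n : ℝ) - 2) * (pd i (pd j u) p - pd i u p * pd j u p)
      - (if i = j then lp u p + ((n : ℝ) - 2) * gs u p else 0) := by
  have hd := diff_of_smooth hu
  unfold ricci
  rw [Finset.sum_add_distrib]
  rw [Finset.sum_congr rfl fun m _ => by
    rw [pd_christoffel hu m m i j, pd_christoffel hu j m i m]]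
  rw [alg_lin (fun a b => pd a (pd b u) p) (fun a b => pd_comm hu a b) i j]
  rw [Finset.sum_congr rfl fun m _ => Finset.sum_congr rfl fun l _ => by
    rw [christoffel_conf hd m m l, christoffel_conf hd l i j, christoffel_conf hd m j l,
      christoffel_conf hd l i m]]
  rw [alg_quad (fun a => pd a u p) i j]
  unfold lp gs
  split_ifs <;> ring

private theorem trace_ricci (hu : ContDiffAt ℝ ∞ u p) :
    ∑ i, ricci (conf u) i i p =
      -(2 * ((n : ℝ) - 1)) * lp u p - ((n : ℝ) - 1) * ((n : ℝ) - 2) * gs u p := by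
  rw [Finset.sum_congr rfl fun i _ => ricci_conf hu i i]
  simp only [if_true, Finset.sum_sub_distrib, ← Finset.mul_sum, Finset.sum_const,
    Finset.card_univ, Fintype.card_fin, nsmul_eq_mul]
  unfold lp gs
  simp only [pow_two]
  ring

theorem scal_conf (hu : ContDiffAt ℝ ∞ u p) :
    scal (conf u) p * Real.sqrt (conf u p).det =
      (-(2 * ((n : ℝ) - 1)) * lp u p - ((n : ℝ) - 1) * ((n : ℝ) - 2) * gs u p)
        * Real.exp ((n - 2) * u p) := by
  have h : scal (conf u) p = Real.exp (-(2 * u p)) * ∑ i, ricci (conf u) i i p := by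
    unfold scal
    rw [Finset.mul_sum]
    refine Finset.sum_congr rfl fun i _ => ?_
    rw [Finset.sum_congr rfl fun j _ => by rw [inv_apply, ite_mul, zero_mul]]
    rw [Finset.sum_ite_eq]
    simp
  rw [h, dens_conf, trace_ricci hu]
  have he : Real.exp (-(2 * u p)) * Real.exp (n * u p) = Real.exp ((n - 2) * u p) := by
    rw [← Real.exp_add]
    congr 1
    ring
  linear_combination (-(2 * ((n : ℝ) - 1)) * lp u p
    - ((n : ℝ) - 1) * ((n : ℝ) - 2) * gs u p) * he

private theorem form_conf (u : (Fin n → ℝ) → ℝ) (p v : Fin n → ℝ) :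
    ∑ i, ∑ j, conf u p i j * v i * v j = Real.exp (2 * u p) * ∑ i, v i ^ 2 := by
  rw [Finset.mul_sum]
  refine Finset.sum_congr rfl fun i _ => ?_
  rw [Finset.sum_congr rfl fun j _ => by rw [conf_apply, ite_mul, ite_mul, zero_mul, zero_mul]]
  rw [Finset.sum_ite_eq]
  simp only [Finset.mem_univ, if_true]
  ring

theorem ric_P1 (hn : 3 ≤ n) (hu : ContDiffAt ℝ ∞ u p) (hlam : 0 ≤ lam)
    (hR : ∀ v : Fin n → ℝ, -lam * ∑ i, ∑ j, conf u p i j * v i * v j ≤
      ∑ i, ∑ j, ricci (conf u) i j p * v i * v j) :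
    lp u p ≤ -(((n : ℝ) - 2) / 2) * gs u p + lam * Real.exp (2 * u p) := by
  have h1 : ∀ k : Fin n, -lam * Real.exp (2 * u p) ≤ ricci (conf u) k k p := by
    intro k
    have h2 := hR (Pi.single k 1)
    rw [form_conf] at h2
    have h3 : ∑ i : Fin n, (Pi.single k (1 : ℝ) : Fin n → ℝ) i ^ 2 = 1 := by
      rw [Finset.sum_eq_single k]
      · simp
      · intro b _ hb
        simp [hb]
      · simp
    have h4 : ∑ i : Fin n, ∑ j : Fin n, ricci (conf u) i j p *
        (Pi.single k (1 : ℝ) : Fin n → ℝ) i * (Pi.single k (1 : ℝ) : Fin n → ℝ) j =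
        ricci (conf u) k k p := by
      rw [Finset.sum_eq_single k]
      · rw [Finset.sum_eq_single k]
        · simp
        · intro b _ hb
          simp [hb]
        · simp
      · intro b _ hb
        simp [hb]
      · simp
    rw [h3, h4] at h2
    linarith
  have h5 : (n : ℝ) * (-lam * Real.exp (2 * u p)) ≤ ∑ k, ricci (conf u) k k p := by
    have h6 := Finset.sum_le_sum fun (k : Fin n) (_ : k ∈ Finset.univ) => h1 k
    simpa using h6
  rw [trace_ricci hu] at h5
  have hn' : (3 : ℝ) ≤ n := by exact_mod_cast hn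
  have h7 : 0 ≤ lam * Real.exp (2 * u p) := mul_nonneg hlam (Real.exp_pos _).le
  have h8 : 2 * ((n : ℝ) - 1) * lp u p ≤
      2 * ((n : ℝ) - 1) * (-(((n : ℝ) - 2) / 2) * gs u p + lam * Real.exp (2 * u p)) := by
    nlinarith
  exact le_of_mul_le_mul_left h8 (by linarith)

theorem ric_P2 (hn : 3 ≤ n) (hu : ContDiffAt ℝ ∞ u p) (hlam : 0 ≤ lam)
    (hR : ∀ v : Fin n → ℝ, -lam * ∑ i, ∑ j, conf u p i j * v i * v j ≤
      ∑ i, ∑ j, ricci (conf u) i j p * v i * v j) :
    ((n : ℝ) - 2) * hq u p + lp u p * gs u p ≤ lam * Real.exp (2 * u p) * gs u p := by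
  have h1 := hR fun i => pd i u p
  rw [form_conf] at h1
  have h2 : ∑ i, ∑ j, ricci (conf u) i j p * pd i u p * pd j u p =
      -((n : ℝ) - 2) * hq u p - lp u p * gs u p := by
    have h3 : ∀ i j : Fin n, ricci (conf u) i j p * pd i u p * pd j u p =
        -((n : ℝ) - 2) * (pd i (pd j u) p * pd i u p * pd j u p)
          + ((n : ℝ) - 2) * (pd i u p ^ 2 * pd j u p ^ 2)
          - (if i = j then (lp u p + ((n : ℝ) - 2) * gs u p) * (pd i u p * pd j u p) else 0) := by
      intro i j
      rw [ricci_conf hu]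
      split_ifs <;> ring
    rw [Finset.sum_congr rfl fun i _ => Finset.sum_congr rfl fun j _ => h3 i j]
    simp only [Finset.sum_sub_distrib, Finset.sum_add_distrib, ← Finset.mul_sum,
      Finset.sum_ite_eq, Finset.mem_univ, if_true, ← Finset.sum_mul, ← pow_two]
    unfold hq gs
    ring
  rw [h2] at h1
  have h4 : ∑ i, pd i u p ^ 2 = gs u p := rfl
  rw [h4] at h1
  linarith

end

end Pool.Agent.Helper50.CF
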