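import Pool.Agent.Helper73.HB.Ibp

/-!
# Conformally flat metrics with a lower Ricci bound: definitions

`conf u` is the metric `e^{2u}|dx|²`.  `gs u = |∇u|²`, `gr u = |∇u|`, `lp u = Δu`,
`hq u = ∇²u(∇u,∇u)` (all Euclidean).  `B n r`, `Bc n r` are the Euclidean balls about `0`.
-/

namespace Pool.Agent.Helper50.CF

open scoped ContDiff Topology
open Pool.Agent.Helper49.Ric Pool.Agent.Helper73.HB MeasureTheory Filter

noncomputable section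

variable {n : ℕ}

/-- The conformally flat metric `e^{2u} |dx|²`. -/
def conf (u : (Fin n → ℝ) → ℝ) (p : Fin n → ℝ) : Matrix (Fin n) (Fin n) ℝ :=
  Real.exp (2 * u p) • (1 : Matrix (Fin n) (Fin n) ℝ)

/-- The open Euclidean ball of radius `r` about `a`. -/
def eball (a : Fin n → ℝ) (r : ℝ) : Set (Fin n → ℝ) := {p | ∑ i, (p i - a i) ^ 2 < r ^ 2}

/-- The closed Euclidean ball of radius `r` about `a`. -/
def ecball (a : Fin n → ℝ) (r : ℝ) : Set (Fin n → ℝ) := {p | ∑ i, (p i - a i) ^ 2 ≤ r ^ 2}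

/-- The volume of a set `A` for the Riemannian metric `G`. -/
def gvol (G : (Fin n → ℝ) → Matrix (Fin n) (Fin n) ℝ) (A : Set (Fin n → ℝ)) : ℝ :=
  ∫ p in A, Real.sqrt (G p).det

/-- The Sobolev inequality `(∫ |f|^{2n/(n-2)} dv)^{(n-2)/n} ≤ S ∫ |∇f|² dv` of the Riemannian
metric `G` for all smooth `f` with compact support in `A`. -/
def Sobolev (G : (Fin n → ℝ) → Matrix (Fin n) (Fin n) ℝ) (A : Set (Fin n → ℝ)) (S : ℝ) : Prop :=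
  ∀ f : (Fin n → ℝ) → ℝ, ContDiff ℝ ∞ f → HasCompactSupport f → tsupport f ⊆ A →
    (∫ p, |f p| ^ (2 * n / (n - 2) : ℝ) * Real.sqrt (G p).det) ^ ((n - 2) / n : ℝ) ≤
      S * ∫ p, (∑ i, ∑ j, (G p)⁻¹ i j * pd i f p * pd j f p) * Real.sqrt (G p).det

/-- `|∇u|²` -/
def gs (u : (Fin n → ℝ) → ℝ) (p : Fin n → ℝ) : ℝ := ∑ i, pd i u p ^ 2

/-- `|∇u|` -/
def gr (u : (Fin n → ℝ) → ℝ) (p : Fin n → ℝ) : ℝ := Real.sqrt (gs u p)

/-- `Δu` -/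
def lp (u : (Fin n → ℝ) → ℝ) (p : Fin n → ℝ) : ℝ := ∑ i, pd i (pd i u) p

/-- `∇²u(∇u,∇u)` -/
def hq (u : (Fin n → ℝ) → ℝ) (p : Fin n → ℝ) : ℝ :=
  ∑ i, ∑ j, pd i (pd j u) p * pd i u p * pd j u p

/-- the open Euclidean ball about `0` -/
def B (n : ℕ) (r : ℝ) : Set (Fin n → ℝ) := {p | ∑ i, p i ^ 2 < r ^ 2}

/-- the closed Euclidean ball about `0` -/
def Bc (n : ℕ) (r : ℝ) : Set (Fin n → ℝ) := {p | ∑ i, p i ^ 2 ≤ r ^ 2}

/-- The normalised situation: ball `B n 2`, volume at most one. -/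
structure Data (n : ℕ) (S lam : ℝ) (Ω : Set (Fin n → ℝ)) (u : (Fin n → ℝ) → ℝ) : Prop where
  hn : 3 ≤ n
  hS : 1 ≤ S
  opn : IsOpen Ω
  sub : Bc n 2 ⊆ Ω
  smooth : ∀ p ∈ Ω, ContDiffAt ℝ ∞ u p
  lam0 : 0 ≤ lam
  P1 : ∀ p ∈ B n 2, lp u p ≤ -(((n : ℝ) - 2) / 2) * gs u p + lam * Real.exp (2 * u p)
  P2 : ∀ p ∈ B n 2, ((n : ℝ) - 2) * hq u p + lp u p * gs u p ≤
    lam * Real.exp (2 * u p) * gs u p
  sob : ∀ f : (Fin n → ℝ) → ℝ, ContDiff ℝ ∞ f → HasCompactSupport f → tsupport f ⊆ B n 2 →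
    (∫ p, |f p| ^ (2 * n / (n - 2) : ℝ) * Real.exp (n * u p)) ^ ((n - 2) / n : ℝ) ≤
      S * ∫ p, (∑ i, pd i f p ^ 2) * Real.exp ((n - 2) * u p)
  vol : ∫ p in B n 2, Real.exp (n * u p) ≤ 1

end

end Pool.Agent.Helper50.CF
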