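import Pool.Agent.Helper50.CF.Basic

/-! # CF-2: the divergence of `(|∇u|²+ε)^{s/2} ∇u`

PROOF. `pd i gs = 2 Σⱼ ∂ⱼu ∂ᵢ∂ⱼu`, chain rule for `sqrt` (`gs + ε > 0`) and for powers: with
`w = sqrt (gs + ε)`: `∂ᵢw = (Σⱼ ∂ⱼu ∂ᵢ∂ⱼu)/w`, `∂ᵢ(w^s) = s w^(s-1) ∂ᵢw`
(`s = 0`: zero; in general `w^(s-1)/w * s = s w^s / w²`), `w² = gs + ε`.
`div_le`: with `θ = G/(G+ε) ∈ [0,1]`, `σ = sθ/(n-2) ∈ [0,1]`: `sH/(G+ε) ≤ σ(E - L)`, so
`L + sH/(G+ε) ≤ (1-σ)L + σE ≤ -(1-σ)((n-2)/2) G + E ≤ -((n-2-s)/2) G + E`. -/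

namespace Pool.Agent.Helper50.CF

open scoped ContDiff Topology
open Pool.Agent.Helper49.Ric Pool.Agent.Helper73.HB MeasureTheory Filter

noncomputable section

variable {n : ℕ} {S lam : ℝ} {Ω : Set (Fin n → ℝ)} {u : (Fin n → ℝ) → ℝ} {p : Fin n → ℝ}

theorem smooth_gs_div (hu : ContDiffAt ℝ ∞ u p) : ContDiffAt ℝ ∞ (gs u) p := by
  unfold gs
  exact ContDiffAt.sum fun j _ => (smooth_pd hu j).pow 2

theorem smooth_sqrt_pow (hu : ContDiffAt ℝ ∞ u p) {ε : ℝ} (hε : 0 < ε) (s : ℕ) :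
    ContDiffAt ℝ ∞ (fun q => Real.sqrt (gs u q + ε) ^ s) p := by
  have h1 : ContDiffAt ℝ ∞ (fun q => gs u q + ε) p := (smooth_gs_div hu).add contDiffAt_const
  have h2 : gs u p + ε ≠ 0 := by
    have := gs_nonneg u p
    positivity
  exact (h1.sqrt h2).pow s

theorem smooth_x (hu : ContDiffAt ℝ ∞ u p) {ε : ℝ} (hε : 0 < ε) (s : ℕ) (i : Fin n) :
    ContDiffAt ℝ ∞ (fun q => Real.sqrt (gs u q + ε) ^ s * pd i u q) p :=
  (smooth_sqrt_pow hu hε s).mul (smooth_pd hu i)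

theorem pd_comp_div {f : (Fin n → ℝ) → ℝ} (hf : DifferentiableAt ℝ f p) {g : ℝ → ℝ} {g' : ℝ}
    (hg : HasDerivAt g g' (f p)) (i : Fin n) : pd i (fun q => g (f q)) p = g' * pd i f p := by
  have h1 : HasFDerivAt (fun q => g (f q)) (g' • fderiv ℝ f p) p :=
    hg.comp_hasFDerivAt p hf.hasFDerivAt
  rw [pd_eq h1.differentiableAt, pd_eq hf, h1.fderiv]
  simp only [smul_apply, smul_eq_mul]

theorem pd_gs_div (hu : ContDiffAt ℝ ∞ u p) (ε : ℝ) (i : Fin n) :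
    pd i (fun q => gs u q + ε) p = 2 * ∑ j, pd i (pd j u) p * pd j u p := by
  have hj : ∀ j, DifferentiableAt ℝ (pd j u) p := fun j => diff_of_smooth (smooth_pd hu j)
  rw [pd_add (diff_of_smooth (smooth_gs_div hu)) (differentiableAt_const ε), pd_const, add_zero]
  unfold gs
  rw [pd_sum (F := fun j q => pd j u q ^ 2) (fun j _ => (hj j).pow 2), Finset.mul_sum]
  refine Finset.sum_congr rfl fun j _ => ?_
  have h1 : (fun q => pd j u q ^ 2) = fun q => pd j u q * pd j u q := by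
    funext q
    ring
  rw [h1, pd_mul (hj j) (hj j)]
  ring

theorem pd_sqrt_pow (hu : ContDiffAt ℝ ∞ u p) {ε : ℝ} (hε : 0 < ε) (s : ℕ) (i : Fin n) :
    pd i (fun q => Real.sqrt (gs u q + ε) ^ s) p =
      Real.sqrt (gs u p + ε) ^ s * (s / (gs u p + ε)) * ∑ j, pd i (pd j u) p * pd j u p := by
  have hx : 0 < gs u p + ε := by
    have := gs_nonneg u p
    positivity
  have h1 : DifferentiableAt ℝ (fun q => gs u q + ε) p :=
    (diff_of_smooth (smooth_gs_div hu)).add (differentiableAt_const ε)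
  have h2 : HasDerivAt (fun x : ℝ => Real.sqrt x ^ s)
      ((s : ℝ) * Real.sqrt (gs u p + ε) ^ (s - 1) * (1 / (2 * Real.sqrt (gs u p + ε))))
      (gs u p + ε) :=
    (Real.hasDerivAt_sqrt hx.ne').pow s
  have h3 := pd_comp_div (g := fun x : ℝ => Real.sqrt x ^ s) h1 h2 i
  rw [pd_gs_div hu] at h3
  refine h3.trans ?_
  have hw : 0 < Real.sqrt (gs u p + ε) := Real.sqrt_pos.mpr hx
  have hw2 : Real.sqrt (gs u p + ε) ^ 2 = gs u p + ε := Real.sq_sqrt hx.le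
  generalize Real.sqrt (gs u p + ε) = w at hw hw2
  rw [← hw2]
  rcases s with _ | s
  · simp
  · rw [Nat.add_sub_cancel]
    field_simp
    ring

theorem div_x (hu : ContDiffAt ℝ ∞ u p) {ε : ℝ} (hε : 0 < ε) (s : ℕ) :
    ∑ i, pd i (fun q => Real.sqrt (gs u q + ε) ^ s * pd i u q) p =
      Real.sqrt (gs u p + ε) ^ s * (lp u p + s * hq u p / (gs u p + ε)) := by
  have hx : 0 < gs u p + ε := by
    have := gs_nonneg u p
    positivity
  have h1 : ∀ i, pd i (fun q => Real.sqrt (gs u q + ε) ^ s * pd i u q) p =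
      Real.sqrt (gs u p + ε) ^ s * (s / (gs u p + ε)) *
        (∑ j, pd i (pd j u) p * pd i u p * pd j u p) +
      Real.sqrt (gs u p + ε) ^ s * pd i (pd i u) p := by
    intro i
    rw [pd_mul (diff_of_smooth (smooth_sqrt_pow hu hε s)) (diff_of_smooth (smooth_pd hu i)),
      pd_sqrt_pow hu hε, mul_assoc _ (∑ j, _) (pd i u p), Finset.sum_mul]
    congr 2
    refine Finset.sum_congr rfl fun j _ => ?_
    ring
  rw [Finset.sum_congr rfl fun i _ => h1 i, Finset.sum_add_distrib, ← Finset.mul_sum,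
    ← Finset.mul_sum]
  unfold lp hq
  ring

theorem div_le (hn : 3 ≤ n) {s : ℕ} (hs : s + 2 ≤ n) {L G H E ε : ℝ} (hε : 0 < ε) (hG : 0 ≤ G)
    (hE : 0 ≤ E) (h1 : L ≤ -(((n : ℝ) - 2) / 2) * G + E)
    (h2 : ((n : ℝ) - 2) * H + L * G ≤ E * G) :
    L + s * H / (G + ε) ≤ -(((n : ℝ) - 2 - s) / 2) * G + E := by
  have hn' : (3 : ℝ) ≤ n := by exact_mod_cast hn
  have hs' : (s : ℝ) + 2 ≤ n := by exact_mod_cast hs
  have hs0 : (0 : ℝ) ≤ s := Nat.cast_nonneg s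
  set m : ℝ := (n : ℝ) - 2 with hm
  have hm1 : 0 < m := by linarith
  have hsm : (s : ℝ) ≤ m := by linarith
  have hGe : 0 < G + ε := by linarith
  set σ : ℝ := s * G / (m * (G + ε)) with hσ
  have hσ0 : 0 ≤ σ := by positivity
  have hσ1 : σ ≤ s / m := by
    rw [hσ, div_le_div_iff₀ (by positivity) hm1]
    nlinarith [mul_nonneg hs0 (mul_nonneg hm1.le hε.le)]
  have hsm1 : (s : ℝ) / m ≤ 1 := by
    rw [div_le_one hm1]
    exact hsm
  have h3 : s * H / (G + ε) ≤ σ * (E - L) := by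
    rw [hσ, div_mul_eq_mul_div, div_le_div_iff₀ hGe (by positivity)]
    have h4 : (s : ℝ) * (m * H) ≤ s * (G * (E - L)) :=
      mul_le_mul_of_nonneg_left (by linarith) hs0
    nlinarith [mul_le_mul_of_nonneg_right h4 hGe.le]
  have h5 : (1 - σ) * L ≤ (1 - σ) * (-(m / 2) * G + E) :=
    mul_le_mul_of_nonneg_left h1 (by linarith)
  have h6 : (m - s) / 2 * G ≤ (1 - σ) * (m / 2) * G := by
    refine mul_le_mul_of_nonneg_right ?_ hG
    have h7 : σ * m ≤ s := by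
      calc σ * m ≤ s / m * m := mul_le_mul_of_nonneg_right hσ1 hm1.le
        _ = s := by field_simp
    linarith
  linarith

end

end Pool.Agent.Helper50.CF
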