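import Pool.Agent.Helper50.CF.Outer

/-! # CF-11: the last integration by parts

PROOF. Let `ζ` be the cutoff for `1 < 9/8` (`gr ζ ≤ 8c`), `Q = -(2(n-1)) Δu - (n-1)(n-2)|∇u|²`. By
`h.P1` `(Q + 2(n-1) lam e^{2u}) e^{(n-2)u} ≥ 0` on `B n 2`, so (`e^{2u} e^{(n-2)u} = e^{nu}`)
`∫_{B n 1} Q e^{(n-2)u} ≤ ∫_{B n 1} (Q e^{(n-2)u} + 2(n-1) lam e^{nu}) ≤
 ∫ ζ Q e^{(n-2)u} + 2(n-1) lam ∫_{B n 2} e^{nu}`. `ibp` with the test function `ζ` and
`F = e^{(n-2)u} ∂ᵢu`, summed: `∫ ζ Σ ∂ᵢ(e^{(n-2)u} ∂ᵢu) = -∫ e^{(n-2)u} Σ ∂ᵢζ ∂ᵢu`, and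
`Σ ∂ᵢ(e^{(n-2)u} ∂ᵢu) = e^{(n-2)u} (Δu + (n-2)|∇u|²)`. Hence
`∫ ζ Q e^{(n-2)u} = (n-1)(n-2) ∫ ζ e^{(n-2)u} gs + 2(n-1) ∫ e^{(n-2)u} Σ ∂ᵢζ ∂ᵢu`
`≤ (n-1)(n-2) E + 2(n-1) 8c ∫_{B n (9/8)} e^{(n-2)u} gr u`, `gr ≤ 1 + gr²`,
`e^{(n-2)u} ≤ 1 + e^{nu}`, `E` bounded by `exists_E`, `∫ e^{nu} ≤ 1` by `h.vol`. -/

namespace Pool.Agent.Helper50.CF

open scoped ContDiff Topology
open Pool.Agent.Helper49.Ric Pool.Agent.Helper73.HB MeasureTheory Filter

noncomputable section

variable {n : ℕ} {S lam : ℝ} {Ω : Set (Fin n → ℝ)} {u : (Fin n → ℝ) → ℝ} {p : Fin n → ℝ}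

/-- continuity of the Laplacian -/
private theorem continuousAt_lp (hu : ContDiffAt ℝ ∞ u p) : ContinuousAt (lp u) p := by
  unfold lp
  refine tendsto_finsetSum _ fun i _ => ?_
  exact (smooth_pd (smooth_pd hu i) i).continuousAt

private theorem smooth_ex (hu : ContDiffAt ℝ ∞ u p) (a : ℝ) :
    ContDiffAt ℝ ∞ (fun q => Real.exp (a * u q)) p :=
  (contDiffAt_const.mul hu).exp

private theorem pd_ex (hu : ContDiffAt ℝ ∞ u p) (a : ℝ) (i : Fin n) :
    pd i (fun q => Real.exp (a * u q)) p = a * Real.exp (a * u p) * pd i u p := by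
  have h1 : DifferentiableAt ℝ u p := diff_of_smooth hu
  have h2 : HasFDerivAt (fun q => Real.exp (a * u q))
      (Real.exp (a * u p) • (a • fderiv ℝ u p)) p := (h1.hasFDerivAt.const_mul a).exp
  rw [pd_eq h2.differentiableAt, h2.fderiv, pd_eq h1]
  simp only [ContinuousLinearMap.smul_apply, smul_eq_mul]
  ring

private theorem div_F (hu : ContDiffAt ℝ ∞ u p) (a : ℝ) :
    ∑ i, pd i (fun q => Real.exp (a * u q) * pd i u q) p
      = Real.exp (a * u p) * (lp u p + a * gs u p) := by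
  have h1 : ∀ i, pd i (fun q => Real.exp (a * u q) * pd i u q) p
      = Real.exp (a * u p) * pd i (pd i u) p + Real.exp (a * u p) * (a * pd i u p ^ 2) := by
    intro i
    rw [pd_mul (diff_of_smooth (smooth_ex hu a)) (diff_of_smooth (smooth_pd hu i)), pd_ex hu a i]
    ring
  simp only [h1, Finset.sum_add_distrib, lp, gs, Finset.mul_sum, mul_add]

/-- integration by parts -/
private theorem parts (h : Data n S lam Ω u) {φ : (Fin n → ℝ) → ℝ} (hφ : ContDiff ℝ ∞ φ)
    (hc : HasCompactSupport φ) (hs : tsupport φ ⊆ B n 2) (a : ℝ) :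
    ∫ p, φ p * (Real.exp (a * u p) * (lp u p + a * gs u p))
      = - ∫ p, Real.exp (a * u p) * ∑ i, pd i φ p * pd i u p := by
  obtain ⟨D, hD⟩ := lip_of hφ hc
  have hsΩ : tsupport φ ⊆ Ω := hs.trans h.sub2
  have hF : ∀ i, ∀ p ∈ Ω, ContDiffAt ℝ ∞ (fun q => Real.exp (a * u q) * pd i u q) p :=
    fun i p hp => (smooth_ex (h.smooth p hp) a).mul (smooth_pd (h.smooth p hp) i)
  have h1 : ∀ i, ∫ p, φ p * pd i (fun q => Real.exp (a * u q) * pd i u q) p
      = - ∫ p, pd i φ p * (Real.exp (a * u p) * pd i u p) := fun i =>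
    ibp h.opn hD hc hsΩ (fun p hp => (hF i p hp).of_le (by exact_mod_cast le_top)) i
  have e1 : (fun p => φ p * (Real.exp (a * u p) * (lp u p + a * gs u p)))
      = fun p => ∑ i, φ p * pd i (fun q => Real.exp (a * u q) * pd i u q) p := by
    funext p
    by_cases hp : p ∈ tsupport φ
    · rw [← Finset.mul_sum, div_F (h.smooth p (hsΩ hp)) a]
    · simp only [image_eq_zero_of_notMem_tsupport hp, zero_mul, Finset.sum_const_zero]
  have e2 : (fun p => Real.exp (a * u p) * ∑ i, pd i φ p * pd i u p)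
      = fun p => ∑ i, pd i φ p * (Real.exp (a * u p) * pd i u p) := by
    funext p
    rw [Finset.mul_sum]
    refine Finset.sum_congr rfl fun i _ => ?_
    ring
  rw [e1, e2, integral_finset_sum, integral_finset_sum]
  · simp only [h1, Finset.sum_neg_distrib]
  · intro i _
    exact integrable_pd_mul hD hc hsΩ (fun p hp => (hF i p hp).continuousAt) i
  · intro i _
    exact integrable_mul_of hφ.continuous hc fun p hp =>
      (smooth_pd (hF i p (hsΩ hp)) i).continuousAt

theorem exists_last (n : ℕ) (S Lam : ℝ) : ∃ C : ℝ, 1 ≤ C ∧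
    ∀ {lam : ℝ} {Ω : Set (Fin n → ℝ)} {u : (Fin n → ℝ) → ℝ}, Data n S lam Ω u → lam ≤ Lam →
      ∫ p in B n 1, (-(2 * ((n : ℝ) - 1)) * lp u p - ((n : ℝ) - 1) * ((n : ℝ) - 2) * gs u p)
        * Real.exp ((n - 2) * u p) ≤ C := by
  by_cases hn : 3 ≤ n
  swap
  · exact ⟨1, le_rfl, fun h _ => absurd h.hn hn⟩
  obtain ⟨CE, hCE, HE⟩ := exists_E n S Lam
  obtain ⟨c, hc1, hcut⟩ := exists_cutoff
  obtain ⟨ζ, hζ, hζc, hζs, hζ0, hζ1, hζe, hζg⟩ := hcut n 1 (9 / 8) (by norm_num) (by norm_num)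
  have hN : (3 : ℝ) ≤ n := by exact_mod_cast hn
  set V : ℝ := (volume (B n 2)).toReal with hV
  have hV0 : 0 ≤ V := ENNReal.toReal_nonneg
  refine ⟨1 + 2 * ((n : ℝ) - 1) * (8 * c * (V + 1 + CE)) + ((n : ℝ) - 1) * ((n : ℝ) - 2) * CE
    + 2 * ((n : ℝ) - 1) * |Lam|, ?_, ?_⟩
  · have h1 : 0 ≤ 2 * ((n : ℝ) - 1) * (8 * c * (V + 1 + CE)) := by
      have : 0 ≤ (n : ℝ) - 1 := by linarith
      have : 0 ≤ V + 1 + CE := by linarith
      have : 0 ≤ c := by linarith
      positivity
    have h2 : 0 ≤ ((n : ℝ) - 1) * ((n : ℝ) - 2) * CE := by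
      have : 0 ≤ (n : ℝ) - 1 := by linarith
      have : 0 ≤ (n : ℝ) - 2 := by linarith
      have : 0 ≤ CE := by linarith
      positivity
    have h3 : 0 ≤ 2 * ((n : ℝ) - 1) * |Lam| := by
      have : 0 ≤ (n : ℝ) - 1 := by linarith
      positivity
    linarith
  intro lam Ω u h hlam
  have hg8 : ∀ p, gr ζ p ≤ 8 * c := by
    intro p
    refine (hζg p).trans (le_of_eq ?_)
    norm_num
    ring
  have hsub : B n (9 / 8) ⊆ B n 2 := B_mono (by norm_num) (by norm_num)
  have hs2 : tsupport ζ ⊆ B n 2 := hζs.trans hsub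
  have hsm : ∀ p ∈ Bc n 2, ContDiffAt ℝ ∞ u p := fun p hp => h.smooth p (h.sub hp)
  have hz : ∀ p, p ∉ B n (9 / 8) → ζ p = 0 := fun p hp =>
    image_eq_zero_of_notMem_tsupport fun hq => hp (hζs hq)
  have hw : ContinuousOn (fun p => Real.exp ((n - 2) * u p)) (Bc n 2) := fun p hp =>
    (smooth_ex (hsm p hp) _).continuousAt.continuousWithinAt
  have he : ContinuousOn (fun p => Real.exp (n * u p)) (Bc n 2) := fun p hp =>
    (smooth_ex (hsm p hp) _).continuousAt.continuousWithinAt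
  have hQ : ContinuousOn (fun p => (-(2 * ((n : ℝ) - 1)) * lp u p
      - ((n : ℝ) - 1) * ((n : ℝ) - 2) * gs u p) * Real.exp ((n - 2) * u p)) (Bc n 2) := fun p hp =>
    (((continuousAt_const.mul (continuousAt_lp (hsm p hp))).sub
      (continuousAt_const.mul (continuousAt_gs (hsm p hp)))).mul
      (smooth_ex (hsm p hp) _).continuousAt).continuousWithinAt
  have hQa : ∀ p ∈ tsupport ζ, ContinuousAt (fun p => (-(2 * ((n : ℝ) - 1)) * lp u p
      - ((n : ℝ) - 1) * ((n : ℝ) - 2) * gs u p) * Real.exp ((n - 2) * u p)) p := fun p hp =>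
    (((continuousAt_const.mul (continuousAt_lp (hsm p (B_subset_Bc 2 (hs2 hp))))).sub
      (continuousAt_const.mul (continuousAt_gs (hsm p (B_subset_Bc 2 (hs2 hp)))))).mul
      (smooth_ex (hsm p (B_subset_Bc 2 (hs2 hp))) _).continuousAt)
  have hea : ∀ p ∈ tsupport ζ, ContinuousAt (fun p => Real.exp (n * u p)) p := fun p hp =>
    (smooth_ex (hsm p (B_subset_Bc 2 (hs2 hp))) _).continuousAt
  have hwga : ∀ p ∈ tsupport ζ,
      ContinuousAt (fun p => Real.exp ((n - 2) * u p) * gs u p) p := fun p hp =>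
    (smooth_ex (hsm p (B_subset_Bc 2 (hs2 hp))) _).continuousAt.mul
      (continuousAt_gs (hsm p (B_subset_Bc 2 (hs2 hp))))
  have hwla : ∀ p ∈ tsupport ζ,
      ContinuousAt (fun p => Real.exp ((n - 2) * u p) * (lp u p + (n - 2) * gs u p)) p :=
    fun p hp => (smooth_ex (hsm p (B_subset_Bc 2 (hs2 hp))) _).continuousAt.mul
      ((continuousAt_lp (hsm p (B_subset_Bc 2 (hs2 hp)))).add
      (continuousAt_const.mul (continuousAt_gs (hsm p (B_subset_Bc 2 (hs2 hp))))))
  -- the pointwise inequality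
  have hpos : ∀ p ∈ B n 2, 0 ≤ (-(2 * ((n : ℝ) - 1)) * lp u p
      - ((n : ℝ) - 1) * ((n : ℝ) - 2) * gs u p) * Real.exp ((n - 2) * u p)
      + 2 * ((n : ℝ) - 1) * lam * Real.exp (n * u p) := by
    intro p hp
    have h1 := h.P1 p hp
    have e1 : Real.exp (n * u p) = Real.exp (2 * u p) * Real.exp ((n - 2) * u p) := by
      rw [← Real.exp_add]
      congr 1
      ring
    rw [e1]
    have h2 : 0 ≤ ((n : ℝ) - 1) * (-(((n : ℝ) - 2) / 2) * gs u p + lam * Real.exp (2 * u p)
        - lp u p) := mul_nonneg (by linarith) (by linarith)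
    have h3 := mul_nonneg h2 (Real.exp_pos ((n - 2) * u p)).le
    calc (0 : ℝ) ≤ 2 * (((n : ℝ) - 1) * (-(((n : ℝ) - 2) / 2) * gs u p
          + lam * Real.exp (2 * u p) - lp u p) * Real.exp ((n - 2) * u p)) := by linarith
      _ = _ := by ring
  have hn1 : 0 ≤ (n : ℝ) - 1 := by linarith
  have hn2 : 0 ≤ (n : ℝ) - 2 := by linarith
  have hB1 : B n 1 ⊆ B n 2 := B_mono (by norm_num) (by norm_num)
  -- comparison with the integral against the cutoff
  have hint1 : Integrable (fun p => ζ p * ((-(2 * ((n : ℝ) - 1)) * lp u p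
      - ((n : ℝ) - 1) * ((n : ℝ) - 2) * gs u p) * Real.exp ((n - 2) * u p))) :=
    integrable_mul_of hζ.continuous hζc hQa
  have hint2 : Integrable (fun p => ζ p * Real.exp (n * u p)) :=
    integrable_mul_of hζ.continuous hζc hea
  have hint3 : Integrable (fun p => ζ p * (Real.exp ((n - 2) * u p) * gs u p)) :=
    integrable_mul_of hζ.continuous hζc hwga
  have hint4 : Integrable (fun p => ζ p * (Real.exp ((n - 2) * u p)
      * (lp u p + (n - 2) * gs u p))) := integrable_mul_of hζ.continuous hζc hwla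
  have step1 : ∫ p in B n 1, (-(2 * ((n : ℝ) - 1)) * lp u p
      - ((n : ℝ) - 1) * ((n : ℝ) - 2) * gs u p) * Real.exp ((n - 2) * u p)
      ≤ ∫ p, (ζ p * ((-(2 * ((n : ℝ) - 1)) * lp u p
      - ((n : ℝ) - 1) * ((n : ℝ) - 2) * gs u p) * Real.exp ((n - 2) * u p))
      + 2 * ((n : ℝ) - 1) * lam * (ζ p * Real.exp (n * u p))) := by
    have hI : Integrable (fun p => ζ p * ((-(2 * ((n : ℝ) - 1)) * lp u p
      - ((n : ℝ) - 1) * ((n : ℝ) - 2) * gs u p) * Real.exp ((n - 2) * u p))
      + 2 * ((n : ℝ) - 1) * lam * (ζ p * Real.exp (n * u p))) :=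
      hint1.add (hint2.const_mul _)
    refine le_trans ?_ (setIntegral_le_integral (s := B n 1) hI (Eventually.of_forall ?_))
    · refine setIntegral_mono_on (integrableOn_of hQ hB1) hI.integrableOn (measurableSet_B 1) ?_
      intro p hp
      have e1 : ζ p = 1 := hζe p (B_subset_Bc 1 hp)
      simp only [e1, one_mul]
      have h5 : 0 ≤ 2 * ((n : ℝ) - 1) * lam * Real.exp (n * u p) :=
        mul_nonneg (mul_nonneg (by linarith) h.lam0) (Real.exp_pos _).le
      linarith
    · intro p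
      simp only [Pi.zero_apply]
      by_cases hp : p ∈ B n (9 / 8)
      · have h1 := mul_nonneg (hζ0 p) (hpos p (hsub hp))
        calc (0 : ℝ) ≤ _ := h1
          _ = _ := by ring
      · rw [hz p hp]
        simp
  refine step1.trans ?_
  rw [integral_add hint1 (hint2.const_mul _), integral_const_mul]
  -- the volume term
  have hvol : ∫ p, ζ p * Real.exp (n * u p) ≤ 1 := by
    refine le_trans ?_ h.vol
    have e1 : ∫ p, ζ p * Real.exp (n * u p) = ∫ p in B n 2, ζ p * Real.exp (n * u p) := by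
      symm
      refine setIntegral_eq_integral_of_forall_compl_eq_zero fun p hp => ?_
      rw [hz p fun hq => hp (hsub hq), zero_mul]
    rw [e1]
    refine setIntegral_mono_on hint2.integrableOn (integrableOn_of he subset_rfl)
      (measurableSet_B 2) fun p _ => ?_
    exact mul_le_of_le_one_left (Real.exp_pos _).le (hζ1 p)
  have hlamL : lam ≤ |Lam| := hlam.trans (le_abs_self _)
  have hT3 : 2 * ((n : ℝ) - 1) * lam * ∫ p, ζ p * Real.exp (n * u p)
      ≤ 2 * ((n : ℝ) - 1) * |Lam| := by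
    have h1 : 0 ≤ 2 * ((n : ℝ) - 1) * lam := mul_nonneg (by linarith) h.lam0
    calc 2 * ((n : ℝ) - 1) * lam * ∫ p, ζ p * Real.exp (n * u p)
        ≤ 2 * ((n : ℝ) - 1) * lam * 1 := mul_le_mul_of_nonneg_left hvol h1
      _ = 2 * ((n : ℝ) - 1) * lam := mul_one _
      _ ≤ 2 * ((n : ℝ) - 1) * |Lam| := mul_le_mul_of_nonneg_left hlamL (by linarith)
  -- the main term
  have hmain : ∫ p, ζ p * ((-(2 * ((n : ℝ) - 1)) * lp u p
      - ((n : ℝ) - 1) * ((n : ℝ) - 2) * gs u p) * Real.exp ((n - 2) * u p))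
      = 2 * ((n : ℝ) - 1) * (∫ p, Real.exp ((n - 2) * u p) * ∑ i, pd i ζ p * pd i u p)
        + ((n : ℝ) - 1) * ((n : ℝ) - 2) * ∫ p, ζ p * (Real.exp ((n - 2) * u p) * gs u p) := by
    have h1 := parts h hζ hζc hs2 ((n : ℝ) - 2)
    have h2 : (∫ p, Real.exp ((n - 2) * u p) * ∑ i, pd i ζ p * pd i u p)
        = -∫ p, ζ p * (Real.exp ((n - 2) * u p) * (lp u p + (n - 2) * gs u p)) := by
      rw [h1, neg_neg]
    rw [h2, ← integral_neg, ← integral_const_mul, ← integral_const_mul, ← integral_add]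
    · congr 1
      funext p
      ring
    · exact hint4.neg.const_mul _
    · exact hint3.const_mul _
  rw [hmain]
  have hE := HE h hlam
  have hE' : ∫ p in B n (9 / 8), Real.exp ((n - 2) * u p) * gs u p ≤ CE := by
    refine le_trans (le_of_eq ?_) hE
    congr 1
    funext p
    rw [gr_sq]
  have hcwg : ContinuousOn (fun p => Real.exp ((n - 2) * u p) * gs u p) (Bc n 2) := fun p hp =>
    ((smooth_ex (hsm p hp) _).continuousAt.mul (continuousAt_gs (hsm p hp))).continuousWithinAt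
  have hT2 : ∫ p, ζ p * (Real.exp ((n - 2) * u p) * gs u p) ≤ CE := by
    refine le_trans ?_ hE'
    have e1 : ∫ p, ζ p * (Real.exp ((n - 2) * u p) * gs u p)
        = ∫ p in B n (9 / 8), ζ p * (Real.exp ((n - 2) * u p) * gs u p) := by
      symm
      refine setIntegral_eq_integral_of_forall_compl_eq_zero fun p hp => ?_
      rw [hz p hp, zero_mul]
    rw [e1]
    refine setIntegral_mono_on hint3.integrableOn (integrableOn_of hcwg hsub)
      (measurableSet_B _) fun p _ => ?_
    exact mul_le_of_le_one_left (mul_nonneg (Real.exp_pos _).le (gs_nonneg u p)) (hζ1 p)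
  have hT1 : (∫ p, Real.exp ((n - 2) * u p) * ∑ i, pd i ζ p * pd i u p)
      ≤ 8 * c * (V + 1 + CE) := by
    obtain ⟨D, hD⟩ := lip_of hζ hζc
    have hsΩ : tsupport ζ ⊆ Ω := hs2.trans h.sub2
    have e1 : (∫ p, Real.exp ((n - 2) * u p) * ∑ i, pd i ζ p * pd i u p)
        = ∫ p in B n (9 / 8), Real.exp ((n - 2) * u p) * ∑ i, pd i ζ p * pd i u p := by
      symm
      refine setIntegral_eq_integral_of_forall_compl_eq_zero fun p hp => ?_
      have h1 : ∀ i, pd i ζ p = 0 := fun i => pd_zero_off (fun hq => hp (hζs hq)) i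
      simp [h1]
    have hI : Integrable (fun p => Real.exp ((n - 2) * u p) * ∑ i, pd i ζ p * pd i u p) := by
      have e2 : (fun p => Real.exp ((n - 2) * u p) * ∑ i, pd i ζ p * pd i u p)
          = fun p => ∑ i, pd i ζ p * (Real.exp ((n - 2) * u p) * pd i u p) := by
        funext p
        rw [Finset.mul_sum]
        refine Finset.sum_congr rfl fun i _ => ?_
        ring
      rw [e2]
      refine integrable_finset_sum _ fun i _ => ?_
      exact integrable_pd_mul hD hζc hsΩ (fun p hp =>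
        ((smooth_ex (h.smooth p hp) _).mul (smooth_pd (h.smooth p hp) i)).continuousAt) i
    have hc1' : ContinuousOn (fun p => 8 * c * (1 + Real.exp (n * u p)
        + Real.exp ((n - 2) * u p) * gs u p)) (Bc n 2) :=
      continuousOn_const.mul ((continuousOn_const.add he).add hcwg)
    rw [e1]
    calc ∫ p in B n (9 / 8), Real.exp ((n - 2) * u p) * ∑ i, pd i ζ p * pd i u p
        ≤ ∫ p in B n (9 / 8), 8 * c * (1 + Real.exp (n * u p)
          + Real.exp ((n - 2) * u p) * gs u p) := by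
          refine setIntegral_mono_on hI.integrableOn (integrableOn_of hc1' hsub)
            (measurableSet_B _) fun p _ => ?_
          have h1 : ∑ i, pd i ζ p * pd i u p ≤ gr ζ p * gr u p :=
            (le_abs_self _).trans (abs_inner_le ζ u p)
          have h2 : gr ζ p * gr u p ≤ 8 * c * (1 + gs u p) := by
            refine mul_le_mul (hg8 p) ?_ (gr_nonneg u p) (by linarith)
            rw [← gr_sq]
            nlinarith [sq_nonneg (gr u p - 1)]
          have h3 : Real.exp ((n - 2) * u p) ≤ 1 + Real.exp (n * u p) := by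
            rcases le_total (u p) 0 with hu | hu
            · have h4 : Real.exp ((n - 2) * u p) ≤ 1 := by
                rw [Real.exp_le_one_iff]
                exact mul_nonpos_of_nonneg_of_nonpos hn2 hu
              have h5 := (Real.exp_pos (n * u p)).le
              linarith
            · have h4 : Real.exp ((n - 2) * u p) ≤ Real.exp (n * u p) := by
                apply Real.exp_le_exp.mpr
                exact mul_le_mul_of_nonneg_right (by linarith) hu
              linarith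
          have hw0 := (Real.exp_pos ((n - 2) * u p)).le
          have h8c : 0 ≤ 8 * c := by linarith
          calc Real.exp ((n - 2) * u p) * ∑ i, pd i ζ p * pd i u p
              ≤ Real.exp ((n - 2) * u p) * (8 * c * (1 + gs u p)) :=
                mul_le_mul_of_nonneg_left (h1.trans h2) hw0
            _ = 8 * c * (Real.exp ((n - 2) * u p)
                + Real.exp ((n - 2) * u p) * gs u p) := by ring
            _ ≤ 8 * c * (1 + Real.exp (n * u p) + Real.exp ((n - 2) * u p) * gs u p) :=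
                mul_le_mul_of_nonneg_left (by linarith) h8c
      _ = 8 * c * ((∫ p in B n (9 / 8), (1 : ℝ)) + (∫ p in B n (9 / 8), Real.exp (n * u p))
          + ∫ p in B n (9 / 8), Real.exp ((n - 2) * u p) * gs u p) := by
          rw [integral_const_mul, integral_add, integral_add]
          · exact integrableOn_of continuousOn_const hsub
          · exact integrableOn_of he hsub
          · exact integrableOn_of (continuousOn_const.add he) hsub
          · exact integrableOn_of hcwg hsub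
      _ ≤ 8 * c * (V + 1 + CE) := by
          have h8c : 0 ≤ 8 * c := by linarith
          refine mul_le_mul_of_nonneg_left ?_ h8c
          have h1 : (∫ p in B n (9 / 8), (1 : ℝ)) ≤ V := by
            have h2 : (∫ p in B n (9 / 8), (1 : ℝ)) ≤ ∫ p in B n 2, (1 : ℝ) :=
              integral_mono_set continuousOn_const subset_rfl hsub (measurableSet_B 2)
                fun _ _ => zero_le_one
            refine h2.trans (le_of_eq ?_)
            rw [setIntegral_const, smul_eq_mul, mul_one]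
            rfl
          have h3 : (∫ p in B n (9 / 8), Real.exp (n * u p)) ≤ 1 :=
            (integral_mono_set he subset_rfl hsub (measurableSet_B 2)
              fun p _ => (Real.exp_pos _).le).trans h.vol
          linarith
  have hT1' : 2 * ((n : ℝ) - 1) * (∫ p, Real.exp ((n - 2) * u p) * ∑ i, pd i ζ p * pd i u p)
      ≤ 2 * ((n : ℝ) - 1) * (8 * c * (V + 1 + CE)) :=
    mul_le_mul_of_nonneg_left hT1 (by linarith)
  have hT2' : ((n : ℝ) - 1) * ((n : ℝ) - 2) * (∫ p, ζ p * (Real.exp ((n - 2) * u p) * gs u p))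
      ≤ ((n : ℝ) - 1) * ((n : ℝ) - 2) * CE :=
    mul_le_mul_of_nonneg_left hT2 (mul_nonneg hn1 hn2)
  linarith

end

end Pool.Agent.Helper50.CF
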