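import Pool.Agent.Helper50.CF.StepG

/-! # CF-6: the energy of a layer `{k ≤ u ≤ k + h}`

PROOF. `test0` with `s = n - 2` (the left side is zero) and `ψ = φ χ(u)`, `φ` the cutoff for
`r < R` (`gr φ ≤ c/(R-r)`), `χ(t) = h (π/2 - arctan ((t-k)/h))`, so `0 ≤ χ ≤ π h ≤ 4h`,
`-χ'(t) = 1/(1 + ((t-k)/h)²) ≥ 1/2` for `|t - k| ≤ h`, `≥ 0` always. `ψ` is smooth by
`smooth_mul_of`; at points of `tsupport φ`: `∂ᵢψ = ∂ᵢφ χ(u) + φ χ'(u) ∂ᵢu`, hence
`gr^(n-2) Σ ∂ᵢψ ∂ᵢu = χ(u) gr^(n-2) Σ ∂ᵢφ ∂ᵢu + φ χ'(u) gr^n`. So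
`∫ φ (-χ'(u)) gr^n ≤ 4h [ (c/(R-r)) ∫_{B n (3/2)} gr^(n-1) + lam ∫_{B n R} e^{2u} gr^(n-2) ]`
(`|Σ ∂ᵢφ ∂ᵢu| ≤ gr φ gr u`: `abs_inner_le`; `∂ᵢφ = 0` off `B n R ⊆ B n (3/2)`), and the left side is
`≥ (1/2) ∫_{B n r ∩ {k ≤ u ≤ k+h}} gr^n`. `exists_G` bounds the first integral. -/

namespace Pool.Agent.Helper50.CF

open scoped ContDiff Topology
open Pool.Agent.Helper49.Ric Pool.Agent.Helper73.HB MeasureTheory Filter

noncomputable section

variable {n : ℕ} {S lam : ℝ} {Ω : Set (Fin n → ℝ)} {u : (Fin n → ℝ) → ℝ} {p : Fin n → ℝ}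

/-- the profile `χ` -/
private def chi (k h t : ℝ) : ℝ := h * (Real.pi / 2 - Real.arctan ((t - k) / h))

/-- minus its derivative -/
private def wgt (k h t : ℝ) : ℝ := 1 / (1 + ((t - k) / h) ^ 2)

private theorem chi_smooth (k h : ℝ) : ContDiff ℝ ∞ (chi k h) := by
  unfold chi
  have h1 : ContDiff ℝ ∞ (fun t : ℝ => Real.arctan ((t - k) / h)) :=
    Real.contDiff_arctan.comp ((contDiff_id.sub contDiff_const).div_const h)
  exact contDiff_const.mul (contDiff_const.sub h1)

private theorem chi_deriv (k : ℝ) {h : ℝ} (hh : 0 < h) (t : ℝ) :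
    HasDerivAt (chi k h) (-wgt k h t) t := by
  have h1 : HasDerivAt (fun t : ℝ => (t - k) / h) (1 / h) t :=
    ((hasDerivAt_id t).sub_const k).div_const h
  have h2 := (h1.arctan).const_sub (Real.pi / 2)
  have h3 := h2.const_mul h
  refine h3.congr_deriv ?_
  unfold wgt
  have h4 : (1 : ℝ) + ((t - k) / h) ^ 2 ≠ 0 := by positivity
  field_simp

private theorem chi_nonneg (k : ℝ) {h : ℝ} (hh : 0 < h) (t : ℝ) : 0 ≤ chi k h t := by
  unfold chi
  have := Real.arctan_lt_pi_div_two ((t - k) / h)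
  exact mul_nonneg hh.le (by linarith)

private theorem chi_le (k : ℝ) {h : ℝ} (hh : 0 < h) (t : ℝ) : chi k h t ≤ 4 * h := by
  unfold chi
  have h1 := Real.neg_pi_div_two_lt_arctan ((t - k) / h)
  have h2 := Real.pi_le_four
  nlinarith

private theorem wgt_nonneg (k h t : ℝ) : 0 ≤ wgt k h t := by
  unfold wgt
  positivity

private theorem wgt_half {k h t : ℝ} (hh : 0 < h) (h1 : k ≤ t) (h2 : t ≤ k + h) :
    1 / 2 ≤ wgt k h t := by
  unfold wgt
  have h3 : 0 ≤ (t - k) / h := div_nonneg (by linarith) hh.le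
  have h4 : (t - k) / h ≤ 1 := by
    rw [div_le_one hh]
    linarith
  have h5 : ((t - k) / h) ^ 2 ≤ 1 := pow_le_one₀ h3 h4
  exact one_div_le_one_div_of_le (by positivity) (by linarith)

private theorem wgt_cont (k h : ℝ) : Continuous (wgt k h) := by
  unfold wgt
  refine continuous_const.div (by fun_prop) fun t => ?_
  positivity

/-- derivative of `φ χ(u)` -/
private theorem pd_psi {φ : (Fin n → ℝ) → ℝ} (hφ : ContDiff ℝ ∞ φ) (hu : ContDiffAt ℝ ∞ u p)
    (k : ℝ) {h : ℝ} (hh : 0 < h) (i : Fin n) :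
    pd i (fun q => φ q * chi k h (u q)) p =
      pd i φ p * chi k h (u p) - φ p * (wgt k h (u p) * pd i u p) := by
  have hud : DifferentiableAt ℝ u p := diff_of_smooth hu
  have h1 : HasFDerivAt (fun q => chi k h (u q)) ((-wgt k h (u p)) • fderiv ℝ u p) p :=
    (chi_deriv k hh (u p)).comp_hasFDerivAt p hud.hasFDerivAt
  have h2 : DifferentiableAt ℝ (fun q => chi k h (u q)) p := h1.differentiableAt
  have h3 : pd i (fun q => chi k h (u q)) p = -(wgt k h (u p)) * pd i u p := by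
    rw [pd_eq h2, pd_eq hud, h1.fderiv]
    rfl
  rw [pd_mul (hφ.contDiffAt.differentiableAt (by simp)) h2, h3]
  ring

private theorem meas_layer (h : Data n S lam Ω u) {r : ℝ} (hr : B n r ⊆ B n 2) (k e : ℝ) :
    MeasurableSet (B n r ∩ {p | k ≤ u p ∧ u p ≤ k + e}) := by
  have h1 : IsClosed (Bc n 2 ∩ u ⁻¹' (Set.Icc k (k + e))) :=
    h.cu.preimage_isClosed_of_isClosed (isClosed_Bc 2) isClosed_Icc
  have h2 : B n r ∩ {p | k ≤ u p ∧ u p ≤ k + e} =
      B n r ∩ (Bc n 2 ∩ u ⁻¹' (Set.Icc k (k + e))) := by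
    ext p
    constructor
    · rintro ⟨a, b⟩
      exact ⟨a, B_subset_Bc 2 (hr a), b⟩
    · rintro ⟨a, b, c⟩
      exact ⟨a, c⟩
  rw [h2]
  exact (measurableSet_B r).inter h1.measurableSet

theorem exists_layer (n : ℕ) (Lam : ℝ) : ∃ C : ℝ, 1 ≤ C ∧
    ∀ {S lam : ℝ} {Ω : Set (Fin n → ℝ)} {u : (Fin n → ℝ) → ℝ}, Data n S lam Ω u → lam ≤ Lam →
      ∀ r R : ℝ, 1 ≤ r → r < R → R ≤ 3 / 2 → ∀ k h : ℝ, 0 < h →
        ∫ p in B n r ∩ {p | k ≤ u p ∧ u p ≤ k + h}, gr u p ^ n ≤
          h * (C * (1 / (R - r) + ∫ p in B n R, Real.exp (2 * u p) * gr u p ^ (n - 2))) := by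
  obtain ⟨c, hc1, hcut⟩ := exists_cutoff
  obtain ⟨G, hG1, hG⟩ := exists_G n Lam
  refine ⟨8 * (c * G + |Lam|), ?_, ?_⟩
  · have := abs_nonneg Lam
    nlinarith
  intro S lam Ω u hD hlam r R hr1 hrR hR k e he
  obtain ⟨φ, hφ, hφc, hφt, hφ0, hφ1, hφr, hφg⟩ := hcut n r R (by linarith) hrR
  have hn : 3 ≤ n := hD.hn
  have hRr : 0 < R - r := by linarith
  have hBR : B n R ⊆ B n (3 / 2) := B_mono (by linarith) hR
  have hB32 : B n (3 / 2) ⊆ B n 2 := B_mono (by norm_num) (by norm_num)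
  have hBR2 : B n R ⊆ B n 2 := hBR.trans hB32
  have hsm : ∀ p ∈ B n 2, ContDiffAt ℝ ∞ u p := fun p hp => hD.smooth p (hD.sub2 hp)
  have hsm2 : ∀ p ∈ B n R, ContDiffAt ℝ ∞ (fun q => chi k e (u q)) p := fun p hp =>
    ((chi_smooth k e).contDiffAt).comp p (hsm p (hBR2 hp))
  have hψ : ContDiff ℝ ∞ (fun q => φ q * chi k e (u q)) := smooth_mul_of hφ hφt hsm2
  have hψc : HasCompactSupport (fun q => φ q * chi k e (u q)) := hφc.mul_right
  have hψt : tsupport (fun q => φ q * chi k e (u q)) ⊆ B n R :=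
    (tsupport_mul_subset_left (f := φ) (g := fun q => chi k e (u q))).trans hφt
  have key := test0 hD (s := n - 2) (by omega) hψ hψc (hψt.trans hBR2)
    (fun p => mul_nonneg (hφ0 p) (chi_nonneg k he _))
  have hcoef : ((n : ℝ) - 2 - ((n - 2 : ℕ) : ℝ)) / 2 = 0 := by
    rw [Nat.cast_sub (by omega)]
    push_cast
    ring
  rw [hcoef, zero_mul] at key
  -- pointwise identity
  have hid : ∀ p, gr u p ^ (n - 2) * ∑ i, pd i (fun q => φ q * chi k e (u q)) p * pd i u p =
      (∑ i, pd i φ p * (chi k e (u p) * gr u p ^ (n - 2) * pd i u p)) -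
        φ p * (wgt k e (u p) * gr u p ^ n) := by
    intro p
    by_cases hp : p ∈ tsupport φ
    · have hpB : p ∈ B n 2 := hBR2 (hφt hp)
      have h1 : ∀ i, pd i (fun q => φ q * chi k e (u q)) p * pd i u p =
          pd i φ p * (chi k e (u p) * pd i u p) - φ p * wgt k e (u p) * pd i u p ^ 2 := by
        intro i
        rw [pd_psi hφ (hsm p hpB) k he i]
        ring
      rw [Finset.sum_congr rfl fun i _ => h1 i, Finset.sum_sub_distrib, ← Finset.mul_sum]
      have h2 : ∑ i, pd i u p ^ 2 = gr u p ^ 2 := (gr_sq u p).symm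
      have h3 : gr u p ^ n = gr u p ^ (n - 2) * gr u p ^ 2 := by
        rw [← pow_add]
        congr 1
        omega
      rw [h2, h3, mul_sub, Finset.mul_sum]
      congr 1
      · refine Finset.sum_congr rfl fun i _ => ?_
        ring
      · ring
    · have h1 : ∀ i, pd i (fun q => φ q * chi k e (u q)) p = 0 := fun i =>
        pd_zero_off (fun hq => hp (tsupport_mul_subset_left (f := φ)
          (g := fun q => chi k e (u q)) hq)) i
      have h2 : ∀ i, pd i φ p = 0 := fun i => pd_zero_off hp i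
      have h3 : φ p = 0 := image_eq_zero_of_notMem_tsupport hp
      simp [h1, h2, h3]
  obtain ⟨L, hL⟩ := lip_of hφ hφc
  have hcgr : ∀ p ∈ B n 2, ContinuousAt (gr u) p := fun p hp => continuousAt_gr (hsm p hp)
  have hcu : ∀ p ∈ B n 2, ContinuousAt u p := fun p hp => (hsm p hp).continuousAt
  have hcchi : ∀ p ∈ B n 2, ContinuousAt (fun q => chi k e (u q)) p := fun p hp =>
    ((chi_smooth k e).continuous.continuousAt).comp (hcu p hp)
  have hcw : ∀ p ∈ B n 2, ContinuousAt (fun q => wgt k e (u q)) p := fun p hp =>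
    ((wgt_cont k e).continuousAt).comp (hcu p hp)
  have hI1 : Integrable (fun p => ∑ i, pd i φ p * (chi k e (u p) * gr u p ^ (n - 2) * pd i u p)) := by
    refine integrable_finsetSum _ fun i _ => ?_
    refine integrable_pd_mul (U := B n 2) hL hφc (hφt.trans hBR2) (fun p hp => ?_) i
    exact ((hcchi p hp).mul ((hcgr p hp).pow _)).mul (smooth_pd (hsm p hp) i).continuousAt
  have hI2 : Integrable (fun p => φ p * (wgt k e (u p) * gr u p ^ n)) := by
    refine integrable_mul_of hφ.continuous hφc (fun p hp => ?_)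
    have hpB := hBR2 (hφt hp)
    exact (hcw p hpB).mul ((hcgr p hpB).pow _)
  have hI3 : Integrable (fun p => φ p * chi k e (u p) *
      (gr u p ^ (n - 2) * Real.exp (2 * u p))) := by
    refine integrable_mul_of hψ.continuous hψc (fun p hp => ?_)
    have hpB := hBR2 (hψt hp)
    have h1 : ContinuousAt (fun q => Real.exp (2 * u q)) p :=
      Real.continuous_exp.continuousAt.comp (continuousAt_const.mul (hcu p hpB))
    exact ((hcgr p hpB).pow _).mul h1
  rw [integral_congr_ae (Eventually.of_forall hid), integral_sub hI1 hI2] at key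
  -- first bound
  have hgr32 : ContinuousOn (fun p => 4 * e * (c / (R - r)) * gr u p ^ (n - 1)) (Bc n 2) :=
    continuousOn_const.mul (hD.cgr.pow _)
  have b1 : ∫ p, ∑ i, pd i φ p * (chi k e (u p) * gr u p ^ (n - 2) * pd i u p) ≤
      4 * e * (c / (R - r)) * G := by
    have h0 : ∀ p, p ∉ B n (3 / 2) →
        ∑ i, pd i φ p * (chi k e (u p) * gr u p ^ (n - 2) * pd i u p) = 0 := by
      intro p hp
      refine Finset.sum_eq_zero fun i _ => ?_
      rw [pd_zero_off (fun hq => hp (hBR (hφt hq))) i, zero_mul]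
    rw [← setIntegral_eq_integral_of_forall_compl_eq_zero h0]
    have h1 : ∫ p in B n (3 / 2), ∑ i, pd i φ p * (chi k e (u p) * gr u p ^ (n - 2) * pd i u p) ≤
        ∫ p in B n (3 / 2), 4 * e * (c / (R - r)) * gr u p ^ (n - 1) := by
      refine setIntegral_mono_on hI1.integrableOn (integrableOn_of hgr32 hB32)
        (measurableSet_B _) fun p _ => ?_
      have h2 : ∑ i, pd i φ p * (chi k e (u p) * gr u p ^ (n - 2) * pd i u p) =
          chi k e (u p) * gr u p ^ (n - 2) * ∑ i, pd i φ p * pd i u p := by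
        rw [Finset.mul_sum]
        refine Finset.sum_congr rfl fun i _ => ?_
        ring
      have h3 : ∑ i, pd i φ p * pd i u p ≤ c / (R - r) * gr u p :=
        (le_abs_self _).trans ((abs_inner_le φ u p).trans
          (mul_le_mul_of_nonneg_right (hφg p) (gr_nonneg u p)))
      have h4 : 0 ≤ chi k e (u p) * gr u p ^ (n - 2) :=
        mul_nonneg (chi_nonneg k he _) (pow_nonneg (gr_nonneg u p) _)
      have h5 : 0 ≤ c / (R - r) * gr u p :=
        mul_nonneg (div_nonneg (by linarith) hRr.le) (gr_nonneg u p)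
      have h6 : gr u p ^ (n - 1) = gr u p ^ (n - 2) * gr u p := by
        rw [← pow_succ]
        congr 1
        omega
      rw [h2, h6]
      calc chi k e (u p) * gr u p ^ (n - 2) * ∑ i, pd i φ p * pd i u p
          ≤ chi k e (u p) * gr u p ^ (n - 2) * (c / (R - r) * gr u p) :=
            mul_le_mul_of_nonneg_left h3 h4
        _ ≤ 4 * e * gr u p ^ (n - 2) * (c / (R - r) * gr u p) :=
            mul_le_mul_of_nonneg_right
              (mul_le_mul_of_nonneg_right (chi_le k he _) (pow_nonneg (gr_nonneg u p) _)) h5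
        _ = 4 * e * (c / (R - r)) * (gr u p ^ (n - 2) * gr u p) := by ring
    refine h1.trans ?_
    rw [integral_const_mul]
    refine mul_le_mul_of_nonneg_left (hG hD hlam) ?_
    exact mul_nonneg (by linarith) (div_nonneg (by linarith) hRr.le)
  -- second bound
  have hexp : ContinuousOn (fun p => Real.exp (2 * u p) * gr u p ^ (n - 2)) (Bc n 2) :=
    (Real.continuous_exp.comp_continuousOn (continuousOn_const.mul hD.cu)).mul (hD.cgr.pow _)
  have b2 : ∫ p, φ p * chi k e (u p) * (gr u p ^ (n - 2) * Real.exp (2 * u p)) ≤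
      4 * e * ∫ p in B n R, Real.exp (2 * u p) * gr u p ^ (n - 2) := by
    have h0 : ∀ p, p ∉ B n R →
        φ p * chi k e (u p) * (gr u p ^ (n - 2) * Real.exp (2 * u p)) = 0 := by
      intro p hp
      rw [image_eq_zero_of_notMem_tsupport (fun hq => hp (hφt hq)), zero_mul, zero_mul]
    rw [← setIntegral_eq_integral_of_forall_compl_eq_zero h0, ← integral_const_mul]
    refine setIntegral_mono_on hI3.integrableOn
      ((integrableOn_of hexp hBR2).const_mul _) (measurableSet_B _) fun p _ => ?_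
    have h1 : φ p * chi k e (u p) ≤ 1 * (4 * e) :=
      mul_le_mul (hφ1 p) (chi_le k he _) (chi_nonneg k he _) zero_le_one
    have h2 : 0 ≤ gr u p ^ (n - 2) * Real.exp (2 * u p) :=
      mul_nonneg (pow_nonneg (gr_nonneg u p) _) (Real.exp_pos _).le
    calc φ p * chi k e (u p) * (gr u p ^ (n - 2) * Real.exp (2 * u p))
        ≤ 1 * (4 * e) * (gr u p ^ (n - 2) * Real.exp (2 * u p)) :=
          mul_le_mul_of_nonneg_right h1 h2
      _ = 4 * e * (Real.exp (2 * u p) * gr u p ^ (n - 2)) := by ring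
  have hIR0 : 0 ≤ ∫ p in B n R, Real.exp (2 * u p) * gr u p ^ (n - 2) :=
    setIntegral_nonneg (measurableSet_B _) fun p _ =>
      mul_nonneg (Real.exp_pos _).le (pow_nonneg (gr_nonneg u p) _)
  have b3 : lam * ∫ p, φ p * chi k e (u p) * (gr u p ^ (n - 2) * Real.exp (2 * u p)) ≤
      4 * e * (|Lam| * ∫ p in B n R, Real.exp (2 * u p) * gr u p ^ (n - 2)) := by
    have h1 := mul_le_mul_of_nonneg_left b2 hD.lam0
    have h2 : lam * ∫ p in B n R, Real.exp (2 * u p) * gr u p ^ (n - 2) ≤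
        |Lam| * ∫ p in B n R, Real.exp (2 * u p) * gr u p ^ (n - 2) :=
      mul_le_mul_of_nonneg_right (hlam.trans (le_abs_self _)) hIR0
    have h3 := mul_le_mul_of_nonneg_left h2 (by linarith : (0 : ℝ) ≤ 4 * e)
    linarith
  -- left side
  have hBr : B n r ⊆ B n 2 := B_mono (by linarith) (by linarith)
  have hA2 : B n r ∩ {p | k ≤ u p ∧ u p ≤ k + e} ⊆ B n 2 := Set.inter_subset_left.trans hBr
  have hgn : ContinuousOn (fun p => gr u p ^ n) (Bc n 2) := hD.cgr.pow _
  have b4 : 1 / 2 * ∫ p in B n r ∩ {p | k ≤ u p ∧ u p ≤ k + e}, gr u p ^ n ≤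
      ∫ p, φ p * (wgt k e (u p) * gr u p ^ n) := by
    rw [← integral_const_mul]
    have h1 : ∫ p in B n r ∩ {p | k ≤ u p ∧ u p ≤ k + e}, 1 / 2 * gr u p ^ n ≤
        ∫ p in B n r ∩ {p | k ≤ u p ∧ u p ≤ k + e}, φ p * (wgt k e (u p) * gr u p ^ n) := by
      refine setIntegral_mono_on ((integrableOn_of hgn hA2).const_mul _) hI2.integrableOn
        (meas_layer hD hBr k e) fun p hp => ?_
      rw [hφr p (B_subset_Bc r hp.1), one_mul]
      exact mul_le_mul_of_nonneg_right (wgt_half he hp.2.1 hp.2.2) (pow_nonneg (gr_nonneg u p) _)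
    refine h1.trans (setIntegral_le_integral hI2 (Eventually.of_forall fun p => ?_))
    exact mul_nonneg (hφ0 p) (mul_nonneg (wgt_nonneg _ _ _) (pow_nonneg (gr_nonneg u p) _))
  set I := ∫ p in B n R, Real.exp (2 * u p) * gr u p ^ (n - 2) with hI
  set J := ∫ p in B n r ∩ {p | k ≤ u p ∧ u p ≤ k + e}, gr u p ^ n with hJ
  have hfin : J ≤ 8 * e * (c / (R - r) * G + |Lam| * I) := by nlinarith
  refine hfin.trans ?_
  have hx : 0 ≤ 1 / (R - r) := by positivity
  have e1 : c / (R - r) * G = c * G * (1 / (R - r)) := by ring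
  have hcG : 0 ≤ c * G := mul_nonneg (by linarith) (by linarith)
  have hLa := abs_nonneg Lam
  have h1 : c / (R - r) * G + |Lam| * I ≤ (c * G + |Lam|) * (1 / (R - r) + I) := by
    rw [e1]
    nlinarith [mul_nonneg hLa hx, mul_nonneg hcG hIR0]
  have h2 := mul_le_mul_of_nonneg_left h1 (by linarith : (0 : ℝ) ≤ 8 * e)
  linarith

end

end Pool.Agent.Helper50.CF
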