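import Pool.Agent.Helper50.CF.Decay

/-! # CF-9: summation over the layers

PROOF. `K₀` from `exists_decay`, `k_j = log (K₀/(R-r)) + j h`. `u` is bounded above on `Bc n 2`, so
`u < k_J` on `B n r` for some `J` (`h ≥ 1`). Let `A₀ = B n r ∩ {u < k₀}`,
`A_j = B n r ∩ {k_j ≤ u ≤ k_(j+1)}` for `j < J`; they cover `B n r`. On `A₀`:
`e^{au} gr^(n-a) ≤ e^{a k₀} (1 + gr^(n-1))`, `e^{a k₀} = (K₀/(R-r))^a`. On `A_j`: `holder` with
`x = h^n/K`, `y = (1/2)^j`: `≤ (h^n)^((n-a)/n) ((1/2)^(a/n))^j = h^(n-a) q^j`,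
`q = (1/2)^(a/n) ≤ (1/2)^(1/n) < 1` (`x ≤ h^n` as `K ≥ 1`). Sum of the geometric series:
`≤ h^(n-a)/(1 - (1/2)^(1/n))`. Take `K ≥ K₀^n (1 + β)`, `K ≥ 1/(1 - (1/2)^(1/n))`, `K ≥ K₀`,
`β = volume of B n (3/2)`. (The induction on `J` may use the sets `B n r ∩ {u < k_j}`.) -/

namespace Pool.Agent.Helper50.CF

open scoped ContDiff Topology
open Pool.Agent.Helper49.Ric Pool.Agent.Helper73.HB MeasureTheory Filter

noncomputable section

variable {n : ℕ} {S lam : ℝ} {Ω : Set (Fin n → ℝ)} {u : (Fin n → ℝ) → ℝ} {p : Fin n → ℝ}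

private theorem pow_le_one_add {x : ℝ} (hx : 0 ≤ x) {m l : ℕ} (hml : m ≤ l) : x ^ m ≤ 1 + x ^ l := by
  rcases le_total x 1 with h1 | h1
  · have h2 : x ^ m ≤ 1 := pow_le_one₀ hx h1
    have h3 : 0 ≤ x ^ l := pow_nonneg hx l
    linarith
  · have h2 : x ^ m ≤ x ^ l := pow_le_pow_right₀ h1 hml
    linarith

private theorem meas_lt (hu : ContinuousOn u (Bc n 2)) {r : ℝ} (h0 : 0 ≤ r) (hr : r < 2) (k : ℝ) :
    MeasurableSet (B n r ∩ {p | u p < k}) := by
  have h1 : ContinuousOn u (B n r) := hu.mono ((B_subset_Bc r).trans (Bc_mono h0 hr.le))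
  exact (h1.isOpen_inter_preimage (isOpen_B r) isOpen_Iio).measurableSet

private theorem meas_gt (hu : ContinuousOn u (Bc n 2)) {r : ℝ} (h0 : 0 ≤ r) (hr : r < 2) (k : ℝ) :
    MeasurableSet (B n r ∩ {p | k < u p}) := by
  have h1 : ContinuousOn u (B n r) := hu.mono ((B_subset_Bc r).trans (Bc_mono h0 hr.le))
  exact (h1.isOpen_inter_preimage (isOpen_B r) isOpen_Ioi).measurableSet

private theorem meas_ge (hu : ContinuousOn u (Bc n 2)) {r : ℝ} (h0 : 0 ≤ r) (hr : r < 2) (k : ℝ) :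
    MeasurableSet (B n r ∩ {p | k ≤ u p}) := by
  have h1 : B n r ∩ {p | k ≤ u p} = B n r \ (B n r ∩ {p | u p < k}) := by
    ext p
    simp only [Set.mem_inter_iff, Set.mem_ofPred_eq, Set.mem_sdiff, not_and, not_lt]
    tauto
  rw [h1]
  exact (measurableSet_B r).diff (meas_lt hu h0 hr k)

private theorem meas_icc (hu : ContinuousOn u (Bc n 2)) {r : ℝ} (h0 : 0 ≤ r) (hr : r < 2)
    (k k' : ℝ) : MeasurableSet (B n r ∩ {p | k ≤ u p ∧ u p ≤ k'}) := by
  have h1 : B n r ∩ {p | k ≤ u p ∧ u p ≤ k'} =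
      (B n r ∩ {p | k ≤ u p}) \ (B n r ∩ {p | k' < u p}) := by
    ext p
    simp only [Set.mem_inter_iff, Set.mem_ofPred_eq, Set.mem_sdiff, not_and, not_lt]
    tauto
  rw [h1]
  exact (meas_ge hu h0 hr k).diff (meas_gt hu h0 hr k')

/-- one layer -/
private theorem layer_le {K₀ K : ℝ} (hK0 : 1 ≤ K) (hd : Data n S lam Ω u)
    {r R : ℝ} (hr1 : 1 ≤ r) (hrR : r < R) (hR : R ≤ 3 / 2) {h : ℝ} (hh : 1 ≤ h)
    (hE : ∀ k : ℝ, ∫ p in B n R ∩ {p | k ≤ u p ∧ u p ≤ k + h}, gr u p ^ n ≤ h ^ n / K)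
    (hD : ∀ j : ℕ, ∫ p in B n r ∩ {p | Real.log (K₀ / (R - r)) + j * h ≤ u p},
          Real.exp (n * u p) ≤ (1 / 2) ^ j)
    {a : ℕ} (ha : 1 ≤ a) (han : a < n) (j : ℕ) :
    ∫ p in B n r ∩ {p | Real.log (K₀ / (R - r)) + j * h ≤ u p ∧
        u p ≤ Real.log (K₀ / (R - r)) + j * h + h},
      Real.exp (a * u p) * gr u p ^ (n - a) ≤
        h ^ (n - a) * (((1 : ℝ) / 2) ^ ((a : ℝ) / n)) ^ j := by
  have hr0 : (0 : ℝ) ≤ r := by linarith
  have hr2 : r < 2 := by linarith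
  have hn0 : (0 : ℝ) < n := by
    have := hd.hn
    exact_mod_cast (by omega : 0 < n)
  have hsub : B n r ⊆ B n 2 := B_mono hr0 hr2.le
  have hR0 : (0 : ℝ) ≤ R := by linarith
  have hR2 : R < 2 := by linarith
  set k := Real.log (K₀ / (R - r)) + j * h with hk
  have hx : ∫ p in B n r ∩ {p | k ≤ u p ∧ u p ≤ k + h}, gr u p ^ n ≤ h ^ n := by
    refine (integral_mono_set (hd.cgr.pow n) (Set.inter_subset_left.trans (B_mono hR0 hR2.le))
      (Set.inter_subset_inter_left _ (B_mono hr0 hrR.le)) (meas_icc hd.cu hR0 hR2 k (k + h))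
      (fun p _ => pow_nonneg (gr_nonneg u p) n)).trans ?_
    refine (hE k).trans ?_
    exact div_le_self (by positivity) hK0
  have hce : ContinuousOn (fun p => Real.exp (n * u p)) (Bc n 2) :=
    Real.continuous_exp.comp_continuousOn (continuousOn_const.mul hd.cu)
  have hy : ∫ p in B n r ∩ {p | k ≤ u p ∧ u p ≤ k + h}, Real.exp (n * u p) ≤ (1 / 2) ^ j := by
    refine (integral_mono_set hce (Set.inter_subset_left.trans hsub)
      (Set.inter_subset_inter_right _ (fun p hp => hp.1)) (meas_ge hd.cu hr0 hr2 k)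
      (fun p _ => (Real.exp_pos _).le)).trans ?_
    exact hD j
  have h1 := holder hd.cu hd.cgr (Set.inter_subset_left.trans hsub)
    (meas_icc hd.cu hr0 hr2 k (k + h)) ha han hx hy
  refine h1.trans (le_of_eq ?_)
  congr 1
  · rw [← Real.rpow_natCast h n, ← Real.rpow_mul (by linarith), ← Real.rpow_natCast h (n - a)]
    congr 1
    rw [Nat.cast_sub han.le]
    field_simp
  · rw [← Real.rpow_natCast, ← Real.rpow_natCast, ← Real.rpow_mul (by norm_num),
      ← Real.rpow_mul (by norm_num), mul_comm]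

private theorem low_le {K₀ : ℝ} (hK₀ : 1 ≤ K₀) (hd : Data n S lam Ω u)
    {r R : ℝ} (hr1 : 1 ≤ r) (hrR : r < R) (hR : R ≤ 3 / 2)
    {a : ℕ} (ha : 1 ≤ a) (han : a < n) :
    ∫ p in B n r ∩ {p | u p < Real.log (K₀ / (R - r))},
      Real.exp (a * u p) * gr u p ^ (n - a) ≤
        (K₀ / (R - r)) ^ a * ((volume (B n (3 / 2))).toReal +
          ∫ p in B n (3 / 2), gr u p ^ (n - 1)) := by
  have hr0 : (0 : ℝ) ≤ r := by linarith
  have hr2 : r < 2 := by linarith
  have hc : 0 < K₀ / (R - r) := div_pos (by linarith) (by linarith)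
  have h32 : B n (3 / 2) ⊆ B n 2 := B_mono (by norm_num) (by norm_num)
  have hcF : ContinuousOn (fun p => Real.exp (a * u p) * gr u p ^ (n - a)) (Bc n 2) :=
    (Real.continuous_exp.comp_continuousOn (continuousOn_const.mul hd.cu)).mul (hd.cgr.pow _)
  have hcG : ContinuousOn (fun p => (K₀ / (R - r)) ^ a * (1 + gr u p ^ (n - 1))) (Bc n 2) :=
    continuousOn_const.mul (continuousOn_const.add (hd.cgr.pow _))
  have hsub : B n r ⊆ B n 2 := B_mono hr0 hr2.le
  have h1 : ∫ p in B n r ∩ {p | u p < Real.log (K₀ / (R - r))},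
      Real.exp (a * u p) * gr u p ^ (n - a) ≤
      ∫ p in B n r ∩ {p | u p < Real.log (K₀ / (R - r))},
        (K₀ / (R - r)) ^ a * (1 + gr u p ^ (n - 1)) := by
    refine setIntegral_mono_on (integrableOn_of hcF (Set.inter_subset_left.trans hsub))
      (integrableOn_of hcG (Set.inter_subset_left.trans hsub))
      (meas_lt hd.cu hr0 hr2 _) ?_
    intro p hp
    have hp2 : u p < Real.log (K₀ / (R - r)) := hp.2
    have h3 : Real.exp (a * u p) ≤ (K₀ / (R - r)) ^ a := by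
      rw [Real.exp_nat_mul]
      refine pow_le_pow_left₀ (Real.exp_pos _).le ?_ a
      exact (Real.le_log_iff_exp_le hc).mp hp2.le
    exact mul_le_mul h3 (pow_le_one_add (gr_nonneg u p) (by omega))
      (pow_nonneg (gr_nonneg u p) _) (by positivity)
  have h2 : ∫ p in B n r ∩ {p | u p < Real.log (K₀ / (R - r))},
        (K₀ / (R - r)) ^ a * (1 + gr u p ^ (n - 1)) ≤
      ∫ p in B n (3 / 2), (K₀ / (R - r)) ^ a * (1 + gr u p ^ (n - 1)) := by
    refine integral_mono_set hcG h32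
      (Set.inter_subset_left.trans (B_mono hr0 (by linarith))) (measurableSet_B _) ?_
    intro p _
    have := pow_nonneg (gr_nonneg u p) (n - 1)
    positivity
  refine (h1.trans h2).trans (le_of_eq ?_)
  rw [integral_const_mul]
  congr 1
  have h5 : IntegrableOn (fun p => gr u p ^ (n - 1)) (B n (3 / 2)) :=
    integrableOn_of (hd.cgr.pow _) h32
  have h6 : IntegrableOn (fun _ : Fin n → ℝ => (1 : ℝ)) (B n (3 / 2)) :=
    integrableOn_const (volume_B_lt_top _).ne
  rw [integral_add h6 h5]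
  congr 1
  simp [Measure.real]

theorem exists_sum (n : ℕ) (S : ℝ) : ∃ K : ℝ, 1 ≤ K ∧
    ∀ {lam : ℝ} {Ω : Set (Fin n → ℝ)} {u : (Fin n → ℝ) → ℝ}, Data n S lam Ω u →
      ∀ r R : ℝ, 1 ≤ r → r < R → R ≤ 3 / 2 → ∀ h : ℝ, 1 ≤ h →
        (∀ k : ℝ, ∫ p in B n R ∩ {p | k ≤ u p ∧ u p ≤ k + h}, gr u p ^ n ≤ h ^ n / K) →
        ∀ a : ℕ, 1 ≤ a → a < n →
          ∫ p in B n r, Real.exp (a * u p) * gr u p ^ (n - a) ≤
            K * (1 / (R - r)) ^ a * (1 + ∫ p in B n (3 / 2), gr u p ^ (n - 1))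
              + K * h ^ (n - a) := by
  obtain ⟨K₀, hK₀, hdec⟩ := exists_decay n S
  set β : ℝ := (volume (B n (3 / 2))).toReal with hβ
  have hβ0 : 0 ≤ β := ENNReal.toReal_nonneg
  set q1 : ℝ := ((1 : ℝ) / 2) ^ ((1 : ℝ) / n) with hq1
  have hK0n : 1 ≤ K₀ ^ n := one_le_pow₀ hK₀
  have hKa : 1 ≤ K₀ ^ n * (1 + β) := by nlinarith
  have habs : 0 ≤ |1 / (1 - q1)| := abs_nonneg _
  refine ⟨K₀ ^ n * (1 + β) + K₀ + |1 / (1 - q1)|, by linarith, ?_⟩
  set K := K₀ ^ n * (1 + β) + K₀ + |1 / (1 - q1)| with hK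
  intro lam Ω u hd r R hr1 hrR hR h hh hE a ha han
  have hr0 : (0 : ℝ) ≤ r := by linarith
  have hr2 : r < 2 := by linarith
  have hn3 := hd.hn
  have hn0 : (0 : ℝ) < n := by exact_mod_cast (by omega : 0 < n)
  have hK1 : 1 ≤ K := by linarith
  have hE0 : ∀ k : ℝ, ∫ p in B n R ∩ {p | k ≤ u p ∧ u p ≤ k + h}, gr u p ^ n ≤ h ^ n / K₀ := by
    intro k
    refine (hE k).trans ?_
    exact div_le_div_of_nonneg_left (by positivity) (by linarith) (by linarith)
  have hD := hdec hd r R hr1 hrR hR h hh hE0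
  set q : ℝ := ((1 : ℝ) / 2) ^ ((a : ℝ) / n) with hq
  have hq0 : 0 ≤ q := by positivity
  have hqq : q ≤ q1 := by
    refine Real.rpow_le_rpow_of_exponent_ge (by norm_num) (by norm_num) ?_
    have : (1 : ℝ) ≤ a := by exact_mod_cast ha
    gcongr
  have hq1lt : q1 < 1 := Real.rpow_lt_one (by norm_num) (by norm_num) (by positivity)
  have hqlt : q < 1 := lt_of_le_of_lt hqq hq1lt
  have hsub : B n r ⊆ B n 2 := B_mono hr0 hr2.le
  have hcF : ContinuousOn (fun p => Real.exp (a * u p) * gr u p ^ (n - a)) (Bc n 2) :=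
    (Real.continuous_exp.comp_continuousOn (continuousOn_const.mul hd.cu)).mul (hd.cgr.pow _)
  set c0 := Real.log (K₀ / (R - r)) with hc0
  set I := ∫ p in B n (3 / 2), gr u p ^ (n - 1) with hI
  have hI0 : 0 ≤ I := integral_nonneg fun p => pow_nonneg (gr_nonneg u p) _
  have key : ∀ J : ℕ, ∫ p in B n r ∩ {p | u p < c0 + J * h},
      Real.exp (a * u p) * gr u p ^ (n - a) ≤
        (K₀ / (R - r)) ^ a * (β + I) + h ^ (n - a) * ∑ j ∈ Finset.range J, q ^ j := by
    intro J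
    induction J with
    | zero =>
      simp only [Nat.cast_zero, zero_mul, add_zero, Finset.range_zero, Finset.sum_empty, mul_zero]
      exact low_le hK₀ hd hr1 hrR hR ha han
    | succ J ih =>
      have hcast : c0 + ((J + 1 : ℕ) : ℝ) * h = c0 + J * h + h := by
        push_cast
        ring
      have hun : B n r ∩ {p | u p < c0 + ((J + 1 : ℕ) : ℝ) * h} =
          (B n r ∩ {p | u p < c0 + J * h}) ∪
            ((B n r ∩ {p | u p < c0 + ((J + 1 : ℕ) : ℝ) * h}) \ (B n r ∩ {p | u p < c0 + J * h})) := by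
        refine (Set.union_sdiff_cancel ?_).symm
        intro p hp
        refine ⟨hp.1, ?_⟩
        have h1 : u p < c0 + J * h := hp.2
        change u p < c0 + ((J + 1 : ℕ) : ℝ) * h
        rw [hcast]
        linarith
      have hle : (B n r ∩ {p | u p < c0 + ((J + 1 : ℕ) : ℝ) * h}) \
          (B n r ∩ {p | u p < c0 + J * h}) ⊆
          B n r ∩ {p | c0 + J * h ≤ u p ∧ u p ≤ c0 + J * h + h} := by
        intro p hp
        have h1 : u p < c0 + ((J + 1 : ℕ) : ℝ) * h := hp.1.2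
        refine ⟨hp.1.1, ?_, ?_⟩
        · by_contra hcon
          exact hp.2 ⟨hp.1.1, not_le.mp hcon⟩
        · rw [hcast] at h1
          exact h1.le
      rw [hun, setIntegral_union Set.disjoint_sdiff_right
        ((meas_lt hd.cu hr0 hr2 _).diff (meas_lt hd.cu hr0 hr2 _))
        (integrableOn_of hcF (Set.inter_subset_left.trans hsub))
        (integrableOn_of hcF (Set.sdiff_subset.trans (Set.inter_subset_left.trans hsub)))]
      have h2 : ∫ p in (B n r ∩ {p | u p < c0 + ((J + 1 : ℕ) : ℝ) * h}) \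
          (B n r ∩ {p | u p < c0 + J * h}), Real.exp (a * u p) * gr u p ^ (n - a) ≤
          h ^ (n - a) * q ^ J := by
        refine (integral_mono_set hcF (Set.inter_subset_left.trans hsub) hle
          (meas_icc hd.cu hr0 hr2 _ _) ?_).trans
          (layer_le hK1 hd hr1 hrR hR hh hE hD ha han J)
        intro p _
        have := pow_nonneg (gr_nonneg u p) (n - a)
        positivity
      rw [Finset.sum_range_succ, mul_add]
      linarith
  obtain ⟨M, hM⟩ := (isCompact_Bc (n := n) 2).exists_bound_of_continuousOn hd.cu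
  obtain ⟨J, hJ⟩ := exists_nat_gt (M - c0)
  have hall : B n r ∩ {p | u p < c0 + J * h} = B n r := by
    refine Set.inter_eq_left.mpr ?_
    intro p hp
    have h1 : ‖u p‖ ≤ M := hM p (B_subset_Bc 2 (hsub hp))
    have h2 : u p ≤ M := (le_abs_self _).trans h1
    have h3 : (J : ℝ) ≤ J * h := le_mul_of_one_le_right (by positivity) hh
    change u p < c0 + J * h
    linarith
  have h1 := key J
  rw [hall] at h1
  have h2 : ∑ j ∈ Finset.range J, q ^ j ≤ K := by
    have h3 : ∑ j ∈ Finset.range J, q ^ j ≤ 1 / (1 - q) := by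
      rw [geom_sum_eq hqlt.ne]
      have h4 : (q ^ J - 1) / (q - 1) = (1 - q ^ J) / (1 - q) := by
        rw [← neg_sub 1 (q ^ J), ← neg_sub 1 q, neg_div_neg_eq]
      rw [h4]
      have h5 : 0 ≤ q ^ J := pow_nonneg hq0 J
      have h6 : 0 < 1 - q := by linarith
      gcongr
      linarith
    have h7 : 1 / (1 - q) ≤ 1 / (1 - q1) :=
      one_div_le_one_div_of_le (by linarith) (by linarith)
    have h8 : 1 / (1 - q1) ≤ |1 / (1 - q1)| := le_abs_self _
    linarith
  have h3 : (K₀ / (R - r)) ^ a * (β + I) ≤ K * (1 / (R - r)) ^ a * (1 + I) := by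
    have hRr : 0 < R - r := by linarith
    have h4 : (K₀ / (R - r)) ^ a = K₀ ^ a * (1 / (R - r)) ^ a := by
      rw [← mul_pow]
      congr 1
      ring
    have h5 : K₀ ^ a ≤ K₀ ^ n := pow_le_pow_right₀ hK₀ han.le
    have h6 : 0 ≤ (1 / (R - r)) ^ a := by positivity
    have h7 : β + I ≤ (1 + β) * (1 + I) := by nlinarith
    have h8 : K₀ ^ n * (1 + β) ≤ K := by linarith
    calc (K₀ / (R - r)) ^ a * (β + I) = K₀ ^ a * (1 / (R - r)) ^ a * (β + I) := by rw [h4]
      _ ≤ K₀ ^ n * (1 / (R - r)) ^ a * ((1 + β) * (1 + I)) := by gcongr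
      _ = K₀ ^ n * (1 + β) * ((1 / (R - r)) ^ a * (1 + I)) := by ring
      _ ≤ K * ((1 / (R - r)) ^ a * (1 + I)) := by gcongr
      _ = K * (1 / (R - r)) ^ a * (1 + I) := by ring
  have h9 : h ^ (n - a) * ∑ j ∈ Finset.range J, q ^ j ≤ K * h ^ (n - a) := by
    rw [mul_comm K]
    gcongr
  linarith

end

end Pool.Agent.Helper50.CF
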