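import Pool.Agent.Helper50.CF.Conf

/-! # CF-12b: the normalised data (the half `data_resc` of `Scale.lean`) -/

namespace Pool.Agent.Helper50.CF

open scoped ContDiff Topology
open Pool.Agent.Helper49.Ric Pool.Agent.Helper73.HB MeasureTheory Filter

noncomputable section

variable {n : ℕ} {S lam : ℝ} {Ω : Set (Fin n → ℝ)} {u : (Fin n → ℝ) → ℝ} {p : Fin n → ℝ}

namespace ScB

/-- partial derivatives and dilations (no differentiability is needed) -/
theorem pd_dil (F : (Fin n → ℝ) → ℝ) (a : Fin n → ℝ) (r : ℝ) (i : Fin n) (x : Fin n → ℝ) :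
    pd i (fun y => F (a + r • y)) x = r * pd i F (a + r • x) := by
  unfold pd lineDeriv
  have h1 : (fun t : ℝ => F (a + r • (x + t • (Pi.single i 1 : Fin n → ℝ)))) =
      fun t : ℝ => (fun s : ℝ => F (a + r • x + s • (Pi.single i 1 : Fin n → ℝ))) (r * t) := by
    funext t
    simp only [smul_add, smul_smul, add_assoc]
  rw [h1]
  have h2 := deriv_comp_mul_left r
    (fun s : ℝ => F (a + r • x + s • (Pi.single i 1 : Fin n → ℝ))) 0
  rw [h2, mul_zero, smul_eq_mul]

theorem pd_add_c (F : (Fin n → ℝ) → ℝ) (c : ℝ) (i : Fin n) (x : Fin n → ℝ) :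
    pd i (fun y => F y + c) x = pd i F x := by
  unfold pd lineDeriv
  simp

theorem pd_cmul (F : (Fin n → ℝ) → ℝ) (c : ℝ) (i : Fin n) (x : Fin n → ℝ) :
    pd i (fun y => c * F y) x = c * pd i F x := by
  unfold pd lineDeriv
  exact deriv_const_mul_field c

/-- the dilated function plus a constant -/
def dil (u : (Fin n → ℝ) → ℝ) (a : Fin n → ℝ) (r c : ℝ) (x : Fin n → ℝ) : ℝ :=
  u (a + r • x) + c

theorem pd_w (u : (Fin n → ℝ) → ℝ) (a : Fin n → ℝ) (r c : ℝ) (i : Fin n) :
    pd i (dil u a r c) = fun x => r * pd i u (a + r • x) := by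
  funext x
  unfold dil
  rw [pd_add_c (fun x => u (a + r • x)) c, pd_dil]

theorem pd_pd_w (u : (Fin n → ℝ) → ℝ) (a : Fin n → ℝ) (r c : ℝ) (i j : Fin n)
    (x : Fin n → ℝ) :
    pd i (pd j (dil u a r c)) x = r ^ 2 * pd i (pd j u) (a + r • x) := by
  rw [pd_w, pd_cmul, pd_dil]
  ring

theorem lp_w (u : (Fin n → ℝ) → ℝ) (a : Fin n → ℝ) (r c : ℝ) (x : Fin n → ℝ) :
    lp (dil u a r c) x = r ^ 2 * lp u (a + r • x) := by
  unfold lp
  rw [Finset.mul_sum]
  exact Finset.sum_congr rfl fun i _ => pd_pd_w u a r c i i x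

theorem gs_w (u : (Fin n → ℝ) → ℝ) (a : Fin n → ℝ) (r c : ℝ) (x : Fin n → ℝ) :
    gs (dil u a r c) x = r ^ 2 * gs u (a + r • x) := by
  unfold gs
  rw [Finset.mul_sum]
  refine Finset.sum_congr rfl fun i _ => ?_
  rw [pd_w]
  ring

theorem hq_w (u : (Fin n → ℝ) → ℝ) (a : Fin n → ℝ) (r c : ℝ) (x : Fin n → ℝ) :
    hq (dil u a r c) x = r ^ 4 * hq u (a + r • x) := by
  unfold hq
  rw [Finset.mul_sum]
  refine Finset.sum_congr rfl fun i _ => ?_
  rw [Finset.mul_sum]
  refine Finset.sum_congr rfl fun j _ => ?_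
  rw [pd_pd_w, pd_w, pd_w]
  ring

/-- change of variables `y = a + r x` -/
theorem cov (G : (Fin n → ℝ) → ℝ) (a : Fin n → ℝ) {r : ℝ} (hr : 0 < r) :
    ∫ x, G (a + r • x) = (r ^ n)⁻¹ * ∫ y, G y := by
  have h1 := Measure.integral_comp_smul (volume : Measure (Fin n → ℝ)) (fun y => G (a + y)) r
  rw [h1, integral_add_left_eq_self (fun y => G y) a]
  simp only [Module.finrank_fintype_fun_eq_card, Fintype.card_fin, smul_eq_mul]
  rw [abs_of_pos (inv_pos.mpr (pow_pos hr n))]

theorem mem_eball_iff {a : Fin n → ℝ} {r : ℝ} (hr : 0 < r) (x : Fin n → ℝ) :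
    a + r • x ∈ eball a (2 * r) ↔ x ∈ B n 2 := by
  unfold eball B
  simp only [Set.mem_setOf_eq, Pi.add_apply, Pi.smul_apply, smul_eq_mul, add_sub_cancel_left]
  have h1 : ∑ i, (r * x i) ^ 2 = r ^ 2 * ∑ i, x i ^ 2 := by
    rw [Finset.mul_sum]
    exact Finset.sum_congr rfl fun i _ => by ring
  rw [h1]
  have h2 : (2 * r) ^ 2 = r ^ 2 * 2 ^ 2 := by ring
  rw [h2]
  exact mul_lt_mul_iff_right₀ (by positivity)

theorem mem_ecball_of {a : Fin n → ℝ} {r : ℝ} (x : Fin n → ℝ) (hx : x ∈ Bc n 2) :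
    a + r • x ∈ ecball a (2 * r) := by
  unfold ecball
  unfold Bc at hx
  simp only [Set.mem_setOf_eq, Pi.add_apply, Pi.smul_apply, smul_eq_mul, add_sub_cancel_left]
    at hx ⊢
  have h1 : ∑ i, (r * x i) ^ 2 = r ^ 2 * ∑ i, x i ^ 2 := by
    rw [Finset.mul_sum]
    exact Finset.sum_congr rfl fun i _ => by ring
  rw [h1]
  have h2 : (2 * r) ^ 2 = r ^ 2 * 2 ^ 2 := by ring
  rw [h2]
  exact mul_le_mul_of_nonneg_left hx (by positivity)

end ScB

open ScB

theorem data_resc_aux (hn : 3 ≤ n) (hΩ : IsOpen Ω) (hu : ∀ p ∈ Ω, ContDiffAt ℝ ∞ u p)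
    {a : Fin n → ℝ} {r c V : ℝ} (hr : 0 < r) (hV : 0 < V)
    (hVd : V = gvol (conf u) (eball a (2 * r)))
    (hc : c = Real.log r - Real.log V / n)
    (hs : ecball a (2 * r) ⊆ Ω) (hlam : 0 ≤ lam)
    (hR : ∀ p ∈ eball a (2 * r), ∀ v : Fin n → ℝ,
      -lam * ∑ i, ∑ j, conf u p i j * v i * v j ≤ ∑ i, ∑ j, ricci (conf u) i j p * v i * v j)
    (hS : Sobolev (conf u) (eball a (2 * r)) S) :
    Data n (max S 1) (lam * V ^ (2 / n : ℝ)) {x | a + r • x ∈ Ω} (dil u a r c) := by
  have hn0 : (0 : ℝ) < n := by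
    have : (3 : ℝ) ≤ n := by exact_mod_cast hn
    linarith
  have hn2 : (0 : ℝ) < (n : ℝ) - 2 := by
    have : (3 : ℝ) ≤ n := by exact_mod_cast hn
    linarith
  have hexp : ∀ s : ℝ, Real.exp (s * c) = r ^ s * V ^ (-(s / n)) := by
    intro s
    rw [Real.rpow_def_of_pos hr, Real.rpow_def_of_pos hV, ← Real.exp_add, hc]
    congr 1
    field_simp
    ring
  have hcont : Continuous fun x : Fin n → ℝ => a + r • x := by fun_prop
  have he2 : lam * V ^ (2 / n : ℝ) * Real.exp (2 * c) = lam * r ^ 2 := by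
    rw [hexp, Real.rpow_neg hV.le, Real.rpow_ofNat]
    have h1 : V ^ (2 / n : ℝ) ≠ 0 := (Real.rpow_pos_of_pos hV _).ne'
    field_simp
  have hlw : ∀ x, lam * V ^ (2 / n : ℝ) * Real.exp (2 * dil u a r c x) =
      r ^ 2 * (lam * Real.exp (2 * u (a + r • x))) := by
    intro x
    unfold dil
    rw [mul_add, Real.exp_add]
    calc lam * V ^ (2 / n : ℝ) * (Real.exp (2 * u (a + r • x)) * Real.exp (2 * c))
        = lam * V ^ (2 / n : ℝ) * Real.exp (2 * c) * Real.exp (2 * u (a + r • x)) := by ring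
      _ = r ^ 2 * (lam * Real.exp (2 * u (a + r • x))) := by rw [he2]; ring
  have hsub : ∀ x ∈ B n 2, a + r • x ∈ Ω := fun x hx =>
    hs (mem_ecball_of x (B_subset_Bc 2 hx))
  refine ⟨hn, le_max_right _ _, hΩ.preimage hcont, fun x hx => hs (mem_ecball_of x hx), ?_, ?_,
    ?_, ?_, ?_, ?_⟩
  · intro x hx
    unfold dil
    refine ContDiffAt.add ?_ contDiffAt_const
    refine ContDiffAt.comp x (g := u) (hu _ hx) ?_
    fun_prop
  · positivity
  · intro x hx
    have h1 := ric_P1 hn (hu _ (hsub x hx)) hlam (hR _ ((mem_eball_iff hr x).mpr hx))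
    rw [lp_w, gs_w, hlw]
    have h2 := mul_le_mul_of_nonneg_left h1 (sq_nonneg r)
    linarith
  · intro x hx
    have h1 := ric_P2 hn (hu _ (hsub x hx)) hlam (hR _ ((mem_eball_iff hr x).mpr hx))
    rw [lp_w, gs_w, hq_w, hlw]
    have h2 := mul_le_mul_of_nonneg_left h1 (by positivity : (0 : ℝ) ≤ r ^ 4)
    calc ((n : ℝ) - 2) * (r ^ 4 * hq u (a + r • x)) + r ^ 2 * lp u (a + r • x) *
          (r ^ 2 * gs u (a + r • x))
        = r ^ 4 * (((n : ℝ) - 2) * hq u (a + r • x) + lp u (a + r • x) * gs u (a + r • x)) := by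
          ring
      _ ≤ r ^ 4 * (lam * Real.exp (2 * u (a + r • x)) * gs u (a + r • x)) := h2
      _ = r ^ 2 * (lam * Real.exp (2 * u (a + r • x))) * (r ^ 2 * gs u (a + r • x)) := by ring
  · intro f hf hfc hft
    -- the transported function
    set F : (Fin n → ℝ) → ℝ := fun y => f (r⁻¹ • (y - a)) with hF
    have hFf : ∀ x, F (a + r • x) = f x := by
      intro x
      simp only [hF, add_sub_cancel_left, smul_smul, inv_mul_cancel₀ hr.ne', one_smul]
    have hFs : ContDiff ℝ ∞ F := by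
      have : ContDiff ℝ ∞ (fun y : Fin n → ℝ => r⁻¹ • (y - a)) := by fun_prop
      exact hf.comp this
    -- the affine homeomorphism
    let e : (Fin n → ℝ) ≃ₜ (Fin n → ℝ) :=
      (Homeomorph.subRight a).trans (Homeomorph.smulOfNeZero r⁻¹ (inv_ne_zero hr.ne'))
    have he : F = f ∘ e := by
      funext y
      rfl
    have hFc : HasCompactSupport F := by
      rw [he]
      exact hfc.comp_homeomorph e
    have hFt : tsupport F ⊆ eball a (2 * r) := by
      intro y hy
      rw [he, tsupport_comp_eq_preimage] at hy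
      have h1 : e y ∈ B n 2 := hft hy
      have h2 : a + r • (e y) = y := by
        change a + r • (r⁻¹ • (y - a)) = y
        rw [smul_smul, mul_inv_cancel₀ hr.ne', one_smul]
        abel
      rw [← h2]
      exact (mem_eball_iff hr _).mpr h1
    have key := hS F hFs hFc hFt
    -- the left side
    have hL : ∫ p, |f p| ^ (2 * n / (n - 2) : ℝ) * Real.exp (n * dil u a r c p) =
        V⁻¹ * ∫ p, |F p| ^ (2 * n / (n - 2) : ℝ) * Real.sqrt (conf u p).det := by
      obtain ⟨G, hG⟩ : ∃ G : (Fin n → ℝ) → ℝ, G = fun y => |F y| ^ (2 * n / (n - 2) : ℝ) *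
            Real.sqrt (conf u y).det := ⟨_, rfl⟩
      have h1 : ∀ p, |f p| ^ (2 * n / (n - 2) : ℝ) * Real.exp (n * dil u a r c p) =
          Real.exp (n * c) * G (a + r • p) := by
        intro p
        rw [hG]
        simp only [dens_conf, hFf]
        unfold dil
        rw [mul_add, Real.exp_add]
        ring
      rw [integral_congr_ae (Eventually.of_forall h1), integral_const_mul, cov G a hr, hexp, ← hG]
      have h2 : r ^ (n : ℝ) = r ^ n := Real.rpow_natCast r n
      rw [h2, Real.rpow_neg hV.le, div_self hn0.ne', Real.rpow_one]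
      have h3 : r ^ n ≠ 0 := (pow_pos hr n).ne'
      field_simp
    have hRt : ∫ p, (∑ i, pd i f p ^ 2) * Real.exp ((n - 2) * dil u a r c p) =
        V ^ (-((n - 2) / n : ℝ)) * ∫ p, (∑ i, ∑ j, (conf u p)⁻¹ i j * pd i F p * pd j F p) *
          Real.sqrt (conf u p).det := by
      have h0 : ∀ y, (∑ i, ∑ j, (conf u y)⁻¹ i j * pd i F y * pd j F y) *
          Real.sqrt (conf u y).det = (∑ i, pd i F y ^ 2) * Real.exp ((n - 2) * u y) := by
        intro y
        rw [inv_conf, dens_conf]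
        have h1 : ∀ i, ∑ j, (Real.exp (-(2 * u y)) • (1 : Matrix (Fin n) (Fin n) ℝ)) i j *
            pd i F y * pd j F y = Real.exp (-(2 * u y)) * pd i F y ^ 2 := by
          intro i
          rw [Finset.sum_eq_single i]
          · simp only [Matrix.smul_apply, Matrix.one_apply_eq, smul_eq_mul]
            ring
          · intro j _ hj
            simp [Matrix.one_apply_ne' hj]
          · intro h
            exact absurd (Finset.mem_univ i) h
        rw [Finset.sum_congr rfl fun i _ => h1 i, ← Finset.mul_sum]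
        have h2 : Real.exp (((n : ℝ) - 2) * u y) = Real.exp (-(2 * u y)) * Real.exp (n * u y) := by
          rw [← Real.exp_add]
          congr 1
          ring
        rw [h2]
        ring
      simp only [h0]
      have hpd : ∀ i p, pd i f p = r * pd i F (a + r • p) := by
        intro i p
        have h1 : f = fun x => F (a + r • x) := by
          funext x
          exact (hFf x).symm
        rw [← pd_dil F a r i p, ← h1]
      obtain ⟨G, hG⟩ : ∃ G : (Fin n → ℝ) → ℝ, G = fun y => (∑ i, pd i F y ^ 2) *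
            Real.exp ((n - 2) * u y) := ⟨_, rfl⟩
      have h1 : ∀ p, (∑ i, pd i f p ^ 2) * Real.exp ((n - 2) * dil u a r c p) =
          Real.exp (((n : ℝ) - 2) * c) * r ^ 2 * G (a + r • p) := by
        intro p
        rw [hG]
        have h2 : ∑ i, pd i f p ^ 2 = r ^ 2 * ∑ i, pd i F (a + r • p) ^ 2 := by
          rw [Finset.mul_sum]
          refine Finset.sum_congr rfl fun i _ => ?_
          rw [hpd]
          ring
        rw [h2]
        unfold dil
        rw [mul_add, Real.exp_add]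
        ring
      rw [integral_congr_ae (Eventually.of_forall h1), integral_const_mul, cov G a hr, hexp, ← hG]
      have h2 : r ^ ((n : ℝ) - 2) * r ^ 2 = r ^ n := by
        rw [← Real.rpow_natCast r 2, ← Real.rpow_add hr, ← Real.rpow_natCast r n]
        congr 1
        push_cast
        ring
      have h3 : r ^ n ≠ 0 := (pow_pos hr n).ne'
      calc r ^ ((n : ℝ) - 2) * V ^ (-(((n : ℝ) - 2) / n)) * r ^ 2 *
            ((r ^ n)⁻¹ * ∫ y, G y)
          = (r ^ ((n : ℝ) - 2) * r ^ 2) * (r ^ n)⁻¹ * (V ^ (-(((n : ℝ) - 2) / n)) *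
            ∫ y, G y) := by ring
        _ = _ := by rw [h2, mul_inv_cancel₀ h3, one_mul]
    rw [hL, hRt]
    have hI0 : 0 ≤ ∫ p, |F p| ^ (2 * n / (n - 2) : ℝ) * Real.sqrt (conf u p).det :=
      integral_nonneg fun p => mul_nonneg (Real.rpow_nonneg (abs_nonneg _) _) (Real.sqrt_nonneg _)
    have hJ0 : 0 ≤ ∫ p, (∑ i, ∑ j, (conf u p)⁻¹ i j * pd i F p * pd j F p) *
        Real.sqrt (conf u p).det := by
      refine integral_nonneg fun p => mul_nonneg ?_ (Real.sqrt_nonneg _)
      rw [inv_conf]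
      refine Finset.sum_nonneg fun i _ => ?_
      rw [Finset.sum_eq_single i]
      · simp only [Matrix.smul_apply, Matrix.one_apply_eq, smul_eq_mul, mul_one]
        have h1 : 0 ≤ pd i F p * pd i F p := mul_self_nonneg _
        have h2 : 0 ≤ Real.exp (-(2 * u p)) * (pd i F p * pd i F p) :=
          mul_nonneg (Real.exp_pos _).le h1
        linarith
      · intro j _ hj
        simp [Matrix.one_apply_ne' hj]
      · intro h
        exact absurd (Finset.mem_univ i) h
    rw [Real.mul_rpow (inv_nonneg.mpr hV.le) hI0, Real.inv_rpow hV.le, ← Real.rpow_neg hV.le]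
    have hVp : 0 ≤ V ^ (-((n - 2) / n : ℝ)) := Real.rpow_nonneg hV.le _
    calc V ^ (-((n - 2) / n : ℝ)) *
          (∫ p, |F p| ^ (2 * n / (n - 2) : ℝ) * Real.sqrt (conf u p).det) ^ ((n - 2) / n : ℝ)
        ≤ V ^ (-((n - 2) / n : ℝ)) * (S * ∫ p, (∑ i, ∑ j, (conf u p)⁻¹ i j * pd i F p * pd j F p) *
          Real.sqrt (conf u p).det) := mul_le_mul_of_nonneg_left key hVp
      _ ≤ V ^ (-((n - 2) / n : ℝ)) * (max S 1 * ∫ p, (∑ i, ∑ j, (conf u p)⁻¹ i j * pd i F p *
          pd j F p) * Real.sqrt (conf u p).det) :=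
        mul_le_mul_of_nonneg_left (mul_le_mul_of_nonneg_right (le_max_left _ _) hJ0) hVp
      _ = _ := by ring
  · -- the volume
    obtain ⟨G, hG⟩ : ∃ G : (Fin n → ℝ) → ℝ, G =
      (eball a (2 * r)).indicator (fun y => Real.sqrt (conf u y).det) := ⟨_, rfl⟩
    have h1 : ∀ x, (B n 2).indicator (fun p => Real.exp (n * dil u a r c p)) x =
        Real.exp (n * c) * G (a + r • x) := by
      intro x
      rw [hG]
      by_cases hx : x ∈ B n 2
      · rw [Set.indicator_of_mem hx, Set.indicator_of_mem ((mem_eball_iff hr x).mpr hx), dens_conf]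
        unfold dil
        rw [mul_add, Real.exp_add]
        ring
      · rw [Set.indicator_of_notMem hx,
          Set.indicator_of_notMem (fun h => hx ((mem_eball_iff hr x).mp h)), mul_zero]
    have hme : MeasurableSet (eball a (2 * r)) := by
      unfold eball
      exact (isOpen_lt (by fun_prop) continuous_const).measurableSet
    rw [← integral_indicator (measurableSet_B 2)]
    rw [integral_congr_ae (Eventually.of_forall h1), integral_const_mul, cov G a hr, hG,
      integral_indicator hme, hexp]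
    have h5 : ∫ y in eball a (2 * r), Real.sqrt (conf u y).det = V := by
      rw [hVd]
      rfl
    have h2 : r ^ (n : ℝ) = r ^ n := Real.rpow_natCast r n
    rw [h5, h2, Real.rpow_neg hV.le, div_self hn0.ne', Real.rpow_one]
    have h3 : r ^ n ≠ 0 := (pow_pos hr n).ne'
    have h4 : V ≠ 0 := hV.ne'
    refine le_of_eq ?_
    field_simp

end

end Pool.Agent.Helper50.CF
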