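import Pool.Agent.Helper50.CF.ScaleA
import Pool.Agent.Helper50.CF.ScaleB

/-! # CF-12: normalisation by dilation and by a constant

Setting: `u` smooth on the open set `Ω ⊇ ecball a (2r)`, `V = ∫_{eball a (2r)} e^{nu} > 0`,
`resc u a r V x = u (a + r x) + log r - (1/n) log V`, `Ω' = {x | a + r x ∈ Ω}`, `lam' = lam V^(2/n)`.
PROOF. `∂ᵢ(resc u) x = r (∂ᵢu)(a + r x)`, `lp (resc u) x = r² lp u (a + r x)`,
`gs = r² gs`, `hq = r⁴ hq`, `e^{2 resc u} = r² V^(-2/n) e^{2u}`, so `P1`, `P2` follow from `ric_P1`,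
`ric_P2`. Sobolev: for `f` on `B n 2` let `F y = f ((y - a)/r)`, tsupport in `eball a (2r)`;
change of variables `y = a + r x`, `dy = r^n dx` (`MeasureTheory.Measure.integral_comp_smul`,
`integral_add_left_eq_self`) gives `∫ |f|^q e^{n resc u} = V⁻¹ ∫ |F|^q e^{nu}` and
`∫ |∇f|² e^{(n-2) resc u} = V^(-(n-2)/n) ∫ |∇F|² e^{(n-2)u}`. `inv_conf`, `dens_conf` identify the
integrals in `Sobolev (conf u)`. The constant `max S 1` is allowed since the right side is `S` times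
a nonnegative number. The volume of `B n 2` is `V⁻¹ V = 1`. -/

namespace Pool.Agent.Helper50.CF

open scoped ContDiff Topology
open Pool.Agent.Helper49.Ric Pool.Agent.Helper73.HB MeasureTheory Filter

noncomputable section

variable {n : ℕ} {S lam : ℝ} {Ω : Set (Fin n → ℝ)} {u : (Fin n → ℝ) → ℝ} {p : Fin n → ℝ}

/-- the normalised conformal factor -/
def resc (u : (Fin n → ℝ) → ℝ) (a : Fin n → ℝ) (r V : ℝ) (x : Fin n → ℝ) : ℝ :=
  u (a + r • x) + Real.log r - Real.log V / n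

theorem gvol_pos (hn : 3 ≤ n) (hu : ∀ p ∈ Ω, ContDiffAt ℝ ∞ u p) {a : Fin n → ℝ} {r : ℝ}
    (hr : 0 < r) (hs : ecball a (2 * r) ⊆ Ω) : 0 < gvol (conf u) (eball a (2 * r)) :=
  gvol_pos_aux hu (by linarith) hs

theorem data_resc (hn : 3 ≤ n) (hΩ : IsOpen Ω) (hu : ∀ p ∈ Ω, ContDiffAt ℝ ∞ u p)
    {a : Fin n → ℝ} {r : ℝ} (hr : 0 < r) (hs : ecball a (2 * r) ⊆ Ω) (hlam : 0 ≤ lam)
    (hR : ∀ p ∈ eball a (2 * r), ∀ v : Fin n → ℝ,
      -lam * ∑ i, ∑ j, conf u p i j * v i * v j ≤ ∑ i, ∑ j, ricci (conf u) i j p * v i * v j)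
    (hS : Sobolev (conf u) (eball a (2 * r)) S) :
    Data n (max S 1) (lam * gvol (conf u) (eball a (2 * r)) ^ (2 / n : ℝ))
      {x | a + r • x ∈ Ω} (resc u a r (gvol (conf u) (eball a (2 * r)))) := by
  have h1 : resc u a r (gvol (conf u) (eball a (2 * r))) = ScB.dil u a r
      (Real.log r - Real.log (gvol (conf u) (eball a (2 * r))) / n) := by
    funext x
    unfold resc ScB.dil
    ring
  rw [h1]
  exact data_resc_aux hn hΩ hu hr (gvol_pos hn hu hr hs) rfl rfl hs hlam hR hS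

/-- the scalar curvature integral in the normalised picture -/
theorem scal_resc (hn : 3 ≤ n) (hΩ : IsOpen Ω) (hu : ∀ p ∈ Ω, ContDiffAt ℝ ∞ u p)
    {a : Fin n → ℝ} {r : ℝ} (hr : 0 < r) (hs : ecball a (2 * r) ⊆ Ω) {V : ℝ} (hV : 0 < V) :
    ∫ x in B n 1, (-(2 * ((n : ℝ) - 1)) * lp (resc u a r V) x
        - ((n : ℝ) - 1) * ((n : ℝ) - 2) * gs (resc u a r V) x)
        * Real.exp ((n - 2) * resc u a r V x) =
      V ^ (-((n - 2) / n : ℝ)) * ∫ p in eball a r, scal (conf u) p * Real.sqrt (conf u p).det :=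
  scal_aux hu hr (((eball_mono hr.le (by linarith)).trans (eball_subset_ecball a (2 * r))).trans hs)
    hV hn

end

end Pool.Agent.Helper50.CF
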