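import Pool.Agent.Helper50.CF.Conf

/-! # CF-12a: dilation: pointwise part and change of variables -/

namespace Pool.Agent.Helper50.CF

open scoped ContDiff Topology
open Pool.Agent.Helper49.Ric Pool.Agent.Helper73.HB MeasureTheory Filter

noncomputable section

variable {n : ℕ} {S lam : ℝ} {Ω : Set (Fin n → ℝ)} {u : (Fin n → ℝ) → ℝ} {p : Fin n → ℝ}

/-- partial derivatives of a dilated function (no differentiability needed) -/
theorem pd_dil (F : (Fin n → ℝ) → ℝ) (a : Fin n → ℝ) (r c d : ℝ) (i : Fin n) (x : Fin n → ℝ) :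
    pd i (fun y => c * F (a + r • y) + d) x = c * (r * pd i F (a + r • x)) := by
  have h1 : pd i (fun y => c * F (a + r • y) + d) x =
      deriv (fun t : ℝ => c * F ((a + r • x) + t • (r • (Pi.single i (1 : ℝ) : Fin n → ℝ))) + d)
        0 := by
    unfold pd lineDeriv
    congr 1
    funext t
    change c * F (a + r • (x + t • Pi.single i 1)) + d = _
    rw [smul_add, smul_comm r t, add_assoc]
  have h2 : lineDeriv ℝ F (a + r • x) (r • (Pi.single i (1 : ℝ) : Fin n → ℝ)) =
      r * pd i F (a + r • x) := by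
    unfold pd
    rw [lineDeriv_smul, smul_eq_mul]
  rw [h1, deriv_add_const, deriv_const_mul_field, ← h2]
  rfl

theorem mem_dil {a x : Fin n → ℝ} {r s : ℝ} (hr : 0 < r) :
    a + r • x ∈ eball a (s * r) ↔ x ∈ B n s := by
  have h : ∑ i, ((a + r • x) i - a i) ^ 2 = r ^ 2 * ∑ i, x i ^ 2 := by
    rw [Finset.mul_sum]
    refine Finset.sum_congr rfl fun i _ => ?_
    simp only [Pi.add_apply, Pi.smul_apply, smul_eq_mul]
    ring
  unfold eball B
  rw [Set.mem_ofPred_eq, Set.mem_ofPred_eq, h, mul_pow, mul_comm (s ^ 2)]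
  exact mul_lt_mul_iff_right₀ (pow_pos hr 2)

theorem isOpen_eball (a : Fin n → ℝ) (r : ℝ) : IsOpen (eball a r) := by
  unfold eball
  exact isOpen_lt (by fun_prop) continuous_const

theorem isCompact_ecball (a : Fin n → ℝ) (r : ℝ) : IsCompact (ecball a r) := by
  have hc : IsClosed (ecball a r) := by
    unfold ecball
    exact isClosed_le (by fun_prop) continuous_const
  refine Metric.isCompact_of_isClosed_isBounded hc ?_
  refine (Metric.isBounded_closedBall (x := a) (r := |r|)).subset ?_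
  intro p hp
  rw [mem_closedBall_iff_norm, pi_norm_le_iff_of_nonneg (abs_nonneg r)]
  intro i
  have h1 : (p i - a i) ^ 2 ≤ ∑ j, (p j - a j) ^ 2 :=
    Finset.single_le_sum (f := fun j => (p j - a j) ^ 2) (fun j _ => sq_nonneg _)
      (Finset.mem_univ i)
  have h2 : (p i - a i) ^ 2 ≤ r ^ 2 := h1.trans hp
  rw [Real.norm_eq_abs]
  exact sq_le_sq.mp h2

theorem eball_subset_ecball (a : Fin n → ℝ) (r : ℝ) : eball a r ⊆ ecball a r := fun p hp => by
  have h1 : ∑ i, (p i - a i) ^ 2 < r ^ 2 := hp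
  exact h1.le

theorem eball_mono {a : Fin n → ℝ} {r R : ℝ} (h0 : 0 ≤ r) (h : r ≤ R) :
    eball a r ⊆ eball a R := fun p hp => by
  have h1 : ∑ i, (p i - a i) ^ 2 < r ^ 2 := hp
  exact lt_of_lt_of_le h1 (pow_le_pow_left₀ h0 h 2)

/-- change of variables `y = a + r x`, whole space -/
theorem integral_dil (F : (Fin n → ℝ) → ℝ) (a : Fin n → ℝ) {r : ℝ} (hr : 0 < r) :
    ∫ x, F (a + r • x) = (r ^ n)⁻¹ * ∫ y, F y := by
  have h1 : ∫ x, F (a + r • x) = |(r ^ Module.finrank ℝ (Fin n → ℝ))⁻¹| • ∫ y, F (a + y) :=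
    Measure.integral_comp_smul volume (fun y => F (a + y)) r
  rw [h1, integral_add_left_eq_self, Module.finrank_fin_fun, smul_eq_mul,
    abs_of_pos (inv_pos.mpr (pow_pos hr n))]

/-- change of variables `y = a + r x` on balls -/
theorem setIntegral_dil (F : (Fin n → ℝ) → ℝ) (a : Fin n → ℝ) {r : ℝ} (hr : 0 < r) (s : ℝ) :
    ∫ x in B n s, F (a + r • x) = (r ^ n)⁻¹ * ∫ y in eball a (s * r), F y := by
  have h1 : ∀ x, (B n s).indicator (fun x => F (a + r • x)) x =
      (eball a (s * r)).indicator F (a + r • x) := by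
    intro x
    by_cases hx : x ∈ B n s
    · rw [Set.indicator_of_mem hx, Set.indicator_of_mem ((mem_dil hr).mpr hx)]
    · rw [Set.indicator_of_notMem hx, Set.indicator_of_notMem fun h => hx ((mem_dil hr).mp h)]
  rw [← integral_indicator (measurableSet_B s), integral_congr_ae (Eventually.of_forall h1),
    integral_dil (n := n) _ a hr, integral_indicator (isOpen_eball a (s * r)).measurableSet]

theorem volume_eball_pos (a : Fin n → ℝ) {r : ℝ} (hr : 0 < r) : 0 < volume (eball a r) := by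
  refine (isOpen_eball a r).measure_pos volume ⟨a, ?_⟩
  unfold eball
  simp only [Set.mem_ofPred_eq, sub_self]
  simp only [ne_eq, OfNat.ofNat_ne_zero, not_false_eq_true, zero_pow, Finset.sum_const_zero]
  exact pow_pos hr 2

theorem resc_eq (u : (Fin n → ℝ) → ℝ) (a : Fin n → ℝ) (r V : ℝ) :
    (fun x => u (a + r • x) + Real.log r - Real.log V / n) =
      fun x => 1 * u (a + r • x) + (Real.log r - Real.log V / n) := by
  funext x
  ring

/-- `u (a + r x) + c`: first derivatives -/
theorem pd_resc (u : (Fin n → ℝ) → ℝ) (a : Fin n → ℝ) (r c : ℝ) (i : Fin n) :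
    pd i (fun x => 1 * u (a + r • x) + c) = fun x => r * pd i u (a + r • x) + 0 := by
  funext x
  rw [pd_dil, one_mul, add_zero]

/-- `u (a + r x) + c`: second derivatives -/
theorem pd2_resc (u : (Fin n → ℝ) → ℝ) (a : Fin n → ℝ) (r c : ℝ) (i j : Fin n) (x : Fin n → ℝ) :
    pd i (pd j (fun x => 1 * u (a + r • x) + c)) x = r ^ 2 * pd i (pd j u) (a + r • x) := by
  rw [pd_resc, pd_dil]
  ring

theorem gs_resc (u : (Fin n → ℝ) → ℝ) (a : Fin n → ℝ) (r c : ℝ) (x : Fin n → ℝ) :
    gs (fun x => 1 * u (a + r • x) + c) x = r ^ 2 * gs u (a + r • x) := by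
  unfold gs
  rw [Finset.mul_sum]
  refine Finset.sum_congr rfl fun i _ => ?_
  rw [pd_resc]
  ring

theorem lp_resc (u : (Fin n → ℝ) → ℝ) (a : Fin n → ℝ) (r c : ℝ) (x : Fin n → ℝ) :
    lp (fun x => 1 * u (a + r • x) + c) x = r ^ 2 * lp u (a + r • x) := by
  unfold lp
  rw [Finset.mul_sum]
  refine Finset.sum_congr rfl fun i _ => ?_
  rw [pd2_resc]

theorem hq_resc (u : (Fin n → ℝ) → ℝ) (a : Fin n → ℝ) (r c : ℝ) (x : Fin n → ℝ) :
    hq (fun x => 1 * u (a + r • x) + c) x = r ^ 4 * hq u (a + r • x) := by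
  unfold hq
  rw [Finset.mul_sum]
  refine Finset.sum_congr rfl fun i _ => ?_
  rw [Finset.mul_sum]
  refine Finset.sum_congr rfl fun j _ => ?_
  rw [pd2_resc, pd_resc, pd_resc]
  ring

/-- the scalar curvature integral of `u (a + r x) + log r + c` -/
theorem scal_aux (hu : ∀ p ∈ Ω, ContDiffAt ℝ ∞ u p) {a : Fin n → ℝ} {r : ℝ} (hr : 0 < r)
    (hs : eball a r ⊆ Ω) {V : ℝ} (hV : 0 < V) (hn : 3 ≤ n) :
    ∫ x in B n 1, (-(2 * ((n : ℝ) - 1)) *
        lp (fun x => u (a + r • x) + Real.log r - Real.log V / n) x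
        - ((n : ℝ) - 1) * ((n : ℝ) - 2) *
          gs (fun x => u (a + r • x) + Real.log r - Real.log V / n) x)
        * Real.exp ((n - 2) * (u (a + r • x) + Real.log r - Real.log V / n)) =
      V ^ (-((n - 2) / n : ℝ)) * ∫ p in eball a r, scal (conf u) p * Real.sqrt (conf u p).det := by
  have hn0 : (n : ℝ) ≠ 0 := by positivity
  have h1 : ∫ p in eball a r, scal (conf u) p * Real.sqrt (conf u p).det =
      ∫ p in eball a r, (-(2 * ((n : ℝ) - 1)) * lp u p
        - ((n : ℝ) - 1) * ((n : ℝ) - 2) * gs u p) * Real.exp ((n - 2) * u p) := by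
    refine setIntegral_congr_fun (isOpen_eball a r).measurableSet fun p hp => ?_
    exact scal_conf (hu p (hs hp))
  have hk : Real.exp ((n - 2) * (Real.log r - Real.log V / n)) * r ^ 2 =
      V ^ (-((n - 2) / n : ℝ)) * r ^ n := by
    have e1 : r ^ 2 = Real.exp (2 * Real.log r) := by
      rw [mul_comm, Real.exp_mul, Real.exp_log hr]
      norm_num
    have e2 : r ^ n = Real.exp (n * Real.log r) := by
      rw [mul_comm, Real.exp_mul, Real.exp_log hr, Real.rpow_natCast]
    rw [e1, e2, Real.rpow_def_of_pos hV, ← Real.exp_add, ← Real.exp_add]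
    congr 1
    field_simp
    ring
  have h2 : ∀ x, (-(2 * ((n : ℝ) - 1)) *
        lp (fun x => u (a + r • x) + Real.log r - Real.log V / n) x
        - ((n : ℝ) - 1) * ((n : ℝ) - 2) *
          gs (fun x => u (a + r • x) + Real.log r - Real.log V / n) x)
        * Real.exp ((n - 2) * (u (a + r • x) + Real.log r - Real.log V / n)) =
      V ^ (-((n - 2) / n : ℝ)) * r ^ n * ((-(2 * ((n : ℝ) - 1)) * lp u (a + r • x)
        - ((n : ℝ) - 1) * ((n : ℝ) - 2) * gs u (a + r • x)) *
          Real.exp ((n - 2) * u (a + r • x))) := by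
    intro x
    have e : Real.exp ((n - 2) * (u (a + r • x) + Real.log r - Real.log V / n)) =
        Real.exp ((n - 2) * u (a + r • x)) *
          Real.exp ((n - 2) * (Real.log r - Real.log V / n)) := by
      rw [← Real.exp_add]
      congr 1
      ring
    rw [resc_eq, gs_resc, lp_resc, e, ← hk]
    ring
  rw [h1, integral_congr_ae (Eventually.of_forall h2), integral_const_mul,
    setIntegral_dil (fun p => (-(2 * ((n : ℝ) - 1)) * lp u p
        - ((n : ℝ) - 1) * ((n : ℝ) - 2) * gs u p) * Real.exp ((n - 2) * u p)) a hr 1, one_mul]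
  have h3 : r ^ n ≠ 0 := (pow_pos hr n).ne'
  field_simp

theorem gvol_pos_aux (hu : ∀ p ∈ Ω, ContDiffAt ℝ ∞ u p) {a : Fin n → ℝ} {r : ℝ}
    (hr : 0 < r) (hs : ecball a r ⊆ Ω) : 0 < gvol (conf u) (eball a r) := by
  unfold gvol
  have h1 : ∀ q, Real.sqrt (conf u q).det = Real.exp (n * u q) := fun q => dens_conf u q
  simp only [h1]
  have hc : ContinuousOn (fun q => Real.exp (n * u q)) (ecball a r) := by
    intro q hq
    exact (((hu q (hs hq)).continuousAt.const_mul (n : ℝ)).rexp).continuousWithinAt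
  have hi : IntegrableOn (fun q => Real.exp (n * u q)) (eball a r) :=
    (hc.integrableOn_compact (isCompact_ecball a r)).mono_set (eball_subset_ecball a r)
  rw [setIntegral_pos_iff_support_of_nonneg_ae
    (Eventually.of_forall fun q => (Real.exp_pos _).le) hi]
  have h2 : Function.support (fun q => Real.exp (n * u q)) = Set.univ := by
    ext q
    simp [Real.exp_ne_zero]
  rw [h2, Set.univ_inter]
  exact volume_eball_pos a hr

end

end Pool.Agent.Helper50.CF
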