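import Pool.Agent.Helper50.CF.Test
import Pool.Agent.Helper50.CF.Cut

/-! # CF-5: the local bound for `∫ |∇u|^{n-1}`

PROOF. `test0` with `s = n - 3`, `ψ = φ^(n-1)`, `φ` the cutoff (`r = 3/2`, `R = 2`, `gr φ ≤ 2c =: A`):
`(1/2) ∫ φ^(n-1) gr^(n-1) ≤ ∫ (n-1) φ^(n-2) gr φ gr^(n-2) + lam ∫ φ^(n-1) gr^(n-3) e^{2u}`.
With `t = φ gr u` (and `φ ≤ 1`), `c₁ = (n-1) A`, the integrands on the right are, on `B n 2`
(both vanish off it), at most
`c₁ t^(n-2) ≤ t^(n-1)/8 + c₁ (8 c₁)^(n-2)` (case `t ≥ 8c₁` or not) and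
`lam t^(n-3) y² ≤ t^(n-1)/8 + Lam K^(n-3) y^(n-1)`, `y = e^u`, `K ≥ 1`, `K² ≥ 8 Lam` (case `t ≥ K y`
or not), `y^(n-1) ≤ 1 + y^n`, `y^n = e^{nu}`. So
`(1/4) ∫ t^(n-1) ≤ c₁ (8c₁)^(n-2) β + Lam K^(n-3) (β + 1)`, `β = volume of B n 2`, by `h.vol`.
`φ = 1` on `B n (3/2)`. (If `Lam < 0` there is no `lam`; one may replace `Lam` by `|Lam|`.) -/

namespace Pool.Agent.Helper50.CF

open scoped ContDiff Topology
open Pool.Agent.Helper49.Ric Pool.Agent.Helper73.HB MeasureTheory Filter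

noncomputable section

variable {n : ℕ} {S lam : ℝ} {Ω : Set (Fin n → ℝ)} {u : (Fin n → ℝ) → ℝ} {p : Fin n → ℝ}

private theorem aux1 {t c : ℝ} (ht : 0 ≤ t) (hc : 0 ≤ c) (m : ℕ) :
    c * t ^ m ≤ t ^ (m + 1) / 8 + c * (8 * c) ^ m := by
  rcases le_total (8 * c) t with h | h
  · have h1 : c * t ^ m ≤ t / 8 * t ^ m :=
      mul_le_mul_of_nonneg_right (by linarith) (pow_nonneg ht m)
    have h2 : 0 ≤ c * (8 * c) ^ m := by positivity
    rw [pow_succ]
    linarith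
  · have h1 : c * t ^ m ≤ c * (8 * c) ^ m :=
      mul_le_mul_of_nonneg_left (pow_le_pow_left₀ ht h m) hc
    have h2 : 0 ≤ t ^ (m + 1) := by positivity
    linarith

private theorem aux2 {t y lam L K : ℝ} (ht : 0 ≤ t) (hy : 0 ≤ y) (hl : 0 ≤ lam) (hL : lam ≤ L)
    (hK : 1 ≤ K) (hK2 : 8 * L ≤ K ^ 2) (k : ℕ) :
    lam * (t ^ k * y ^ 2) ≤ t ^ (k + 2) / 8 + L * K ^ k * y ^ (k + 2) := by
  have hL0 : 0 ≤ L := hl.trans hL
  rcases le_total (K * y) t with h | h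
  · have h1 : (K * y) ^ 2 ≤ t ^ 2 := pow_le_pow_left₀ (by positivity) h 2
    have h2 : lam * y ^ 2 ≤ t ^ 2 / 8 := by
      have h3 : lam * y ^ 2 ≤ L * y ^ 2 := mul_le_mul_of_nonneg_right hL (by positivity)
      have h4 : 8 * L * y ^ 2 ≤ K ^ 2 * y ^ 2 := mul_le_mul_of_nonneg_right hK2 (by positivity)
      have h5 : (K * y) ^ 2 = K ^ 2 * y ^ 2 := by ring
      linarith
    have h3 : t ^ k * (lam * y ^ 2) ≤ t ^ k * (t ^ 2 / 8) :=
      mul_le_mul_of_nonneg_left h2 (pow_nonneg ht k)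
    have h4 : 0 ≤ L * K ^ k * y ^ (k + 2) := by positivity
    have h5 : t ^ (k + 2) = t ^ k * t ^ 2 := pow_add t k 2
    calc lam * (t ^ k * y ^ 2) = t ^ k * (lam * y ^ 2) := by ring
      _ ≤ t ^ k * (t ^ 2 / 8) := h3
      _ = t ^ (k + 2) / 8 := by rw [h5]; ring
      _ ≤ _ := by linarith
  · have h1 : t ^ k ≤ (K * y) ^ k := pow_le_pow_left₀ ht h k
    have h2 : 0 ≤ t ^ (k + 2) / 8 := by positivity
    calc lam * (t ^ k * y ^ 2) ≤ L * ((K * y) ^ k * y ^ 2) := by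
          refine mul_le_mul hL (mul_le_mul_of_nonneg_right h1 (by positivity)) ?_ hL0
          positivity
      _ = L * K ^ k * y ^ (k + 2) := by rw [mul_pow, pow_add]; ring
      _ ≤ _ := by linarith

private theorem aux3 {y : ℝ} (hy : 0 ≤ y) (m : ℕ) : y ^ m ≤ 1 + y ^ (m + 1) := by
  rcases le_total y 1 with h | h
  · have h1 : y ^ m ≤ 1 := pow_le_one₀ hy h
    have h2 : 0 ≤ y ^ (m + 1) := by positivity
    linarith
  · have h1 : y ^ m ≤ y ^ (m + 1) := pow_le_pow_right₀ h (Nat.le_succ m)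
    linarith

/-- the pointwise bound, `n = k + 3` -/
private theorem aux4 {k : ℕ} {φ g d y lam L K c : ℝ} (hφ0 : 0 ≤ φ) (hφ1 : φ ≤ 1) (hg : 0 ≤ g)
    (hy : 0 ≤ y) (hl : 0 ≤ lam) (hL : lam ≤ L) (hK : 1 ≤ K) (hK2 : 8 * L ≤ K ^ 2)
    (hc : 0 ≤ c) (hd : d ≤ c * φ ^ (k + 1) * g) :
    g ^ k * d + lam * (φ ^ (k + 2) * (g ^ k * y ^ 2)) ≤
      (φ * g) ^ (k + 2) / 4 + (c * (8 * c) ^ (k + 1) + L * K ^ k) + L * K ^ k * y ^ (k + 3) := by
  have ht : 0 ≤ φ * g := mul_nonneg hφ0 hg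
  have hL0 : 0 ≤ L := hl.trans hL
  have h1 : g ^ k * d ≤ c * (φ * g) ^ (k + 1) := by
    calc g ^ k * d ≤ g ^ k * (c * φ ^ (k + 1) * g) :=
          mul_le_mul_of_nonneg_left hd (pow_nonneg hg k)
      _ = c * (φ * g) ^ (k + 1) := by rw [mul_pow]; ring
  have h2 := aux1 ht hc (k + 1)
  have h3 : lam * (φ ^ (k + 2) * (g ^ k * y ^ 2)) ≤ lam * ((φ * g) ^ k * y ^ 2) := by
    refine mul_le_mul_of_nonneg_left ?_ hl
    have h4 : φ ^ (k + 2) * (g ^ k * y ^ 2) = φ ^ 2 * ((φ * g) ^ k * y ^ 2) := by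
      rw [mul_pow]; ring
    rw [h4]
    have h5 : φ ^ 2 ≤ 1 := pow_le_one₀ hφ0 hφ1
    have h6 : 0 ≤ (φ * g) ^ k * y ^ 2 := by positivity
    calc φ ^ 2 * ((φ * g) ^ k * y ^ 2) ≤ 1 * ((φ * g) ^ k * y ^ 2) :=
          mul_le_mul_of_nonneg_right h5 h6
      _ = _ := one_mul _
  have h4 := aux2 ht hy hl hL hK hK2 k
  have h5 := aux3 hy (k + 2)
  have h6 : L * K ^ k * y ^ (k + 2) ≤ L * K ^ k * (1 + y ^ (k + 2 + 1)) :=
    mul_le_mul_of_nonneg_left h5 (by positivity)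
  have h7 : k + 2 + 1 = k + 3 := rfl
  have h8 : k + 1 + 1 = k + 2 := rfl
  rw [h7] at h6
  rw [h8] at h2
  linarith

private theorem pd_pow' {φ : (Fin n → ℝ) → ℝ} (hφ : ContDiff ℝ ∞ φ) (m : ℕ) (i : Fin n)
    (p : Fin n → ℝ) :
    pd i (fun q => φ q ^ (m + 1)) p = (m + 1) * φ p ^ m * pd i φ p := by
  have hd : ∀ m : ℕ, DifferentiableAt ℝ (fun q => φ q ^ m) p := fun m =>
    diff_of_smooth (hφ.contDiffAt.pow m)
  induction m with
  | zero => simp
  | succ m ih =>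
    have h1 : (fun q => φ q ^ (m + 1 + 1)) = fun q => φ q ^ (m + 1) * φ q := by
      funext q; exact pow_succ _ _
    rw [h1, pd_mul (hd (m + 1)) (diff_of_smooth hφ.contDiffAt), ih]
    push_cast
    ring

theorem exists_G (n : ℕ) (Lam : ℝ) : ∃ C : ℝ, 1 ≤ C ∧
    ∀ {S lam : ℝ} {Ω : Set (Fin n → ℝ)} {u : (Fin n → ℝ) → ℝ}, Data n S lam Ω u → lam ≤ Lam →
      ∫ p in B n (3 / 2), gr u p ^ (n - 1) ≤ C := by
  obtain ⟨c0, hc0, hcut⟩ := exists_cutoff
  -- constants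
  set L : ℝ := |Lam| with hLdef
  have hL0 : 0 ≤ L := abs_nonneg _
  set K : ℝ := 1 + 8 * L with hKdef
  have hK1 : 1 ≤ K := by rw [hKdef]; linarith
  have hK2 : 8 * L ≤ K ^ 2 := by rw [hKdef]; nlinarith
  set c : ℝ := (n : ℝ) * (c0 / (2 - 3 / 2)) with hcdef
  have hc : 0 ≤ c := by
    rw [hcdef]; exact mul_nonneg (Nat.cast_nonneg n) (div_nonneg (by linarith) (by norm_num))
  set β : ℝ := (volume (B n 2)).toReal with hβ
  have hβ0 : 0 ≤ β := ENNReal.toReal_nonneg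
  set A : ℝ := c * (8 * c) ^ (n - 2) + L * K ^ (n - 3) with hA
  have hA0 : 0 ≤ A := by rw [hA]; positivity
  refine ⟨1 + 4 * (A * β + L * K ^ (n - 3)), ?_, ?_⟩
  · have : 0 ≤ A * β + L * K ^ (n - 3) := by positivity
    linarith
  intro S lam Ω u h hlam
  obtain ⟨k, rfl⟩ : ∃ k, n = k + 3 := ⟨n - 3, by have := h.hn; omega⟩
  have e1 : k + 3 - 1 = k + 2 := rfl
  have e2 : k + 3 - 2 = k + 1 := rfl
  have e3 : k + 3 - 3 = k := rfl
  rw [e2, e3] at hA
  rw [e1, e3]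
  have hlL : lam ≤ L := hlam.trans (le_abs_self _)
  obtain ⟨φ, hφ, hφc, hφs, hφ0, hφ1, hφe, hφg⟩ := hcut (k + 3) (3 / 2) 2 (by norm_num) (by norm_num)
  -- the function psi
  have hψ : ContDiff ℝ ∞ (fun p => φ p ^ (k + 2)) := hφ.pow _
  have hψs0 : Function.support (fun p => φ p ^ (k + 2)) ⊆ Function.support φ := by
    intro p hp hp0
    apply hp
    show φ p ^ (k + 2) = 0
    rw [hp0]
    simp
  have hψs1 : tsupport (fun p => φ p ^ (k + 2)) ⊆ tsupport φ := closure_mono hψs0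
  have hψs : tsupport (fun p => φ p ^ (k + 2)) ⊆ B (k + 3) 2 := hψs1.trans hφs
  have hψc : HasCompactSupport (fun p => φ p ^ (k + 2)) :=
    hφc.mono hψs0
  have hT := test0 h (s := k) (by omega) hψ hψc hψs (fun p => pow_nonneg (hφ0 p) _)
  have hcoef : (((k + 3 : ℕ) : ℝ) - 2 - (k : ℝ)) / 2 = 1 / 2 := by push_cast; ring
  rw [hcoef] at hT
  -- continuity
  have cφ : Continuous φ := hφ.continuous
  have cg : ContinuousOn (gr u) (Bc (k + 3) 2) := h.cgr
  have cu : ContinuousOn u (Bc (k + 3) 2) := h.cu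
  have cexp2 : ContinuousOn (fun p => Real.exp (2 * u p)) (Bc (k + 3) 2) :=
    Real.continuous_exp.comp_continuousOn (continuousOn_const.mul cu)
  have cexpn : ContinuousOn (fun p => Real.exp (((k + 3 : ℕ) : ℝ) * u p)) (Bc (k + 3) 2) :=
    Real.continuous_exp.comp_continuousOn (continuousOn_const.mul cu)
  have cpu : ∀ i, ContinuousOn (pd i u) (Bc (k + 3) 2) := fun i p hp =>
    (smooth_pd (h.smooth p (h.sub hp)) i).continuousAt.continuousWithinAt
  have cpψ : ∀ i, Continuous (pd i (fun p => φ p ^ (k + 2))) := fun i =>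
    continuous_iff_continuousAt.mpr fun p => (smooth_pd hψ.contDiffAt i).continuousAt
  have cF1 : ContinuousOn (fun p => gr u p ^ k * ∑ i, pd i (fun p => φ p ^ (k + 2)) p * pd i u p)
      (Bc (k + 3) 2) := by
    refine (cg.pow k).mul ?_
    exact continuousOn_finsetSum _ fun i _ => (cpψ i).continuousOn.mul (cpu i)
  have cF2 : ContinuousOn (fun p => φ p ^ (k + 2) * (gr u p ^ k * Real.exp (2 * u p)))
      (Bc (k + 3) 2) := (cφ.continuousOn.pow _).mul ((cg.pow k).mul cexp2)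
  have cT : ContinuousOn (fun p => (φ p * gr u p) ^ (k + 2)) (Bc (k + 3) 2) :=
    (cφ.continuousOn.mul cg).pow _
  -- vanishing off the ball
  have hz : ∀ p ∉ B (k + 3) 2, φ p ^ (k + 2) = 0 := fun p hp =>
    image_eq_zero_of_notMem_tsupport (f := fun p => φ p ^ (k + 2)) fun h' => hp (hψs h')
  have hz' : ∀ p ∉ B (k + 3) 2, ∀ i, pd i (fun p => φ p ^ (k + 2)) p = 0 := by
    intro p hp i
    have h1 : (fun p => φ p ^ (k + 2)) =ᶠ[𝓝 p] fun _ => (0 : ℝ) :=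
      notMem_tsupport_iff_eventuallyEq.mp fun h' => hp (hψs h')
    rw [pd_congr h1, pd_const]
  have i0 : ∫ p, φ p ^ (k + 2) * gr u p ^ (k + 2) =
      ∫ p in B (k + 3) 2, (φ p * gr u p) ^ (k + 2) := by
    rw [← setIntegral_eq_integral_of_forall_compl_eq_zero (s := B (k + 3) 2)
      (fun p hp => by rw [hz p hp, zero_mul])]
    refine setIntegral_congr_fun (measurableSet_B 2) fun p _ => ?_
    show φ p ^ (k + 2) * gr u p ^ (k + 2) = (φ p * gr u p) ^ (k + 2)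
    rw [mul_pow]
  have i1 : ∫ p, gr u p ^ k * ∑ i, pd i (fun p => φ p ^ (k + 2)) p * pd i u p =
      ∫ p in B (k + 3) 2, gr u p ^ k * ∑ i, pd i (fun p => φ p ^ (k + 2)) p * pd i u p := by
    rw [← setIntegral_eq_integral_of_forall_compl_eq_zero (s := B (k + 3) 2)]
    intro p hp
    rw [Finset.sum_eq_zero fun i _ => by rw [hz' p hp i, zero_mul], mul_zero]
  have i2 : ∫ p, φ p ^ (k + 2) * (gr u p ^ k * Real.exp (2 * u p)) =
      ∫ p in B (k + 3) 2, φ p ^ (k + 2) * (gr u p ^ k * Real.exp (2 * u p)) := by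
    rw [← setIntegral_eq_integral_of_forall_compl_eq_zero (s := B (k + 3) 2)
      (fun p hp => by rw [hz p hp, zero_mul])]
  -- integrability
  have j1 := integrableOn_of cF1 (subset_refl (B (k + 3) 2))
  have j2 := integrableOn_of cF2 (subset_refl (B (k + 3) 2))
  have jT := integrableOn_of cT (subset_refl (B (k + 3) 2))
  have jE := integrableOn_of cexpn (subset_refl (B (k + 3) 2))
  have jc : IntegrableOn (fun _ : Fin (k + 3) → ℝ => A) (B (k + 3) 2) :=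
    integrableOn_const (volume_B_lt_top 2).ne
  -- the pointwise bound
  have hpt : ∀ p ∈ B (k + 3) 2,
      gr u p ^ k * ∑ i, pd i (fun p => φ p ^ (k + 2)) p * pd i u p
        + lam * (φ p ^ (k + 2) * (gr u p ^ k * Real.exp (2 * u p))) ≤
      ((φ p * gr u p) ^ (k + 2) / 4 + A)
        + L * K ^ k * Real.exp (((k + 3 : ℕ) : ℝ) * u p) := by
    intro p _
    have q1 : Real.exp (2 * u p) = Real.exp (u p) ^ 2 := by
      rw [← Real.exp_nat_mul]; norm_num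
    have q2 : Real.exp (((k + 3 : ℕ) : ℝ) * u p) = Real.exp (u p) ^ (k + 3) := by
      rw [← Real.exp_nat_mul]
    rw [q1, q2, hA]
    refine (aux4 (hφ0 p) (hφ1 p) (gr_nonneg u p) (Real.exp_pos _).le h.lam0 hlL hK1 hK2 hc ?_)
    have q3 : ∑ i, pd i (fun p => φ p ^ (k + 2)) p * pd i u p =
        ((k : ℝ) + 2) * φ p ^ (k + 1) * ∑ i, pd i φ p * pd i u p := by
      rw [Finset.mul_sum]
      refine Finset.sum_congr rfl fun i _ => ?_
      rw [pd_pow' hφ (k + 1) i p]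
      push_cast
      ring
    rw [q3]
    have q4 : ∑ i, pd i φ p * pd i u p ≤ c0 / (2 - 3 / 2) * gr u p :=
      (le_abs_self _).trans ((abs_inner_le φ u p).trans
        (mul_le_mul_of_nonneg_right (hφg p) (gr_nonneg u p)))
    have q5 : 0 ≤ ((k : ℝ) + 2) * φ p ^ (k + 1) := by
      have := hφ0 p
      positivity
    refine (mul_le_mul_of_nonneg_left q4 q5).trans ?_
    have q6 : c * φ p ^ (k + 1) * gr u p =
        ((k : ℝ) + 3) * φ p ^ (k + 1) * (c0 / (2 - 3 / 2) * gr u p) := by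
      rw [hcdef]; push_cast; ring
    rw [q6]
    have q7 : 0 ≤ φ p ^ (k + 1) * (c0 / (2 - 3 / 2) * gr u p) := by
      have := hφ0 p
      have := gr_nonneg u p
      have : 0 ≤ c0 / (2 - 3 / 2) := div_nonneg (by linarith) (by norm_num)
      positivity
    nlinarith
  have hint : (∫ p in B (k + 3) 2,
        gr u p ^ k * ∑ i, pd i (fun p => φ p ^ (k + 2)) p * pd i u p)
      + lam * (∫ p in B (k + 3) 2, φ p ^ (k + 2) * (gr u p ^ k * Real.exp (2 * u p))) ≤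
      ((∫ p in B (k + 3) 2, (φ p * gr u p) ^ (k + 2)) / 4 + A * β)
        + L * K ^ k * ∫ p in B (k + 3) 2, Real.exp (((k + 3 : ℕ) : ℝ) * u p) := by
    have m1 := setIntegral_mono_on (j1.add (j2.const_mul lam))
      (((jT.div_const 4).add jc).add (jE.const_mul (L * K ^ k))) (measurableSet_B 2) hpt
    have m2 : ∫ p in B (k + 3) 2, (gr u p ^ k * ∑ i, pd i (fun p => φ p ^ (k + 2)) p * pd i u p
        + lam * (φ p ^ (k + 2) * (gr u p ^ k * Real.exp (2 * u p)))) =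
        (∫ p in B (k + 3) 2, gr u p ^ k * ∑ i, pd i (fun p => φ p ^ (k + 2)) p * pd i u p)
        + lam * (∫ p in B (k + 3) 2, φ p ^ (k + 2) * (gr u p ^ k * Real.exp (2 * u p))) := by
      rw [integral_add j1 (j2.const_mul lam), integral_const_mul]
    have m3 : ∫ p in B (k + 3) 2, (((φ p * gr u p) ^ (k + 2) / 4 + A)
        + L * K ^ k * Real.exp (((k + 3 : ℕ) : ℝ) * u p)) =
        ((∫ p in B (k + 3) 2, (φ p * gr u p) ^ (k + 2)) / 4 + A * β)
        + L * K ^ k * ∫ p in B (k + 3) 2, Real.exp (((k + 3 : ℕ) : ℝ) * u p) := by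
      have jTA : IntegrableOn (fun p => (φ p * gr u p) ^ (k + 2) / 4 + A) (B (k + 3) 2) :=
        (jT.div_const 4).add jc
      rw [integral_add jTA (jE.const_mul (L * K ^ k)),
        integral_add (jT.div_const 4) jc, integral_const_mul, integral_div, setIntegral_const]
      rw [smul_eq_mul, mul_comm A β]
      rfl
    rw [← m2, ← m3]
    exact m1
  rw [i0, i1, i2] at hT
  have hv := h.vol
  have hLK : 0 ≤ L * K ^ k := by positivity
  have hv2 : L * K ^ k * (∫ p in B (k + 3) 2, Real.exp (((k + 3 : ℕ) : ℝ) * u p)) ≤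
      L * K ^ k * 1 := mul_le_mul_of_nonneg_left hv hLK
  have hfin : ∫ p in B (k + 3) 2, (φ p * gr u p) ^ (k + 2) ≤ 4 * (A * β + L * K ^ k) := by
    linarith
  -- restriction to the ball of radius 3/2
  have r1 : ∫ p in B (k + 3) (3 / 2), gr u p ^ (k + 2) =
      ∫ p in B (k + 3) (3 / 2), (φ p * gr u p) ^ (k + 2) := by
    refine setIntegral_congr_fun (measurableSet_B _) fun p hp => ?_
    show gr u p ^ (k + 2) = (φ p * gr u p) ^ (k + 2)
    rw [hφe p (B_subset_Bc _ hp), one_mul]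
  have r2 : ∫ p in B (k + 3) (3 / 2), (φ p * gr u p) ^ (k + 2) ≤
      ∫ p in B (k + 3) 2, (φ p * gr u p) ^ (k + 2) :=
    integral_mono_set cT (subset_refl _) (B_mono (by norm_num) (by norm_num))
      (measurableSet_B 2) fun p _ => pow_nonneg (mul_nonneg (hφ0 p) (gr_nonneg u p)) _
  rw [r1]
  linarith

end

end Pool.Agent.Helper50.CF
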